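import Pool.Agent.W709.VC.Ang3

/-! The potential at the critical point is the maximum of the volume functional. -/

set_option autoImplicit false

namespace Pool.Agent.W709.VC

open Filter Finset EvenVol
open scoped Real Topology ComplexConjugate

lemma one_sub_pow (η b : ℝ) (j : ℕ) :
    1 - Complex.exp (-(η + b * Complex.I)) ^ j =
      2 * Complex.exp (-(j * rho η b)) * Sk η b j := by
  unfold Sk rho
  rw [← Complex.exp_nat_mul, Complex.sinh]
  have e1 : (j : ℂ) * -(η + b * Complex.I) = -(j * ((η + b * Complex.I) / 2)) +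
      -(j * ((η + b * Complex.I) / 2)) := by ring
  rw [e1, Complex.exp_add]
  have e2 : Complex.exp (-((j : ℂ) * ((η + b * Complex.I) / 2))) *
      Complex.exp ((j : ℂ) * ((η + b * Complex.I) / 2)) = 1 := by
    rw [← Complex.exp_add, neg_add_cancel, Complex.exp_zero]
  linear_combination (-1 : ℂ) * e2

lemma ck_eq (η b : ℝ) (k : ℕ) (h1 : Sk η b 1 ≠ 0) :
    ck η b k = (1 - Complex.exp (-(η + b * Complex.I)) ^ (k + 1)) ^ 2 /
      (Complex.exp (-(η + b * Complex.I)) ^ k * (1 - Complex.exp (-(η + b * Complex.I))) ^ 2) := by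
  have a1 := one_sub_pow η b (k + 1)
  have a2 := one_sub_pow η b 1
  rw [pow_one] at a2
  rw [a1, a2]
  have e1 : Complex.exp (-(((k + 1 : ℕ) : ℂ) * rho η b)) ^ 2 =
      Complex.exp (-(η + b * Complex.I)) ^ k * Complex.exp (-(((1 : ℕ) : ℂ) * rho η b)) ^ 2 := by
    unfold rho
    rw [← Complex.exp_nat_mul, ← Complex.exp_nat_mul, ← Complex.exp_nat_mul, ← Complex.exp_add]
    congr 1
    push_cast
    ring
  have n1 : Complex.exp (-(η + b * Complex.I)) ^ k ≠ 0 := pow_ne_zero _ (Complex.exp_ne_zero _)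
  have n2 : Complex.exp (-(((1 : ℕ) : ℂ) * rho η b)) ≠ 0 := Complex.exp_ne_zero _
  unfold ck
  rw [mul_pow, mul_pow, mul_pow, mul_pow, e1]
  field_simp

section
variable {h : ℕ} {α η b : ℝ}

/-- the complex form of the critical point equations gives the hinge conditions -/
theorem hinge_of_crit (hA : S_ALG) (hh : 2 ≤ h) (hC : Crit (((h + 1 : ℕ) : ℝ) / 2) α b η) :
    Hinge h η b ∧
    (1 - Complex.exp (-(η + b * Complex.I)) ^ (h + 1)) /
      (1 - Complex.exp (-(η + b * Complex.I)) ^ h) =
      (1 - Complex.exp (-(α * Complex.I))) * Complex.exp (-(η + b * Complex.I)) /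
        (1 + Complex.exp (-(η + b * Complex.I))) ∧
    (1 - Complex.exp (-(η + b * Complex.I)) ^ (h + 1)) /
      (1 - Complex.exp (-(η + b * Complex.I))) =
      (Complex.exp (-(α * Complex.I)) - 1) /
        (Complex.exp (-(α * Complex.I)) + Complex.exp (-(η + b * Complex.I))) ∧
    ck η b h = (Complex.exp (-(α * Complex.I)) - 1) ^ 2 /
      ((Complex.exp (-(α * Complex.I)) + Complex.exp (-(η + b * Complex.I))) *
        (Complex.exp (-(α * Complex.I)) + 1 / Complex.exp (-(η + b * Complex.I)))) := by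
  obtain ⟨h1, h2⟩ := hA (h + 1) α b η hC
  have hη := hC.hη
  have hb := hC.hb
  have hα := hC.hα
  have hαb := hC.hαb
  have hbb : ((h + 1 : ℕ) : ℝ) * (b / 2) < π := by
    have := hC.hbm
    linarith
  have hb' : b < π := by linarith
  have hbb1 : ((1 : ℕ) : ℝ) * (b / 2) < π := by push_cast; linarith
  have hS1 : Sk η b 1 ≠ 0 := Sk_ne hb le_rfl hbb1
  have hXn : ‖Complex.exp (-(α * Complex.I))‖ = 1 := by
    rw [← neg_mul, ← Complex.ofReal_neg, Complex.norm_exp_ofReal_mul_I]
  have hYn : ‖Complex.exp (-(η + b * Complex.I))‖ < 1 := by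
    rw [Complex.norm_exp]
    have : (-((η : ℂ) + b * Complex.I)).re = -η := by simp
    rw [this, Real.exp_lt_one_iff]
    linarith
  have hXinv : Complex.exp (-(α * Complex.I)) * Complex.exp (α * Complex.I) = 1 := by
    rw [← Complex.exp_add, neg_add_cancel, Complex.exp_zero]
  have hYinv : Complex.exp (-(η + b * Complex.I)) * Complex.exp (η + b * Complex.I) = 1 := by
    rw [← Complex.exp_add, neg_add_cancel, Complex.exp_zero]
  have hcosα : Complex.exp (-(α * Complex.I)) + Complex.exp (α * Complex.I) =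
      2 * ((Real.cos α : ℝ) : ℂ) := by
    rw [Complex.ofReal_cos, Complex.cos, neg_mul]
    ring
  have hcoshY : Complex.exp (-(η + b * Complex.I)) + Complex.exp (η + b * Complex.I) =
      2 * (((Real.cosh η * Real.cos b : ℝ) : ℂ) + ((Real.sinh η * Real.sin b : ℝ) : ℂ) * Complex.I) := by
    have e1 : Complex.cosh (η + b * Complex.I) =
        ((Real.cosh η * Real.cos b : ℝ) : ℂ) + ((Real.sinh η * Real.sin b : ℝ) : ℂ) * Complex.I := by
      rw [Complex.cosh_add, Complex.cosh_mul_I, Complex.sinh_mul_I]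
      push_cast
      ring
    rw [← e1, Complex.cosh]
    ring
  have hX1 : Complex.exp (-(α * Complex.I)) ≠ 1 := by
    intro he
    rw [he, one_mul] at hXinv
    rw [he, hXinv] at hcosα
    have : (Real.cos α : ℂ) = 1 := by linear_combination (-1 / 2 : ℂ) * hcosα
    have h3 : Real.cos α = 1 := by exact_mod_cast this
    have h4 : Real.cos α < 1 := by
      rw [← Real.cos_zero]
      exact Real.cos_lt_cos_of_nonneg_of_le_pi le_rfl (by linarith) hα
    linarith
  set X := Complex.exp (-(α * Complex.I)) with hX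
  set Y := Complex.exp (-(η + b * Complex.I)) with hY
  have hY0 : Y ≠ 0 := Complex.exp_ne_zero _
  have hX0 : X ≠ 0 := Complex.exp_ne_zero _
  have hY1 : 1 - Y ≠ 0 := by
    intro he
    have : Y = 1 := by linear_combination -he
    rw [this] at hYn
    simp at hYn
  have hY2 : 1 + Y ≠ 0 := by
    intro he
    have : Y = -1 := by linear_combination he
    rw [this] at hYn
    simp at hYn
  have hXY : X + Y ≠ 0 := by
    intro he
    have : X = -Y := by linear_combination he
    rw [this, norm_neg] at hXn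
    linarith
  have hXY1 : 1 + X * Y ≠ 0 := by
    intro he
    have : X * Y = -1 := by linear_combination he
    have h3 := congrArg norm this
    rw [norm_mul, hXn, one_mul, norm_neg, norm_one] at h3
    linarith
  have hXY2 : X + 1 / Y ≠ 0 := by
    have : X + 1 / Y = (1 + X * Y) / Y := by field_simp; ring
    rw [this]
    exact div_ne_zero hXY1 hY0
  obtain ⟨g, hg⟩ : ∃ g, h = g + 1 := ⟨h - 1, by omega⟩
  -- powers
  have pA : Y ^ (h + 1) = (1 + X * Y) / (X + Y) := by
    rw [eq_div_iff hXY]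
    exact h1
  have ph : Y ^ h = (1 + X * Y) / (Y * (X + Y)) := by
    rw [eq_div_iff (mul_ne_zero hY0 hXY), ← h1]
    ring
  have pg : Y ^ g = (1 + X * Y) / (Y ^ 2 * (X + Y)) := by
    rw [eq_div_iff (mul_ne_zero (pow_ne_zero _ hY0) hXY), ← h1, hg]
    ring
  have q1 : 1 - Y ^ (h + 1) = (X - 1) * (1 - Y) / (X + Y) := by
    rw [pA]
    field_simp
    ring
  have q2 : 1 - Y ^ h = -((1 - Y) * (1 + Y)) / (Y * (X + Y)) := by
    rw [ph]
    field_simp
    ring
  have hckh : ck η b h = (X - 1) ^ 2 / ((X + Y) * (X + 1 / Y)) := by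
    rw [ck_eq η b h hS1, ← hY, q1, ph]
    have : X + 1 / Y = (1 + X * Y) / Y := by field_simp; ring
    rw [this]
    field_simp
  have hckg : ck η b g = (1 + Y) ^ 2 / ((X + Y) * (1 + X * Y)) := by
    rw [ck_eq η b g hS1, ← hY, ← hg, q2, pg]
    field_simp
  refine ⟨⟨hh, hη, hb, hbb, ?_, ?_, ?_⟩, ?_, ?_, hckh⟩
  · -- imaginary part
    have e1 : ck η b h = (((Real.cos α - 1 : ℝ) : ℂ)) /
        (((Real.cos α + Real.cosh η * Real.cos b : ℝ) : ℂ) +
          ((Real.sinh η * Real.sin b : ℝ) : ℂ) * Complex.I) := by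
      have f1 : (X + Y) * (X + 1 / Y) = 2 * X * (((Real.cos α + Real.cosh η * Real.cos b : ℝ) : ℂ) +
          ((Real.sinh η * Real.sin b : ℝ) : ℂ) * Complex.I) := by
        have i1 : 1 / Y = Complex.exp (η + b * Complex.I) := by
          field_simp
          rw [hYinv]
        rw [i1]
        push_cast at hcosα hcoshY ⊢
        linear_combination X * hcosα + X * hcoshY + hYinv - hXinv
      have f2 : (X - 1) ^ 2 = 2 * X * ((Real.cos α - 1 : ℝ) : ℂ) := by
        push_cast at hcosα ⊢
        linear_combination X * hcosα - hXinv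
      rw [hckh, f1, f2]
      have : (2 : ℂ) * X ≠ 0 := mul_ne_zero two_ne_zero hX0
      rw [mul_div_mul_left _ _ this]
    rw [e1, Complex.div_im]
    have g1 : ((Real.cos α - 1 : ℝ) : ℂ).im = 0 := Complex.ofReal_im _
    have g2 : ((Real.cos α - 1 : ℝ) : ℂ).re = Real.cos α - 1 := Complex.ofReal_re _
    have g3 : (((Real.cos α + Real.cosh η * Real.cos b : ℝ) : ℂ) +
          ((Real.sinh η * Real.sin b : ℝ) : ℂ) * Complex.I).im = Real.sinh η * Real.sin b := by
      rw [Complex.add_im, Complex.ofReal_im, Complex.im_ofReal_mul, Complex.I_im]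
      ring
    rw [g1, g2, g3, zero_mul, zero_div, zero_sub, neg_pos]
    have h3 : 0 < Real.sinh η := Real.sinh_pos_iff.2 hη
    have h4 : 0 < Real.sin b := Real.sin_pos_of_pos_of_lt_pi hb hb'
    have h5 : Real.cos α < 1 := by
      rw [← Real.cos_zero]
      exact Real.cos_lt_cos_of_nonneg_of_le_pi le_rfl (by linarith) hα
    have h6 : 0 < Complex.normSq (((Real.cos α + Real.cosh η * Real.cos b : ℝ) : ℂ) +
          ((Real.sinh η * Real.sin b : ℝ) : ℂ) * Complex.I) := by
      rw [Complex.normSq_pos]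
      intro h7
      rw [h7] at g3
      simp only [Complex.zero_im] at g3
      have : 0 < Real.sinh η * Real.sin b := by positivity
      linarith
    apply div_neg_of_neg_of_pos _ h6
    apply mul_neg_of_neg_of_pos (by linarith)
    positivity
  · rw [hckh, norm_div, norm_pow, norm_mul, h2, norm_sub_rev X 1]
    apply div_self
    apply pow_ne_zero
    rw [norm_ne_zero_iff]
    exact sub_ne_zero.2 (Ne.symm hX1)
  · have : h - 1 = g := by omega
    rw [this, hckg]
    have e1 : 1 - ck η b h = X * ((1 + Y) ^ 2 / ((X + Y) * (1 + X * Y))) := by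
      rw [hckh]
      have i2 : X + 1 / Y = (1 + X * Y) / Y := by field_simp; ring
      rw [i2]
      field_simp
      ring
    rw [e1, norm_mul, hXn, one_mul]
  · rw [q1, q2]
    field_simp
    ring
  · rw [q1]
    field_simp

end

theorem greatest_pot (hA : S_ALG) (hT : S_TET) (hF : S_FAN) (h2 : S_ITWO) (h3 : S_ITHREE)
    {A : ℕ} (hA4 : 4 ≤ A) {α b η : ℝ} (hC : Crit ((A : ℝ) / 2) α b η) :
    IsGreatest {V : ℝ | ∃ w, IsAngle A A w ∧ volw A A w = V} (pot ((A : ℝ) / 2) α b η) := by
  obtain ⟨h, rfl⟩ : ∃ h, A = h + 1 := ⟨A - 1, by omega⟩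
  obtain ⟨H, r1, r2, r3⟩ := hinge_of_crit hA (show 2 ≤ h by omega) hC
  have hg := greatest hT H
  have hη := hC.hη
  have hb := hC.hb
  have hα := hC.hα
  have hαb := hC.hαb
  have hXn : ‖Complex.exp (-(α * Complex.I))‖ = 1 := by
    rw [← neg_mul, ← Complex.ofReal_neg, Complex.norm_exp_ofReal_mul_I]
  have hYn : ‖Complex.exp (-(η + b * Complex.I))‖ < 1 := by
    rw [Complex.norm_exp]
    have : (-((η : ℂ) + b * Complex.I)).re = -η := by simp
    rw [this, Real.exp_lt_one_iff]
    linarith
  have hYp : 0 < ‖Complex.exp (-(η + b * Complex.I))‖ := norm_pos_iff.2 (Complex.exp_ne_zero _)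
  have hX1 : Complex.exp (-(α * Complex.I)) ≠ 1 := by
    intro he
    have h5 := congrArg Complex.re he
    rw [← neg_mul, ← Complex.ofReal_neg, Complex.exp_ofReal_mul_I_re, Real.cos_neg,
      Complex.one_re] at h5
    have h4 : Real.cos α < 1 := by
      rw [← Real.cos_zero]
      exact Real.cos_lt_cos_of_nonneg_of_le_pi le_rfl (by linarith) hα
    linarith
  have hval : 4 * ∑ i ∈ Ico 1 h, Dv (ck η b i) + 2 * Dv (ck η b h) =
      pot (((h + 1 : ℕ) : ℝ) / 2) α b η := by
    have hS1 : Sk η b 1 ≠ 0 := H.ne le_rfl (by omega)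
    have hIco : Ico 1 h = Icc 1 (h - 1) := by
      ext x
      simp only [Finset.mem_Ico, Finset.mem_Icc]
      omega
    have hsum : ∑ i ∈ Ico 1 h, Dv (ck η b i) =
        Dv ((1 - Complex.exp (-(α * Complex.I))) * Complex.exp (-(η + b * Complex.I)) /
        (1 + Complex.exp (-(η + b * Complex.I)))) -
        Dv ((Complex.exp (-(α * Complex.I)) - 1) /
        (Complex.exp (-(α * Complex.I)) + Complex.exp (-(η + b * Complex.I)))) := by
      rw [hIco, Finset.sum_congr rfl (fun i _ => by rw [ck_eq η b i hS1]),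
        hF _ (h - 1) hYp hYn]
      have e1 : h - 1 + 2 = h + 1 := by omega
      have e2 : h - 1 + 1 = h := by omega
      rw [e1, e2, r1, r2]
    have i2 := h2 (Complex.exp (-(α * Complex.I))) (Complex.exp (-(η + b * Complex.I))) hXn hX1
      hYp hYn
    have i3 := h3 (((h + 1 : ℕ) : ℝ) / 2) α b η hη hα hb hαb hC.c3
    have hinv : 1 / Complex.exp (-(α * Complex.I)) = Complex.exp (α * Complex.I) := by
      rw [Complex.exp_neg, one_div, inv_inv]
    rw [hinv] at i2
    rw [hsum, r3, ← i3, ← i2]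
    ring
  rw [hval] at hg
  exact hg

end Pool.Agent.W709.VC
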