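import Pool.Agent.W709.VC.Final
import Pool.Agent.W709.VC.Geo
import Pool.Agent.W120.VC.Tet
import Pool.Agent.W505.VC.Five
import Pool.Agent.W540.VC.Itwo
import Pool.Agent.W342.VC.IThree
import Pool.Agent.W366.VC.Alg

/-! The volume conjecture for `C(A,A)`, `A ≥ 4`. -/

set_option autoImplicit false

namespace Pool.Agent.W709.VC

open Filter Finset EvenVol Pool.Agent.H112R4.VL
open scoped Real Topology

/-- the critical value of the potential is the maximal volume of an angle structure -/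
theorem s_greatest {A : ℕ} (hA : 4 ≤ A) {α b η : ℝ} (hC : Crit ((A : ℝ) / 2) α b η) :
    IsGreatest {V : ℝ | ∃ w, IsAngle A A w ∧ volw A A w = V} (pot ((A : ℝ) / 2) α b η) :=
  greatest_pot Pool.Agent.W366.VC.alg Pool.Agent.W120.VC.tet
    (Pool.Agent.W505.VC.fan Pool.Agent.W505.VC.dsym Pool.Agent.W505.VC.five)
    (Pool.Agent.W540.VC.itwo Pool.Agent.W505.VC.dsym Pool.Agent.W505.VC.five)
    Pool.Agent.W342.VC.ithree hA hC

/-- volume conjecture for the double twist knots and links -/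
theorem main {A : ℕ} (hA : 4 ≤ A) : ∃ (κ : ℕ → ℂ) (V : ℝ),
    (∀ N : ℕ, 2 ≤ N → Tendsto (JD (A : ℤ) (-(A : ℤ)) N) (𝓝[≠] (v0 N)) (𝓝 (κ N))) ∧
    IsGreatest {W : ℝ | ∃ w, IsAngle A A w ∧ volw A A w = W} V ∧
    Tendsto (fun N : ℕ => 2 * π * (Real.log ‖κ N‖ / N)) atTop (𝓝 V) := by
  obtain ⟨α, b, η, hC⟩ := Pool.Agent.W704.VC.Crit.crit ((A : ℝ) / 2) (by
    have : (4 : ℝ) ≤ A := by exact_mod_cast hA
    linarith)
  refine ⟨fun N => ((kap A N : ℝ) : ℂ), _, fun N hN => jd_limit s_gam A hN, s_greatest hA hC, ?_⟩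
  refine (growth hA hC).congr (fun N => ?_)
  have h4 : ‖((kap A N : ℝ) : ℂ)‖ = kap A N := by
    rw [Complex.norm_real, Real.norm_eq_abs, abs_of_nonneg]
    exact Finset.sum_nonneg (fun n _ => by positivity)
  rw [h4]
  ring

end Pool.Agent.W709.VC
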