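import Pool.Agent.W709.VC.JLim

/-! Pointwise bounds for the integrand off the real axis. -/

set_option autoImplicit false

namespace Pool.Agent.W709.VC

open Filter Finset EvenVol Pool.Agent.H112R4.VL
open scoped Real Topology

lemma RR_ne {N d : ℕ} {ψ : ℂ} (h : ψ.im ≠ 0) : RR N d ψ ≠ 0 := by
  unfold RR
  rw [Finset.prod_ne_zero_iff]
  intro j _ h0
  have h1 : Complex.cos ψ = Complex.cos (((phi N j : ℝ) : ℂ) + π) := by
    rw [Complex.cos_add_pi, ← Complex.ofReal_cos]
    linear_combination (-1 / 2) * h0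
  rw [Complex.cos_eq_cos_iff] at h1
  obtain ⟨k, hk⟩ := h1
  apply h
  rcases hk with hk | hk
  · have := congrArg Complex.im hk
    simp at this
    exact this.symm
  · have := congrArg Complex.im hk
    simp at this
    exact this

lemma norm_expo (A N : ℕ) (b η : ℝ) :
    ‖Complex.exp (Complex.I * A * N * (-b + η * Complex.I) ^ 2 / (4 * π))‖ =
      Real.exp (A * N * b * η / (2 * π)) := by
  rw [Complex.norm_exp]
  congr 1
  have hpi : (π : ℝ) ≠ 0 := Real.pi_ne_zero
  have h1 : Complex.I * A * N * (-b + η * Complex.I) ^ 2 / (4 * π) =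
      ((A * N * b * η / (2 * π) : ℝ) : ℂ) + ((A * N * (b ^ 2 - η ^ 2) / (4 * π) : ℝ) : ℂ) * Complex.I := by
    have hpc : (π : ℂ) ≠ 0 := by exact_mod_cast hpi
    have hI : Complex.I ^ 2 = -1 := Complex.I_sq
    have hI3 : Complex.I ^ 3 = -Complex.I := by rw [pow_succ, hI]; ring
    push_cast
    field_simp
    ring_nf
    rw [hI3, hI]
    ring
  rw [h1, Complex.add_re, Complex.re_ofReal_mul, Complex.I_re, Complex.ofReal_re]
  ring

lemma norm_two_sin (b η : ℝ) (_hη : 0 < η) :
    2 * Real.sinh η ≤ ‖2 * Complex.sin (-b + η * Complex.I)‖ ∧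
      ‖2 * Complex.sin (-b + η * Complex.I)‖ ≤ 2 * Real.cosh η := by
  have h1 : 2 * Complex.sin (-b + η * Complex.I) =
      (Complex.exp (-(-b + η * Complex.I) * Complex.I) -
        Complex.exp ((-b + η * Complex.I) * Complex.I)) * Complex.I := by
    rw [Complex.sin]
    ring
  have n1 : ‖Complex.exp (-(-b + η * Complex.I) * Complex.I)‖ = Real.exp η := by
    rw [Complex.norm_exp]
    congr 1
    simp
  have n2 : ‖Complex.exp ((-b + η * Complex.I) * Complex.I)‖ = Real.exp (-η) := by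
    rw [Complex.norm_exp]
    congr 1
    simp
  rw [h1, norm_mul, Complex.norm_I, mul_one]
  constructor
  · have := norm_sub_norm_le (Complex.exp (-(-b + η * Complex.I) * Complex.I))
      (Complex.exp ((-b + η * Complex.I) * Complex.I))
    rw [n1, n2] at this
    rw [Real.sinh_eq]
    linarith
  · have := norm_sub_le (Complex.exp (-(-b + η * Complex.I) * Complex.I))
      (Complex.exp ((-b + η * Complex.I) * Complex.I))
    rw [n1, n2] at this
    rw [Real.cosh_eq]
    linarith

lemma norm_four_cos (N : ℕ) (b η : ℝ) (hN : 0 < N) (hη : 0 < η) :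
    Real.exp (N * η) * (1 - Real.exp (-(N * η))) ^ 2 ≤
      ‖4 * Complex.cos (N * (-b + η * Complex.I + π) / 2) ^ 2‖ ∧
    ‖4 * Complex.cos (N * (-b + η * Complex.I + π) / 2) ^ 2‖ ≤ Real.exp (N * η) * 4 := by
  have hN' : (0 : ℝ) < N := by exact_mod_cast hN
  set z : ℂ := N * (-b + η * Complex.I + π) / 2 with hz
  have h1 : 4 * Complex.cos z ^ 2 =
      (Complex.exp (-z * Complex.I) + Complex.exp (z * Complex.I)) ^ 2 := by
    rw [Complex.cos]
    ring
  have him : z.im = N * η / 2 := by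
    rw [hz]
    simp
  have n1 : ‖Complex.exp (-z * Complex.I)‖ = Real.exp (N * η / 2) := by
    rw [Complex.norm_exp]
    congr 1
    simp [him]
  have n2 : ‖Complex.exp (z * Complex.I)‖ = Real.exp (-(N * η / 2)) := by
    rw [Complex.norm_exp]
    congr 1
    simp [him]
  have e1 : Real.exp (N * η) = Real.exp (N * η / 2) ^ 2 := by
    rw [← Real.exp_nat_mul]
    congr 1
    push_cast
    ring
  have e2 : Real.exp (-(N * η)) = Real.exp (-(N * η / 2)) ^ 2 := by
    rw [← Real.exp_nat_mul]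
    congr 1
    push_cast
    ring
  have e3 : Real.exp (N * η / 2) * Real.exp (-(N * η / 2)) = 1 := by
    rw [← Real.exp_add]; simp
  rw [h1, norm_pow]
  set x := Real.exp (N * η / 2)
  set y := Real.exp (-(N * η / 2))
  have hx : 0 < x := Real.exp_pos _
  have hy : 0 < y := Real.exp_pos _
  have hyx : y ≤ x := by
    apply Real.exp_le_exp.2
    have : 0 < N * η := by positivity
    linarith
  constructor
  · have h2 : x - y ≤ ‖Complex.exp (-z * Complex.I) + Complex.exp (z * Complex.I)‖ := by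
      have h3 := norm_sub_norm_le (Complex.exp (-z * Complex.I)) (-Complex.exp (z * Complex.I))
      rw [norm_neg, n1, n2, sub_neg_eq_add] at h3
      exact h3
    have h4 : Real.exp (N * η) * (1 - Real.exp (-(N * η))) ^ 2 = (x - y) ^ 2 := by
      rw [e1, e2]
      have : x ^ 2 * (1 - y ^ 2) ^ 2 = (x - (x * y) * y) ^ 2 := by ring
      rw [this, e3]
      ring
    rw [h4]
    exact pow_le_pow_left₀ (by linarith) h2 2
  · have h2 : ‖Complex.exp (-z * Complex.I) + Complex.exp (z * Complex.I)‖ ≤ x + y := by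
      have h3 := norm_add_le (Complex.exp (-z * Complex.I)) (Complex.exp (z * Complex.I))
      rw [n1, n2] at h3
      exact h3
    rw [e1]
    calc _ ≤ (x + y) ^ 2 := pow_le_pow_left₀ (norm_nonneg _) h2 2
      _ ≤ (2 * x) ^ 2 := pow_le_pow_left₀ (by positivity) (by linarith) 2
      _ = x ^ 2 * 4 := by ring

lemma cosNe {N : ℕ} (hN : 0 < N) {b η : ℝ} (hη : 0 < η) :
    4 * Complex.cos (N * (-b + η * Complex.I + π) / 2) ^ 2 ≠ 0 := by
  have hN' : (0 : ℝ) < N := by exact_mod_cast hN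
  have h := (norm_four_cos N b η hN hη).1
  intro h0
  rw [h0, norm_zero] at h
  have h1 : Real.exp (-(N * η)) < 1 := by
    rw [Real.exp_lt_one_iff]
    have : 0 < N * η := by positivity
    linarith
  have h2 : 0 < Real.exp (N * η) * (1 - Real.exp (-(N * η))) ^ 2 := by
    apply mul_pos (Real.exp_pos _)
    apply pow_pos
    linarith
  linarith

lemma sinNe {b η : ℝ} (hη : 0 < η) : 2 * Complex.sin (-b + η * Complex.I) ≠ 0 := by
  have h := (norm_two_sin b η hη).1
  intro h0
  rw [h0, norm_zero] at h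
  have : 0 < Real.sinh η := Real.sinh_pos_iff.2 hη
  linarith

lemma Fint_ne (A : ℕ) {N d : ℕ} (hN : 0 < N) {b η : ℝ} (hη : 0 < η) :
    Fint A N d (-b + η * Complex.I) ≠ 0 := by
  unfold Fint
  apply div_ne_zero
  · apply mul_ne_zero
    · apply mul_ne_zero (Complex.exp_ne_zero _)
      apply RR_ne
      simp
      exact hη.ne'
    · exact sinNe hη
  · exact cosNe hN hη

/-- pointwise estimate with bounded error -/
lemma pbf (hRS : S_RS) (A : ℕ) {h H : ℝ} (hh : 0 < h) :
    ∃ C : ℝ, 0 ≤ C ∧ ∀ N d : ℕ, 0 < N → d ≤ N → ∀ b η : ℝ, h ≤ η → η ≤ H →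
      |Real.log ‖Fint A N d (-b + η * Complex.I)‖ - N / (4 * π) * (4 * ((A : ℝ) / 2 * b - π) * η +
        (Lf η (b + 2 * π * d / N) - Lf η (b - 2 * π * d / N)))| ≤ C := by
  obtain ⟨C0, hC0⟩ := hRS h hh
  set C1 := |Real.log (2 * Real.sinh h)| + |Real.log (2 * Real.cosh H)| with hC1
  set C2 := Real.log 4 + |2 * Real.log (1 - Real.exp (-h))| with hC2
  refine ⟨|C0| + C1 + C2, by positivity, ?_⟩
  intro N d hN hd b η h1 h2
  have hη : 0 < η := lt_of_lt_of_le hh h1
  have hN' : (0 : ℝ) < N := by exact_mod_cast hN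
  have hN1 : (1 : ℝ) ≤ N := by exact_mod_cast hN
  have hRRne : RR N d (-b + η * Complex.I) ≠ 0 := by
    apply RR_ne
    simp
    exact hη.ne'
  have hsin := norm_two_sin b η hη
  have hcos := norm_four_cos N b η hN hη
  have hsne := sinNe (b := b) hη
  have hcne := cosNe (b := b) hN hη
  have hlog : Real.log ‖Fint A N d (-b + η * Complex.I)‖ =
      A * N * b * η / (2 * π) + Real.log ‖RR N d (-b + η * Complex.I)‖ +
        Real.log ‖2 * Complex.sin (-b + η * Complex.I)‖ -
        Real.log ‖4 * Complex.cos (N * (-b + η * Complex.I + π) / 2) ^ 2‖ := by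
    unfold Fint
    rw [norm_div, norm_mul, norm_mul, norm_expo]
    rw [Real.log_div (mul_ne_zero (mul_ne_zero (Real.exp_ne_zero _) (norm_ne_zero_iff.2 hRRne))
      (norm_ne_zero_iff.2 hsne)) (norm_ne_zero_iff.2 hcne),
      Real.log_mul (mul_ne_zero (Real.exp_ne_zero _) (norm_ne_zero_iff.2 hRRne))
        (norm_ne_zero_iff.2 hsne),
      Real.log_mul (Real.exp_ne_zero _) (norm_ne_zero_iff.2 hRRne), Real.log_exp]
  have hRR := hC0 N d hN hd b η h1
  -- sine
  have hsh : 0 < 2 * Real.sinh h := by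
    have := Real.sinh_pos_iff.2 hh
    linarith
  have hs1 : Real.log (2 * Real.sinh h) ≤ Real.log ‖2 * Complex.sin (-b + η * Complex.I)‖ := by
    apply Real.log_le_log hsh
    have : Real.sinh h ≤ Real.sinh η := Real.sinh_le_sinh.2 h1
    linarith [hsin.1]
  have hs2 : Real.log ‖2 * Complex.sin (-b + η * Complex.I)‖ ≤ Real.log (2 * Real.cosh H) := by
    apply Real.log_le_log (norm_pos_iff.2 hsne)
    have : Real.cosh η ≤ Real.cosh H := by
      apply Real.cosh_le_cosh.2
      rw [abs_of_pos hη, abs_of_pos (lt_of_lt_of_le hη h2)]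
      exact h2
    linarith [hsin.2]
  have hs3 : |Real.log ‖2 * Complex.sin (-b + η * Complex.I)‖| ≤ C1 := by
    rw [abs_le]
    constructor
    · have := neg_abs_le (Real.log (2 * Real.sinh h))
      have := abs_nonneg (Real.log (2 * Real.cosh H))
      linarith
    · have := le_abs_self (Real.log (2 * Real.cosh H))
      have := abs_nonneg (Real.log (2 * Real.sinh h))
      linarith
  -- cosine
  have hNη : h ≤ N * η := by nlinarith
  have he1 : Real.exp (-h) < 1 := by
    rw [Real.exp_lt_one_iff]; linarith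
  have he2 : Real.exp (-(N * η)) ≤ Real.exp (-h) := Real.exp_le_exp.2 (by linarith)
  have hc1 : N * η + 2 * Real.log (1 - Real.exp (-h)) ≤
      Real.log ‖4 * Complex.cos (N * (-b + η * Complex.I + π) / 2) ^ 2‖ := by
    have h3 : N * η + 2 * Real.log (1 - Real.exp (-h)) =
        Real.log (Real.exp (N * η) * (1 - Real.exp (-h)) ^ 2) := by
      rw [Real.log_mul (Real.exp_ne_zero _) (pow_ne_zero _ (by linarith)), Real.log_exp,
        Real.log_pow]
      push_cast
      ring
    rw [h3]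
    apply Real.log_le_log
    · apply mul_pos (Real.exp_pos _)
      apply pow_pos
      linarith
    · refine le_trans ?_ hcos.1
      apply mul_le_mul_of_nonneg_left _ (Real.exp_pos _).le
      apply pow_le_pow_left₀ (by linarith)
      linarith
  have hc2 : Real.log ‖4 * Complex.cos (N * (-b + η * Complex.I + π) / 2) ^ 2‖ ≤
      N * η + Real.log 4 := by
    have h3 : N * η + Real.log 4 = Real.log (Real.exp (N * η) * 4) := by
      rw [Real.log_mul (Real.exp_ne_zero _) (by norm_num), Real.log_exp]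
    rw [h3]
    exact Real.log_le_log (norm_pos_iff.2 hcne) hcos.2
  have hc3 : |Real.log ‖4 * Complex.cos (N * (-b + η * Complex.I + π) / 2) ^ 2‖ - N * η| ≤ C2 := by
    have hl4 : 0 ≤ Real.log 4 := Real.log_nonneg (by norm_num)
    rw [abs_le]
    constructor
    · have := neg_abs_le (2 * Real.log (1 - Real.exp (-h)))
      linarith
    · have := abs_nonneg (2 * Real.log (1 - Real.exp (-h)))
      linarith
  rw [hlog]
  have hpi : (π : ℝ) ≠ 0 := Real.pi_ne_zero
  have hid : A * N * b * η / (2 * π) + Real.log ‖RR N d (-b + η * Complex.I)‖ +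
        Real.log ‖2 * Complex.sin (-b + η * Complex.I)‖ -
        Real.log ‖4 * Complex.cos (N * (-b + η * Complex.I + π) / 2) ^ 2‖ -
      N / (4 * π) * (4 * ((A : ℝ) / 2 * b - π) * η +
        (Lf η (b + 2 * π * d / N) - Lf η (b - 2 * π * d / N))) =
      (Real.log ‖RR N d (-b + η * Complex.I)‖ -
        N / (4 * π) * (Lf η (b + 2 * π * d / N) - Lf η (b - 2 * π * d / N))) +
      Real.log ‖2 * Complex.sin (-b + η * Complex.I)‖ -
      (Real.log ‖4 * Complex.cos (N * (-b + η * Complex.I + π) / 2) ^ 2‖ - N * η) := by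
    field_simp
    ring
  rw [hid]
  have t1 := abs_add_le ((Real.log ‖RR N d (-b + η * Complex.I)‖ -
        N / (4 * π) * (Lf η (b + 2 * π * d / N) - Lf η (b - 2 * π * d / N))) +
      Real.log ‖2 * Complex.sin (-b + η * Complex.I)‖)
      (-(Real.log ‖4 * Complex.cos (N * (-b + η * Complex.I + π) / 2) ^ 2‖ - N * η))
  have t2 := abs_add_le (Real.log ‖RR N d (-b + η * Complex.I)‖ -
        N / (4 * π) * (Lf η (b + 2 * π * d / N) - Lf η (b - 2 * π * d / N)))
      (Real.log ‖2 * Complex.sin (-b + η * Complex.I)‖)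
  rw [← sub_eq_add_neg, abs_neg] at t1
  have t3 := le_abs_self C0
  linarith

/-- pointwise estimate, exponential accuracy -/
lemma pb (hRS : S_RS) (hB : S_BRF) (A : ℕ) {h H ε : ℝ} (hh : 0 < h) (hε : 0 < ε) :
    ∀ᶠ N : ℕ in atTop, ∀ n d : ℕ, n + d + 1 = N → ∀ b η : ℝ, h ≤ η → η ≤ H →
      |2 * Real.log ‖brf (v0 N) n‖ + Real.log ‖Fint A N d (-b + η * Complex.I)‖ -
        N / (4 * π) * pot ((A : ℝ) / 2) (2 * π * d / N) b η| ≤ ε * N := by
  obtain ⟨C, hC0, hC⟩ := pbf hRS A (h := h) (H := H) hh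
  have h1 := hB (ε / 4) (by positivity)
  have h2 : ∀ᶠ N : ℕ in atTop, C ≤ ε / 2 * N := by
    have : Tendsto (fun N : ℕ => ε / 2 * (N : ℝ)) atTop atTop :=
      Tendsto.const_mul_atTop (by positivity) tendsto_natCast_atTop_atTop
    exact this.eventually_ge_atTop C
  filter_upwards [h1, h2, eventually_gt_atTop 0] with N hb hCN hN n d hnd b η g1 g2
  have k1 := hb n d hnd
  have k2 := hC N d hN (by omega) b η g1 g2
  have hN' : (0 : ℝ) < N := by exact_mod_cast hN
  have hpi : (π : ℝ) ≠ 0 := Real.pi_ne_zero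
  have hid : 2 * Real.log ‖brf (v0 N) n‖ + Real.log ‖Fint A N d (-b + η * Complex.I)‖ -
        N / (4 * π) * pot ((A : ℝ) / 2) (2 * π * d / N) b η =
      2 * (Real.log ‖brf (v0 N) n‖ - N / π * GapVol.lob (π * d / N)) +
      (Real.log ‖Fint A N d (-b + η * Complex.I)‖ - N / (4 * π) * (4 * ((A : ℝ) / 2 * b - π) * η +
        (Lf η (b + 2 * π * d / N) - Lf η (b - 2 * π * d / N)))) := by
    unfold pot
    have : 2 * π * d / N / 2 = π * d / N := by ring
    rw [this]
    field_simp
    ring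
  rw [hid]
  have t1 := abs_add_le (2 * (Real.log ‖brf (v0 N) n‖ - N / π * GapVol.lob (π * d / N)))
    (Real.log ‖Fint A N d (-b + η * Complex.I)‖ - N / (4 * π) * (4 * ((A : ℝ) / 2 * b - π) * η +
        (Lf η (b + 2 * π * d / N) - Lf η (b - 2 * π * d / N))))
  rw [abs_mul, abs_of_pos (by norm_num : (0 : ℝ) < 2)] at t1
  linarith

/-- upper bound form -/
lemma pb_le (hRS : S_RS) (hB : S_BRF) (A : ℕ) {h H ε : ℝ} (hh : 0 < h) (hε : 0 < ε) :
    ∀ᶠ N : ℕ in atTop, ∀ n d : ℕ, n + d + 1 = N → ∀ b η : ℝ, h ≤ η → η ≤ H →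
      ‖brf (v0 N) n‖ ^ 2 * ‖Fint A N d (-b + η * Complex.I)‖ ≤
        Real.exp (N / (4 * π) * pot ((A : ℝ) / 2) (2 * π * d / N) b η + ε * N) := by
  filter_upwards [pb hRS hB A (h := h) (H := H) hh hε, eventually_ge_atTop 2] with N hN hN2 n d hnd b η g1 g2
  have h1 := (abs_le.1 (hN n d hnd b η g1 g2)).2
  have hb : brf (v0 N) n ≠ 0 := TE.brf_ne hN2 _ (by omega)
  have hF := Fint_ne A (N := N) (d := d) (by omega) (b := b) (lt_of_lt_of_le hh g1)
  rw [← Real.log_le_iff_le_exp (by positivity), Real.log_mul (by positivity) (by positivity),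
    Real.log_pow]
  push_cast
  linarith

lemma pb_ge (hRS : S_RS) (hB : S_BRF) (A : ℕ) {h H ε : ℝ} (hh : 0 < h) (hε : 0 < ε) :
    ∀ᶠ N : ℕ in atTop, ∀ n d : ℕ, n + d + 1 = N → ∀ b η : ℝ, h ≤ η → η ≤ H →
      Real.exp (N / (4 * π) * pot ((A : ℝ) / 2) (2 * π * d / N) b η - ε * N) ≤
      ‖brf (v0 N) n‖ ^ 2 * ‖Fint A N d (-b + η * Complex.I)‖ := by
  filter_upwards [pb hRS hB A (h := h) (H := H) hh hε, eventually_ge_atTop 2] with N hN hN2 n d hnd b η g1 g2
  have h1 := (abs_le.1 (hN n d hnd b η g1 g2)).1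
  have hb : brf (v0 N) n ≠ 0 := TE.brf_ne hN2 _ (by omega)
  have hF := Fint_ne A (N := N) (d := d) (by omega) (b := b) (lt_of_lt_of_le hh g1)
  rw [← Real.le_log_iff_exp_le (by positivity), Real.log_mul (by positivity) (by positivity),
    Real.log_pow]
  push_cast
  linarith

end Pool.Agent.W709.VC
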