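import Pool.Agent.W709.VC.Gam2

/-! The limit of the twist coefficient. -/

set_option autoImplicit false

namespace Pool.Agent.W709.VC

open Filter Finset EvenVol Pool.Agent.H112R4.VL
open scoped Real Topology

lemma expN {N : ℕ} (hN : 0 < N) : (Complex.exp (π * Complex.I / N)) ^ N = -1 := by
  have hN0 : (N : ℂ) ≠ 0 := by exact_mod_cast hN.ne'
  rw [← Complex.exp_nat_mul]
  have : (N : ℂ) * (π * Complex.I / N) = π * Complex.I := by field_simp
  rw [this, Complex.exp_pi_mul_I]

lemma prod_root {N : ℕ} (hN : 0 < N) {ζ α w : ℂ} (hζ : IsPrimitiveRoot ζ N) (hα : α ^ N = -1) :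
    ∏ j ∈ range N, (w - ζ ^ j * α) = w ^ N + 1 := by
  have h := X_pow_sub_C_eq_prod hζ hN hα
  have h2 := congrArg (Polynomial.eval w) h
  rw [Polynomial.eval_prod] at h2
  simp only [Polynomial.eval_sub, Polynomial.eval_pow, Polynomial.eval_X, Polynomial.eval_C,
    sub_neg_eq_add] at h2
  exact h2.symm

lemma prod_phi {N : ℕ} (hN : 0 < N) (ψ : ℂ) :
    RR N N ψ = 4 * Complex.cos (N * (ψ + π) / 2) ^ 2 := by
  have hN0 : (N : ℂ) ≠ 0 := by exact_mod_cast hN.ne'
  set ζ := Complex.exp (2 * π * Complex.I / N) with hζd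
  set α := Complex.exp (π * Complex.I / N) with hαd
  set w := Complex.exp (Complex.I * (ψ + π)) with hwd
  have hζ : IsPrimitiveRoot ζ N := Complex.isPrimitiveRoot_exp N hN.ne'
  have hα : α ^ N = -1 := expN hN
  have hα' : (α⁻¹) ^ N = -1 := by rw [inv_pow, hα]; norm_num
  have hw : w ≠ 0 := Complex.exp_ne_zero _
  have p1 := prod_root (w := w) hN hζ hα
  have p2 := prod_root (w := w) hN hζ.inv hα'
  have hfac : ∀ j ∈ range N, (-2 * Complex.cos ψ - 2 * (Real.cos (phi N j) : ℂ)) =
      (w - ζ ^ j * α) * (w - ζ⁻¹ ^ j * α⁻¹) * w⁻¹ := by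
    intro j _
    have e1 : ζ ^ j * α = Complex.exp (Complex.I * (phi N j : ℝ)) := by
      rw [hζd, hαd, ← Complex.exp_nat_mul, ← Complex.exp_add]
      congr 1
      unfold phi
      push_cast
      field_simp
    have e2 : ζ⁻¹ ^ j * α⁻¹ = Complex.exp (-(Complex.I * (phi N j : ℝ))) := by
      rw [inv_pow, ← mul_inv, e1, Complex.exp_neg]
    have e3 : (Real.cos (phi N j) : ℂ) =
        (Complex.exp (Complex.I * (phi N j : ℝ)) + Complex.exp (-(Complex.I * (phi N j : ℝ)))) / 2 := by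
      rw [Complex.ofReal_cos, Complex.cos]
      congr 2
      · congr 1; ring
      · congr 1; ring
    have e4 : -2 * Complex.cos ψ = w + w⁻¹ := by
      have : Complex.cos ψ = -Complex.cos (ψ + π) := by rw [Complex.cos_add_pi]; ring
      rw [this, hwd, ← Complex.exp_neg, Complex.cos]
      have : (ψ + π) * Complex.I = Complex.I * (ψ + π) := by ring
      rw [this, show -(ψ + π) * Complex.I = -(Complex.I * (ψ + π)) by ring]
      ring
    rw [e3, e4, e1, e2]
    have hm : Complex.exp (Complex.I * (phi N j : ℝ)) * Complex.exp (-(Complex.I * (phi N j : ℝ))) = 1 := by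
      rw [← Complex.exp_add]; simp
    have hww : w * w⁻¹ = 1 := mul_inv_cancel₀ hw
    linear_combination (-w⁻¹) * hm +
      (Complex.exp (Complex.I * (phi N j : ℝ)) + Complex.exp (-(Complex.I * (phi N j : ℝ))) - w) * hww
  unfold RR
  rw [Finset.prod_congr rfl hfac, Finset.prod_mul_distrib, Finset.prod_mul_distrib, p1, p2,
    Finset.prod_const, Finset.card_range]
  set y := Complex.exp (Complex.I * (N * (ψ + π) / 2)) with hy
  have hy0 : y ≠ 0 := Complex.exp_ne_zero _
  have hwN : w ^ N = y ^ 2 := by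
    rw [hwd, hy, ← Complex.exp_nat_mul, ← Complex.exp_nat_mul]
    congr 1
    push_cast
    ring
  have hc : Complex.cos (N * (ψ + π) / 2) = (y + y⁻¹) / 2 := by
    rw [hy, ← Complex.exp_neg, Complex.cos]
    congr 2
    · congr 1; ring
    · congr 1; ring
  rw [inv_pow, hwN, hc]
  field_simp
  ring

lemma phi_reflect {N j : ℕ} (hj : j < N) :
    Real.cos (phi N (N - 1 - j)) = Real.cos (phi N j) := by
  have hN0 : (N : ℝ) ≠ 0 := by
    have : N ≠ 0 := by omega
    exact_mod_cast this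
  have : phi N (N - 1 - j) = 2 * π - phi N j := by
    unfold phi
    have h1 : ((N - 1 - j : ℕ) : ℝ) = N - 1 - j := by
      rw [Nat.cast_sub (by omega), Nat.cast_sub (by omega)]
      simp
    rw [h1]
    field_simp
    ring
  rw [this, Real.cos_two_pi_sub]

lemma RR_split {N n : ℕ} (hn : n < N) (ψ : ℂ) :
    RR N N ψ = RR N (n + 1) ψ * RR N (N - 1 - n) ψ := by
  unfold RR
  obtain ⟨d, hd⟩ : ∃ d, N = n + 1 + d := ⟨N - (n + 1), by omega⟩
  have h1 : range N = range (n + 1 + d) := by rw [← hd]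
  rw [h1, Finset.prod_range_add, show N - 1 - n = d by omega]
  congr 1
  rw [← Finset.prod_range_reflect]
  apply Finset.prod_congr rfl
  intro j hj
  rw [Finset.mem_range] at hj
  have h2 : n + 1 + (d - 1 - j) = N - 1 - j := by omega
  rw [h2, phi_reflect (by omega)]

lemma phi_mem {N j : ℕ} (hj : j < N) : 0 < phi N j ∧ phi N j < 2 * π := by
  have hN0 : (0 : ℝ) < N := by
    have : 0 < N := by omega
    exact_mod_cast this
  have hj' : (j : ℝ) + 1 ≤ N := by exact_mod_cast hj
  unfold phi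
  have hp := Real.pi_pos
  constructor
  · positivity
  · rw [div_lt_iff₀ hN0]
    nlinarith

/-- identification with `Fint` -/
lemma rect_Fint (A : ℕ) {N n : ℕ} (hn : n < N) {h : ℝ} (hh : 0 < h) :
    rect (fun φ => PP A N (1, 1) φ / QQ N n (1, 1) φ) 0 (2 * π) (-h) h =
      rect (Fint A N (N - 1 - n)) (-π) π (-h) h := by
  have hN : 0 < N := by omega
  have hN0 : (N : ℂ) ≠ 0 := by exact_mod_cast hN.ne'
  have hs := rect_shift (fun φ => PP A N (1, 1) φ / QQ N n (1, 1) φ) (-π) π (-h) h π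
  have e0 : -π + π = 0 := by ring
  have e1 : π + π = 2 * π := by ring
  rw [e0, e1] at hs
  rw [← hs]
  apply rect_congr
  intro ψ hψ
  have hφ : ψ + π ∈ Bd 0 (2 * π) (-h) h := by
    rcases hψ with ⟨x, hx, hz⟩ | ⟨x, hx, hz⟩ | ⟨y, hy, hz⟩ | ⟨y, hy, hz⟩
    · refine Or.inl ⟨x + π, ?_, ?_⟩
      · rw [Set.uIcc_of_le (by linarith [Real.pi_pos])] at hx ⊢
        constructor <;> linarith [hx.1, hx.2]
      · rw [hz]; push_cast; ring
    · refine Or.inr (Or.inl ⟨x + π, ?_, ?_⟩)
      · rw [Set.uIcc_of_le (by linarith [Real.pi_pos])] at hx ⊢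
        constructor <;> linarith [hx.1, hx.2]
      · rw [hz]; push_cast; ring
    · refine Or.inr (Or.inr (Or.inl ⟨y, hy, ?_⟩))
      rw [hz]; push_cast; ring
    · refine Or.inr (Or.inr (Or.inr ⟨y, hy, ?_⟩))
      rw [hz]; push_cast; ring
  have hnz : ∀ j, j < N → Complex.cos (ψ + π) ≠ Complex.cos ((phi N j : ℝ) : ℂ) := by
    intro j hj
    have h1 := phi_mem hj
    exact bd_ne (z := ((phi N j : ℝ) : ℂ)) (by simpa using h1.1) (by simpa using h1.2)
      (by simpa using hh) hφ
  have hRne : ∀ d, d ≤ N → RR N d ψ ≠ 0 := by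
    intro d hd
    unfold RR
    rw [Finset.prod_ne_zero_iff]
    intro j hj
    rw [Finset.mem_range] at hj
    intro h0
    apply hnz j (by omega)
    rw [Complex.cos_add_pi, ← Complex.ofReal_cos]
    linear_combination (1 / 2) * h0
  have hz : ∀ j : ℕ, zz N 1 j = ((phi N j : ℝ) : ℂ) := by
    intro j
    unfold zz phi
    push_cast
    ring
  have hQ : QQ N n (1, 1) (ψ + π) = RR N (n + 1) ψ := by
    unfold QQ RR
    apply Finset.prod_congr rfl
    intro j _
    show 2 * Complex.cos (ψ + π) - 2 * Complex.cos (zz N 1 j) = _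
    rw [hz, Complex.cos_add_pi, Complex.ofReal_cos]
    ring
  have hP : PP A N (1, 1) (ψ + π) =
      Complex.exp (Complex.I * A * N * ψ ^ 2 / (4 * π)) * (2 * Complex.sin ψ) := by
    unfold PP EE
    show Complex.exp (Complex.I * N * (ψ + π - π) ^ 2 * 1 / (4 * π)) ^ A * (-2 * Complex.sin (ψ + π)) = _
    rw [Complex.sin_add_pi, ← Complex.exp_nat_mul]
    have e3 : (A : ℂ) * (Complex.I * N * (ψ + π - π) ^ 2 * 1 / (4 * π)) =
        Complex.I * A * N * ψ ^ 2 / (4 * π) := by ring
    rw [e3]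
    ring
  show PP A N (1, 1) (ψ + π) / QQ N n (1, 1) (ψ + π) = _
  rw [hQ, hP]
  unfold Fint
  rw [← prod_phi hN ψ, RR_split hn ψ]
  have h1 := hRne (n + 1) (by omega)
  have h2 := hRne (N - 1 - n) (by omega)
  field_simp

/-- the parameter -/
noncomputable def sv (N : ℕ) (v : ℂ) : ℂ := N * Complex.log v / (π * Complex.I)

lemma sv_v0 {N : ℕ} (hN : 2 ≤ N) : sv N (v0 N) = 1 := by
  have hN0 : (N : ℂ) ≠ 0 := by
    have : N ≠ 0 := by omega
    exact_mod_cast this
  have hN1 : (2 : ℝ) ≤ N := by exact_mod_cast hN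
  unfold sv v0
  have him : (π * Complex.I / N : ℂ) = ((π / N : ℝ) : ℂ) * Complex.I := by
    push_cast
    ring
  have him2 : (π * Complex.I / N : ℂ).im = π / N := by
    rw [him]
    simp
  rw [Complex.log_exp]
  · have hpi : (π : ℂ) ≠ 0 := by exact_mod_cast Real.pi_ne_zero
    have hI : Complex.I ≠ 0 := Complex.I_ne_zero
    field_simp
  · rw [him2]
    have : 0 < π / N := by positivity
    linarith [Real.pi_pos]
  · rw [him2]
    apply div_le_self Real.pi_pos.le
    linarith

lemma v0_slit {N : ℕ} (hN : 2 ≤ N) : v0 N ∈ Complex.slitPlane := by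
  have hN1 : (2 : ℝ) ≤ N := by exact_mod_cast hN
  have hNp : (0 : ℝ) < N := by linarith
  rw [Complex.mem_slitPlane_iff]
  right
  unfold v0
  have him : (π * Complex.I / N : ℂ) = ((π / N : ℝ) : ℂ) * Complex.I := by
    push_cast
    ring
  rw [him, Complex.exp_ofReal_mul_I_im]
  apply ne_of_gt
  apply Real.sin_pos_of_pos_of_lt_pi
  · positivity
  · rw [div_lt_iff₀ hNp]
    nlinarith [Real.pi_pos]

lemma sv_cont {N : ℕ} (hN : 2 ≤ N) : ContinuousAt (sv N) (v0 N) := by
  unfold sv
  exact ((continuousAt_const).mul (continuousAt_clog (v0_slit hN))).div_const _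

lemma exp_sv {N : ℕ} (hN : 0 < N) {v : ℂ} (hv : v ≠ 0) :
    Complex.exp (Complex.I * π * sv N v / N) = v := by
  have hN0 : (N : ℂ) ≠ 0 := by exact_mod_cast hN.ne'
  have hpi : (π : ℂ) ≠ 0 := by exact_mod_cast Real.pi_ne_zero
  have hI : Complex.I ≠ 0 := Complex.I_ne_zero
  have : Complex.I * π * sv N v / N = Complex.log v := by
    unfold sv
    field_simp
  rw [this, Complex.exp_log hv]

lemma uu_zz {N : ℕ} (hN : 0 < N) {v : ℂ} (hv : v ≠ 0) (j : ℕ) :
    uu v (j : ℤ) = 2 * Complex.cos (zz N (sv N v) j) := by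
  have h1 := exp_sv hN hv
  have e1 : v ^ (2 * (j : ℤ) + 1) = Complex.exp (zz N (sv N v) j * Complex.I) := by
    rw [show (2 * (j : ℤ) + 1) = ((2 * j + 1 : ℕ) : ℤ) by push_cast; ring, zpow_natCast]
    nth_rw 1 [← h1]
    rw [← Complex.exp_nat_mul]
    congr 1
    unfold zz
    push_cast
    ring
  have e2 : v ^ (-(2 * (j : ℤ) + 1)) = Complex.exp (-zz N (sv N v) j * Complex.I) := by
    rw [zpow_neg, e1, ← Complex.exp_neg]
    congr 1
    ring
  unfold uu
  rw [e1, e2, Complex.cos]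
  ring

noncomputable def Cs (N : ℕ) (p : ℂ × ℂ) : ℂ :=
  Complex.exp (Complex.I * π / 2 - Complex.I * π * p.1 / (4 * N) - Complex.I * π * N * p.2 / 4)

lemma theta_eq {N : ℕ} (hN : 0 < N) {v : ℂ} (hv : v ≠ 0) (hs : sv N v ≠ 0) (k : ℕ) :
    (-1) ^ k * v ^ (k * (k + 1)) =
      Cs N (sv N v, (sv N v)⁻¹) * EE N (sv N v)⁻¹ (zz N (sv N v) k) := by
  have h1 := exp_sv hN hv
  have hN0 : (N : ℂ) ≠ 0 := by exact_mod_cast hN.ne'
  have hpi : (π : ℂ) ≠ 0 := by exact_mod_cast Real.pi_ne_zero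
  set s := sv N v
  have e1 : v ^ (k * (k + 1)) = Complex.exp (Complex.I * π * s * (k * (k + 1)) / N) := by
    nth_rw 1 [← h1]
    rw [← Complex.exp_nat_mul]
    congr 1
    push_cast
    ring
  have e2 : (-1 : ℂ) ^ k = Complex.exp (-(Complex.I * π * k)) := by
    have : (-1 : ℂ) = Complex.exp (-(π * Complex.I)) := by
      rw [Complex.exp_neg, Complex.exp_pi_mul_I]
      norm_num
    rw [this, ← Complex.exp_nat_mul]
    congr 1
    ring
  rw [e1, e2]
  unfold Cs EE zz
  rw [← Complex.exp_add, ← Complex.exp_add]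
  congr 1
  show -(Complex.I * π * k) + Complex.I * π * s * (k * (k + 1)) / N =
    Complex.I * π / 2 - Complex.I * π * s / (4 * N) - Complex.I * π * N * s⁻¹ / 4 +
    Complex.I * N * (π * s * (2 * k + 1) / N - π) ^ 2 * s⁻¹ / (4 * π)
  field_simp
  ring

lemma Cs_norm (N : ℕ) : ‖Cs N (1, 1)‖ = 1 := by
  unfold Cs
  have : Complex.I * π / 2 - Complex.I * π * ((1 : ℂ), (1 : ℂ)).1 / (4 * N) -
      Complex.I * π * N * ((1 : ℂ), (1 : ℂ)).2 / 4 =
      ((π / 2 - π / (4 * N) - π * N / 4 : ℝ) : ℂ) * Complex.I := by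
    push_cast
    ring
  rw [this, Complex.norm_exp_ofReal_mul_I]

lemma PP_cont (A N : ℕ) : Continuous (Function.uncurry (PP A N)) := by
  unfold PP EE Function.uncurry
  fun_prop

lemma QQ_cont (N n : ℕ) : Continuous (Function.uncurry (QQ N n)) := by
  unfold QQ zz Function.uncurry
  fun_prop

/-- the formula near `v0` -/
lemma gamH_rect (hR : S_RECT) (A : ℕ) {N n : ℕ} (hN : 2 ≤ N) (hn : n < N) {h : ℝ} (hh : 0 < h) :
    ∀ᶠ v in 𝓝[≠] (v0 N), gamH (A : ℤ) v n =
      brf v n * (Cs N (sv N v, (sv N v)⁻¹) ^ A *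
        (rect (fun φ => PP A N (sv N v, (sv N v)⁻¹) φ / QQ N n (sv N v, (sv N v)⁻¹) φ)
          0 (2 * π) (-h) h / (4 * π * Complex.I))) := by
  have hv0 : v0 N ≠ 0 := TE.v0_ne hN
  have hNp : 0 < N := by omega
  have hne : ∀ᶠ v in 𝓝[≠] (v0 N), v ≠ 0 :=
    (continuousAt_id.eventually_ne hv0).filter_mono nhdsWithin_le_nhds
  have hsne : ∀ᶠ v in 𝓝[≠] (v0 N), sv N v ≠ 0 := by
    have : sv N (v0 N) ≠ 0 := by rw [sv_v0 hN]; exact one_ne_zero
    exact ((sv_cont hN).eventually_ne this).filter_mono nhdsWithin_le_nhds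
  have hall : ∀ᶠ v in 𝓝[≠] (v0 N), ∀ j ∈ range (2 * N - 1), br v ((j : ℤ) + 1) ≠ 0 := by
    rw [Filter.eventually_all_finset]
    intro j hj
    rw [Finset.mem_range] at hj
    by_cases hjN : j + 1 = N
    · have := TE.brN_ne hN
      rw [show ((j : ℤ) + 1) = (N : ℤ) by exact_mod_cast hjN]
      exact this
    · have h1 : br (v0 N) ((j : ℤ) + 1) ≠ 0 := by
        apply TE.br_ne hN
        intro hd
        have hd' : N ∣ j + 1 := by exact_mod_cast hd
        obtain ⟨c, hc⟩ := hd'
        have : c < 2 := by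
          by_contra hh
          push Not at hh
          have := Nat.mul_le_mul_left N hh
          omega
        interval_cases c <;> omega
      exact ((TE.br_diff _ hv0).continuousAt.eventually_ne h1).filter_mono nhdsWithin_le_nhds
  have hnode : ∀ᶠ v in 𝓝[≠] (v0 N), ∀ j ∈ range (n + 1),
      0 < (zz N (sv N v) j).re ∧ (zz N (sv N v) j).re < 2 * π ∧ |(zz N (sv N v) j).im| < h := by
    rw [Filter.eventually_all_finset]
    intro j hj
    rw [Finset.mem_range] at hj
    have hc : ContinuousAt (fun v => zz N (sv N v) j) (v0 N) := by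
      unfold zz
      exact ((continuousAt_const.mul (sv_cont hN)).mul continuousAt_const).div_const _
    have hval : zz N (sv N (v0 N)) j = ((phi N j : ℝ) : ℂ) := by
      rw [sv_v0 hN]
      unfold zz phi
      push_cast
      ring
    have h1 := phi_mem (N := N) (j := j) (by omega)
    have hre : ContinuousAt (fun v => (zz N (sv N v) j).re) (v0 N) :=
      Complex.continuous_re.continuousAt.comp hc
    have him : ContinuousAt (fun v => |(zz N (sv N v) j).im|) (v0 N) :=
      (Complex.continuous_im.continuousAt.comp hc).abs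
    have a1 : 0 < (zz N (sv N (v0 N)) j).re := by rw [hval]; simpa using h1.1
    have a2 : (zz N (sv N (v0 N)) j).re < 2 * π := by rw [hval]; simpa using h1.2
    have a3 : |(zz N (sv N (v0 N)) j).im| < h := by rw [hval]; simpa using hh
    have b1 := hre.eventually_const_lt a1
    have b2 := hre.eventually_lt_const a2
    have b3 := him.eventually_lt_const a3
    exact ((b1.and (b2.and b3))).filter_mono nhdsWithin_le_nhds
  filter_upwards [hne, hsne, hall, hnode] with v hv hs hbv hnd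
  have hb : brf v (2 * n + 1) ≠ 0 := by
    unfold brf
    rw [Finset.prod_ne_zero_iff]
    intro j hj
    rw [Finset.mem_range] at hj
    exact hbv j (Finset.mem_range.2 (by omega))
  have hfun : (fun j : ℕ => uu v (j : ℤ)) = (fun j : ℕ => 2 * Complex.cos (zz N (sv N v) j)) := by
    funext j
    exact uu_zz hNp hv j
  have hinj := uu_inj hv hb
  rw [hfun] at hinj
  rw [rect_PQ hR A N n (sv N v) (sv N v)⁻¹ h hnd hinj, gamH_nodes hv _ hb]
  congr 1
  have hpi : (4 * π * Complex.I : ℂ) ≠ 0 := by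
    have : (π : ℂ) ≠ 0 := by exact_mod_cast Real.pi_ne_zero
    simp [this]
  rw [mul_div_cancel_left₀ _ hpi, Finset.mul_sum]
  apply Finset.sum_congr rfl
  intro k _
  rw [hfun, zpow_natCast, theta_eq hNp hv hs k, mul_pow]
  ring

theorem gam (hR : S_RECT) : S_GAM := by
  intro A N n hN hn
  have hv0 : v0 N ≠ 0 := TE.v0_ne hN
  have hpi : (4 * π * Complex.I : ℂ) ≠ 0 := by
    have : (π : ℂ) ≠ 0 := by exact_mod_cast Real.pi_ne_zero
    simp [this]
  have key : ∀ h : ℝ, 0 < h → Tendsto (fun v => gamH (A : ℤ) v n) (𝓝[≠] (v0 N))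
      (𝓝 (brf (v0 N) n * (Cs N (1, 1) ^ A *
        (rect (Fint A N (N - 1 - n)) (-π) π (-h) h / (4 * π * Complex.I))))) := by
    intro h hh
    have hp : Tendsto (fun v => (sv N v, (sv N v)⁻¹)) (𝓝[≠] (v0 N)) (𝓝 ((1 : ℂ), (1 : ℂ))) := by
      have h1 : Tendsto (sv N) (𝓝[≠] (v0 N)) (𝓝 1) := by
        have := (sv_cont hN).tendsto
        rw [sv_v0 hN] at this
        exact this.mono_left nhdsWithin_le_nhds
      have h2 : Tendsto (fun v => (sv N v)⁻¹) (𝓝[≠] (v0 N)) (𝓝 1) := by
        have := h1.inv₀ one_ne_zero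
        simpa using this
      exact h1.prodMk_nhds h2
    have hr : Tendsto (fun v => rect (fun φ => PP A N (sv N v, (sv N v)⁻¹) φ /
        QQ N n (sv N v, (sv N v)⁻¹) φ) 0 (2 * π) (-h) h) (𝓝[≠] (v0 N))
        (𝓝 (rect (Fint A N (N - 1 - n)) (-π) π (-h) h)) := by
      have h1 := tendsto_rect_div (X := ℂ × ℂ) (PP_cont A N) (QQ_cont N n) (a := 0) (b := 2 * π)
        (c := -h) (d := h) (p₀ := ((1 : ℂ), (1 : ℂ))) ?_
      · rw [rect_Fint A hn hh] at h1
        exact h1.comp hp
      · intro z hz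
        unfold QQ
        rw [Finset.prod_ne_zero_iff]
        intro j hj
        rw [Finset.mem_range] at hj
        have hzz : zz N ((1 : ℂ), (1 : ℂ)).1 j = ((phi N j : ℝ) : ℂ) := by
          unfold zz phi
          push_cast
          ring
        rw [hzz]
        have h2 := phi_mem (N := N) (j := j) (by omega)
        have h3 := bd_ne (z := ((phi N j : ℝ) : ℂ)) (by simpa using h2.1) (by simpa using h2.2)
          (by simpa using hh) hz
        intro h4
        apply h3
        linear_combination (1 / 2) * h4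
    have hC : Tendsto (fun v => Cs N (sv N v, (sv N v)⁻¹)) (𝓝[≠] (v0 N)) (𝓝 (Cs N (1, 1))) := by
      have : Continuous (Cs N) := by
        unfold Cs
        fun_prop
      exact (this.tendsto _).comp hp
    have hb : Tendsto (fun v => brf v n) (𝓝[≠] (v0 N)) (𝓝 (brf (v0 N) n)) :=
      ((TE.brf_diff n hv0).continuousAt.tendsto).mono_left nhdsWithin_le_nhds
    refine Tendsto.congr' ?_ (hb.mul ((hC.pow A).mul (hr.div_const _)))
    filter_upwards [gamH_rect hR A hN hn hh] with v hv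
    rw [hv]
  refine ⟨_, key 1 one_pos, ?_⟩
  intro h hh
  have hu := tendsto_nhds_unique (key 1 one_pos) (key h hh)
  rw [hu, norm_mul, norm_mul, norm_pow, Cs_norm, one_pow, one_mul, norm_div]
  have h4 : ‖(4 * π * Complex.I : ℂ)‖ = 4 * π := by
    rw [norm_mul, norm_mul, Complex.norm_I, Complex.norm_real, Real.norm_eq_abs,
      abs_of_pos Real.pi_pos]
    norm_num
  rw [h4]
  ring

end Pool.Agent.W709.VC
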