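import Pool.Agent.W709.VC.Pt

/-! Upper bound for the coefficients. -/

set_option autoImplicit false

namespace Pool.Agent.W709.VC

open Filter Finset EvenVol Pool.Agent.H112R4.VL
open scoped Real Topology

lemma lob6_pos : 0 < GapVol.lob (π / 6) := EvenVol.LobIneq.lob_six_pos

lemma vol_ge (hM : S_MAX) (hT : S_TEN) {m α₀ b₀ η : ℝ} (hm : 2 ≤ m) (hC : Crit m α₀ b₀ η) :
    10 * GapVol.lob (π / 6) ≤ pot m α₀ b₀ η := by
  have hp := Real.pi_pos
  refine le_trans (hT m η hm hC.hη) (hM m α₀ b₀ η hm hC _ _ (by positivity) (by positivity) ?_ ?_)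
  · apply div_le_div_of_nonneg_left hp.le (by norm_num) hm
  · have : π / m ≤ π / 2 := div_le_div_of_nonneg_left hp.le (by norm_num) hm
    linarith

lemma u3 (hM : S_MAX) (hN : S_NEG) {m α₀ b₀ η : ℝ} (hm : 2 ≤ m) (hC : Crit m α₀ b₀ η)
    {α b : ℝ} (hα : 0 ≤ α) (hα' : α ≤ π) (hb : -π ≤ b) (hb' : b ≤ min (π / m) (π - α)) :
    pot m α b η ≤ pot m α₀ b₀ η := by
  have hp := Real.pi_pos
  have h2 : π / m ≤ π / 2 := div_le_div_of_nonneg_left hp.le (by norm_num) hm
  have h3 := min_le_left (π / m) (π - α)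
  have h4 := min_le_right (π / m) (π - α)
  rcases le_total 0 b with h0 | h0
  · exact hM m α₀ b₀ η hm hC α b hα h0 (by linarith) (by linarith)
  · exact le_trans (hN m α b η (by linarith) hC.hη hα hα' hb h0)
      (hM m α₀ b₀ η hm hC α 0 hα le_rfl (by linarith) (by linarith))

lemma u2 (hM : S_MAX) (hN : S_NEG) (hU : S_VUP) (hVC : S_VCONV) (hVE : S_VEND) (hT : S_TEN)
    {m α₀ b₀ η : ℝ} (hm : 2 ≤ m) (hC : Crit m α₀ b₀ η)
    {α y h : ℝ} (hα : 0 ≤ α) (hα' : α ≤ π) (hh : 0 < h) (hy : h ≤ y) (hy' : y ≤ η) :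
    pot m α (min (π / m) (π - α)) y ≤ pot m α₀ b₀ η + 2 * π * h := by
  have hp := Real.pi_pos
  have hm0 : 0 < m := by linarith
  have h2 : π / m ≤ π / 2 := div_le_div_of_nonneg_left hp.le (by norm_num) hm
  have hph : 0 < 2 * π * h := by positivity
  have hpm : 0 < π / m := by positivity
  rcases le_total (π / m) (π - α) with h0 | h0
  · rw [min_eq_left h0]
    have h5 := hU m α y η hm0 (by linarith) hy' hα
    have h6 := u3 hM hN hm hC hα hα' (b := π / m) (by linarith) (le_min le_rfl h0)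
    linarith
  · rw [min_eq_right h0]
    have h5 := hVC m α h y η hh hy hy' (by linarith) hα'
    refine le_trans h5 (max_le ?_ ?_)
    · have h6 := hVE m α h hm0.le ?_ hh (by linarith) hα'
      · have h7 := vol_ge hM hT hm hC
        have h8 := lob6_pos
        linarith
      · rw [le_div_iff₀ hm0] at h0
        linarith
    · have h6 := u3 hM hN hm hC hα hα' (b := π - α) (by linarith) (le_min h0 le_rfl)
      linarith

lemma u1 (hM : S_MAX) (hN : S_NEG) (hU : S_VUP) (hVC : S_VCONV) (hVE : S_VEND) (hT : S_TEN)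
    (hRe : S_REAL) {m α₀ b₀ η : ℝ} (hm : 2 ≤ m) (hC : Crit m α₀ b₀ η)
    {α b h : ℝ} (hα : 0 ≤ α) (hα' : α ≤ π) (hh : 0 < h) (hy' : h ≤ η)
    (hb : min (π / m) (π - α) ≤ b) (hb' : b ≤ π) :
    pot m α b h ≤ pot m α₀ b₀ η + (2 * π + 4 * π * m) * h := by
  have hp := Real.pi_pos
  have hm0 : 0 < m := by linarith
  have hpm : 0 < π / m := by positivity
  have h1 := hRe m α b (min (π / m) (π - α)) h hm0.le hh hα hα' (le_min hpm.le (by linarith)) hb hb'
  have h2 := u2 hM hN hU hVC hVE hT hm hC hα hα' hh le_rfl hy'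
  linarith

lemma path_mul (k : ℂ) (f : ℂ → ℂ) (h η b : ℝ) :
    path (fun z => k * f z) h η b = k * path f h η b := by
  unfold path
  simp only [intervalIntegral.integral_const_mul]
  ring

lemma int_le {f : ℝ → ℂ} {a b B : ℝ} (hab : a ≤ b) (h : ∀ x, a ≤ x → x ≤ b → ‖f x‖ ≤ B) :
    ‖∫ x in a..b, f x‖ ≤ B * (b - a) := by
  have := intervalIntegral.norm_integral_le_of_norm_le_const (a := a) (b := b) (f := f) (C := B)
    (fun x hx => by
      rw [Set.uIoc_of_le hab] at hx
      exact h x hx.1.le hx.2)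
  rwa [abs_of_nonneg (by linarith)] at this

lemma path_le {f : ℂ → ℂ} {h η b B1 B2 B3 B4 B5 : ℝ} (hh : 0 ≤ h) (hη : h ≤ η)
    (hb : -π ≤ b) (hb' : b ≤ π)
    (h1 : ∀ y : ℝ, 0 ≤ y → y ≤ h → ‖f (-π + y * Complex.I)‖ ≤ B1)
    (h2 : ∀ x : ℝ, b ≤ x → x ≤ π → ‖f (-x + h * Complex.I)‖ ≤ B2)
    (h3 : ∀ y : ℝ, h ≤ y → y ≤ η → ‖f (-b + y * Complex.I)‖ ≤ B3)
    (h4 : ∀ x : ℝ, -π ≤ x → x ≤ b → ‖f (-x + η * Complex.I)‖ ≤ B4)
    (h5 : ∀ y : ℝ, 0 ≤ y → y ≤ η → ‖f (π + y * Complex.I)‖ ≤ B5) :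
    ‖path f h η b‖ ≤ B1 * h + B2 * (π - b) + B3 * (η - h) + B4 * (π + b) + B5 * η := by
  have k1 := int_le (f := fun y : ℝ => f (-π + y * Complex.I)) hh h1
  have k2 := int_le (f := fun x : ℝ => f (x + h * Complex.I)) (a := -π) (b := -b) (by linarith)
    (fun x hx hx' => by
      have := h2 (-x) (by linarith) (by linarith)
      simpa using this)
  have k3 := int_le (f := fun y : ℝ => f (-b + y * Complex.I)) hη h3
  have k4 := int_le (f := fun x : ℝ => f (x + η * Complex.I)) (a := -b) (b := π) (by linarith)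
    (fun x hx hx' => by
      have := h4 (-x) (by linarith) (by linarith)
      simpa using this)
  have k5 := int_le (f := fun y : ℝ => f (π + y * Complex.I)) (le_trans hh hη) h5
  unfold path
  have n1 := norm_sub_le (Complex.I * (∫ y in (0:ℝ)..h, f (-π + y * Complex.I)) +
    (∫ x in (-π)..(-b), f (x + h * Complex.I)) +
    Complex.I * (∫ y in h..η, f (-b + y * Complex.I)) +
    (∫ x in (-b)..π, f (x + η * Complex.I)))
    (Complex.I * (∫ y in (0:ℝ)..η, f (π + y * Complex.I)))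
  have n2 := norm_add_le (Complex.I * (∫ y in (0:ℝ)..h, f (-π + y * Complex.I)) +
    (∫ x in (-π)..(-b), f (x + h * Complex.I)) +
    Complex.I * (∫ y in h..η, f (-b + y * Complex.I)))
    (∫ x in (-b)..π, f (x + η * Complex.I))
  have n3 := norm_add_le (Complex.I * (∫ y in (0:ℝ)..h, f (-π + y * Complex.I)) +
    (∫ x in (-π)..(-b), f (x + h * Complex.I)))
    (Complex.I * (∫ y in h..η, f (-b + y * Complex.I)))
  have n4 := norm_add_le (Complex.I * (∫ y in (0:ℝ)..h, f (-π + y * Complex.I)))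
    (∫ x in (-π)..(-b), f (x + h * Complex.I))
  simp only [norm_mul, Complex.norm_I, one_mul] at n1 n2 n3 n4
  linarith

/-- the coefficient as a path integral -/
lemma Cn_path (hG : S_GAM) (hP : S_PATH) (A : ℕ) {N n d : ℕ} (hN : 2 ≤ N) (hnd : n + d + 1 = N)
    {h η b : ℝ} (hh : 0 < h) (hη : h ≤ η) (hb : |b| ≤ π) :
    Cn A N n = ‖path (fun z => ((‖brf (v0 N) n‖ ^ 2 : ℝ) : ℂ) * Fint A N d z) h η b‖ / (2 * π) := by
  have hp := Real.pi_pos
  have h1 := Gm_norm hG (A := A) hN (n := n) (by omega) hh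
  have hd : N - 1 - n = d := by omega
  rw [hd, hP A N d hN h η b hh hη hb] at h1
  rw [path_mul]
  unfold Cn
  rw [h1, norm_mul, norm_mul, Complex.norm_real, Real.norm_eq_abs, abs_of_nonneg (by positivity)]
  simp only [norm_neg, Complex.norm_ofNat]
  field_simp
  norm_num

/-- upper bound -/
theorem up (hG : S_GAM) (hP : S_PATH) (hRS : S_RS) (hB : S_BRF) (hV : S_VERT) (hS : S_SMALL)
    (hM : S_MAX) (hN : S_NEG) (hU : S_VUP) (hVC : S_VCONV) (hVE : S_VEND) (hT : S_TEN)
    (hRe : S_REAL) {A : ℕ} (hA : 4 ≤ A) {α₀ b₀ η : ℝ} (hC : Crit ((A : ℝ) / 2) α₀ b₀ η)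
    {ε : ℝ} (hε : 0 < ε) :
    ∀ᶠ N : ℕ in atTop, ∀ n, n < N →
      Cn A N n ≤ Real.exp (N / (4 * π) * pot ((A : ℝ) / 2) α₀ b₀ η + ε * N) := by
  have hp := Real.pi_pos
  have hA' : (4 : ℝ) ≤ A := by exact_mod_cast hA
  set m : ℝ := (A : ℝ) / 2 with hm
  have hm2 : 2 ≤ m := by rw [hm]; linarith
  have hm0 : 0 < m := by linarith
  set V := pot m α₀ b₀ η with hVd
  have hV0 : 0 ≤ V := by
    have := vol_ge hM hT hm2 hC
    have := lob6_pos
    linarith
  have hη := hC.hη
  set h : ℝ := min η (ε / (4 * (m + m + 2))) with hhd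
  have hh : 0 < h := lt_min hη (by positivity)
  have hhη : h ≤ η := min_le_left _ _
  have hhε : h * (4 * (m + m + 2)) ≤ ε := by
    have := min_le_right η (ε / (4 * (m + m + 2)))
    rw [← hhd, le_div_iff₀ (by positivity)] at this
    exact this
  have hmh : 0 < m * h := by positivity
  set K : ℝ := (Real.sinh h * h + 1 * (2 * π) + 1 * η + 1 * (2 * π) + Real.sinh η * η) / (2 * π)
    with hK
  have hsh : 0 ≤ Real.sinh h := Real.sinh_nonneg_iff.2 hh.le
  have hsη : 0 ≤ Real.sinh η := Real.sinh_nonneg_iff.2 hη.le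
  have e1 := pb_le hRS hB A (h := h) (H := η) hh (show 0 < ε / 4 by positivity)
  have e2 := hV A (ε / 4) (by positivity)
  have e3 := hS A ε hε
  have e4 : ∀ᶠ N : ℕ in atTop, K ≤ Real.exp (ε / 2 * N) := by
    have : Tendsto (fun N : ℕ => Real.exp (ε / 2 * (N : ℝ))) atTop atTop :=
      Real.tendsto_exp_atTop.comp
        (Tendsto.const_mul_atTop (by positivity) tendsto_natCast_atTop_atTop)
    exact this.eventually_ge_atTop K
  filter_upwards [e1, e2, e3, e4, eventually_ge_atTop 2] with N h1 h2 h3 h4 hN2 n hn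
  have hNp : (0 : ℝ) < N := by
    have : 0 < N := by omega
    exact_mod_cast this
  rcases Nat.lt_or_ge (2 * n + 1) N with hs | hs
  · unfold Cn
    rw [Gm_eq hG hN2 hs]
    refine le_trans (h3 n hs) (Real.exp_le_exp.2 ?_)
    have : 0 ≤ N / (4 * π) * V := by positivity
    linarith
  · obtain ⟨d, hd⟩ : ∃ d, n + d + 1 = N := ⟨N - 1 - n, by omega⟩
    set α : ℝ := 2 * π * d / N with hα
    have hα0 : 0 ≤ α := by positivity
    have hαπ : α ≤ π := by
      rw [hα, div_le_iff₀ hNp]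
      have : 2 * (d : ℝ) ≤ N := by
        have : 2 * d ≤ N := by omega
        exact_mod_cast this
      nlinarith
    set b := min (π / m) (π - α) with hb
    have hpm : 0 < π / m := by positivity
    have hb0 : 0 ≤ b := le_min hpm.le (by linarith)
    have hbπ : b ≤ π := le_trans (min_le_right _ _) (by linarith)
    rw [Cn_path hG hP A hN2 hd hh hhη (b := b) (by rw [abs_of_nonneg hb0]; exact hbπ)]
    set E := Real.exp (N / (4 * π) * V + ε / 2 * N) with hE
    have hE0 : 0 < E := Real.exp_pos _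
    have hnorm : ∀ z : ℂ, ‖((‖brf (v0 N) n‖ ^ 2 : ℝ) : ℂ) * Fint A N d z‖ =
        ‖brf (v0 N) n‖ ^ 2 * ‖Fint A N d z‖ := by
      intro z
      rw [norm_mul, Complex.norm_real, Real.norm_eq_abs, abs_of_nonneg (by positivity)]
    have hVN : 0 ≤ N / (4 * π) * V := by positivity
    have hAm : (A : ℝ) = 2 * m := by rw [hm]; ring
    have key := path_le (f := fun z => ((‖brf (v0 N) n‖ ^ 2 : ℝ) : ℂ) * Fint A N d z) hh.le hhη
      (b := b) (by linarith) hbπ (B1 := Real.sinh h * E) (B2 := E) (B3 := E) (B4 := E)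
      (B5 := Real.sinh η * E) ?_ ?_ ?_ ?_ ?_
    · rw [div_le_iff₀ (by positivity)]
      refine le_trans key ?_
      have hsplit : Real.exp (N / (4 * π) * V + ε * N) = E * Real.exp (ε / 2 * N) := by
        rw [hE, ← Real.exp_add]
        congr 1
        ring
      rw [hsplit]
      have hfin : Real.sinh h * E * h + E * (π - b) + E * (η - h) + E * (π + b) +
          Real.sinh η * E * η ≤ E * (K * (2 * π)) := by
        rw [hK, div_mul_cancel₀ _ (by positivity)]
        nlinarith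
      refine le_trans hfin ?_
      have : K * (2 * π) ≤ Real.exp (ε / 2 * N) * (2 * π) :=
        mul_le_mul_of_nonneg_right h4 (by positivity)
      calc E * (K * (2 * π)) ≤ E * (Real.exp (ε / 2 * N) * (2 * π)) :=
            mul_le_mul_of_nonneg_left this hE0.le
        _ = _ := by ring
    · intro y hy hy'
      rw [hnorm]
      refine le_trans (h2 n d hd y hy).2 ?_
      have hs1 : Real.sinh y ≤ Real.sinh h := Real.sinh_le_sinh.2 hy'
      have hs0 : 0 ≤ Real.sinh y := Real.sinh_nonneg_iff.2 hy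
      apply mul_le_mul hs1 _ (Real.exp_pos _).le hsh
      apply Real.exp_le_exp.2
      have : m * y ≤ m * h := mul_le_mul_of_nonneg_left hy' hm0.le
      have h5 : (A : ℝ) * N * y / 2 ≤ ε / 4 * N := by
        rw [hAm]
        have : 2 * m * N * y / 2 = m * y * N := by ring
        rw [this]
        apply mul_le_mul_of_nonneg_right _ hNp.le
        nlinarith
      linarith
    · intro x hx hx'
      rw [hnorm]
      refine le_trans (h1 n d hd x h le_rfl hhη) ?_
      apply Real.exp_le_exp.2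
      have h5 := u1 hM hN hU hVC hVE hT hRe hm2 hC hα0 hαπ hh hhη hx hx'
      have h6 : N / (4 * π) * pot m α x h ≤ N / (4 * π) * (V + (2 * π + 4 * π * m) * h) :=
        mul_le_mul_of_nonneg_left h5 (by positivity)
      have h7 : N / (4 * π) * (V + (2 * π + 4 * π * m) * h) =
          N / (4 * π) * V + (1 / 2 + m) * h * N := by
        field_simp
        ring
      have h8 : (1 / 2 + m) * h ≤ ε / 4 := by nlinarith
      have h9 : (1 / 2 + m) * h * N ≤ ε / 4 * N := mul_le_mul_of_nonneg_right h8 hNp.le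
      linarith
    · intro y hy hy'
      rw [hnorm]
      refine le_trans (h1 n d hd b y hy hy') ?_
      apply Real.exp_le_exp.2
      have h5 := u2 hM hN hU hVC hVE hT hm2 hC hα0 hαπ hh hy hy'
      have h6 : N / (4 * π) * pot m α b y ≤ N / (4 * π) * (V + 2 * π * h) :=
        mul_le_mul_of_nonneg_left h5 (by positivity)
      have h7 : N / (4 * π) * (V + 2 * π * h) = N / (4 * π) * V + 1 / 2 * h * N := by
        field_simp
        ring
      have h8 : 1 / 2 * h ≤ ε / 4 := by nlinarith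
      have h9 : 1 / 2 * h * N ≤ ε / 4 * N := mul_le_mul_of_nonneg_right h8 hNp.le
      linarith
    · intro x hx hx'
      rw [hnorm]
      refine le_trans (h1 n d hd x η hhη le_rfl) ?_
      apply Real.exp_le_exp.2
      have h5 := u3 hM hN hm2 hC hα0 hαπ hx hx'
      have h6 : N / (4 * π) * pot m α x η ≤ N / (4 * π) * V :=
        mul_le_mul_of_nonneg_left h5 (by positivity)
      have : 0 ≤ ε / 4 * N := by positivity
      linarith
    · intro y hy hy'
      rw [hnorm]
      refine le_trans (h2 n d hd y hy).1 ?_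
      have hs1 : Real.sinh y ≤ Real.sinh η := Real.sinh_le_sinh.2 hy'
      have hs0 : 0 ≤ Real.sinh y := Real.sinh_nonneg_iff.2 hy
      apply mul_le_mul hs1 _ (Real.exp_pos _).le hsη
      apply Real.exp_le_exp.2
      have : 0 ≤ ε / 4 * N := by positivity
      linarith

end Pool.Agent.W709.VC
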