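import Pool.Agent.W709.VC.Gam3

/-! The value of the coloured Jones polynomial of `C(A,A)` at the root of unity. -/

set_option autoImplicit false

namespace Pool.Agent.W709.VC

open Filter Finset EvenVol Pool.Agent.H112R4.VL
open scoped Real Topology ComplexConjugate

lemma gamH_inv' (a : ℤ) (v : ℂ) (n : ℕ) : gamH a v⁻¹ n = (-1) ^ n * gamH (-a) v n := by
  unfold gamH
  rw [Finset.mul_sum]
  apply Finset.sum_congr rfl
  intro k hk
  rw [Finset.mem_range] at hk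
  rw [brf_inv, brf_inv, brf_inv, br_inv]
  have h1 : ((-1 : ℂ) ^ k * v⁻¹ ^ (k * (k + 1))) ^ a =
      ((-1 : ℂ) ^ k * v ^ (k * (k + 1))) ^ (-a) := by
    rw [zpow_neg, ← inv_zpow]
    congr 1
    rw [mul_inv, inv_pow]
    congr 1
    rw [← inv_pow]
    norm_num
  rw [h1]
  obtain ⟨m, rfl⟩ : ∃ m, n = k + m := ⟨n - k, by omega⟩
  rw [show k + m - k = m by omega]
  have hs : ((-1 : ℂ) ^ k) ^ 2 = 1 := by rw [← pow_mul, mul_comm, pow_mul]; norm_num
  have hsm : ((-1 : ℂ) ^ m) ^ 2 = 1 := by rw [← pow_mul, mul_comm, pow_mul]; norm_num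
  have hk0 : ((-1 : ℂ) ^ k) ≠ 0 := pow_ne_zero _ (by norm_num)
  have hm0 : ((-1 : ℂ) ^ m) ≠ 0 := pow_ne_zero _ (by norm_num)
  have s2 : (-1 : ℂ) ^ (k + m + k + 1) = - (-1) ^ m := by
    rw [pow_succ, pow_add, pow_add]
    linear_combination (-(-1) ^ m) * hs
  rw [s2, pow_add (-1 : ℂ) k m]
  generalize ((-1 : ℂ) ^ k * v ^ (k * (k + 1))) ^ (-a) = T
  generalize (-1 : ℂ) ^ k = X at *
  generalize (-1 : ℂ) ^ m = Y at *
  have : X * Y * brf v (k + m) / (Y * brf v m * (-Y * brf v (k + m + k + 1))) =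
      - (X / Y) * (brf v (k + m) / (brf v m * brf v (k + m + k + 1))) := by
    rw [show Y * brf v m * (-Y * brf v (k + m + k + 1)) =
      (-Y * Y) * (brf v m * brf v (k + m + k + 1)) by ring, mul_div_mul_comm]
    congr 1
    field_simp
  rw [this]
  have hXY : X / Y = X * Y := by
    field_simp
    rw [hsm]
  rw [hXY]
  ring

lemma br_conj (v : ℂ) (n : ℤ) : br (conj v) n = conj (br v n) := by
  unfold br
  rw [map_sub, map_zpow₀, map_zpow₀]

lemma brf_conj (v : ℂ) (n : ℕ) : brf (conj v) n = conj (brf v n) := by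
  unfold brf
  rw [map_prod]
  exact Finset.prod_congr rfl (fun j _ => br_conj v _)

lemma gamH_conj (a : ℤ) (v : ℂ) (n : ℕ) : gamH a (conj v) n = conj (gamH a v n) := by
  unfold gamH
  rw [map_sum]
  apply Finset.sum_congr rfl
  intro k _
  simp only [map_mul, map_div₀, map_pow, map_neg, map_one, map_zpow₀, brf_conj, br_conj]

lemma v0_conj (N : ℕ) : conj (v0 N) = (v0 N)⁻¹ := by
  unfold v0
  rw [← Complex.exp_conj, ← Complex.exp_neg]
  congr 1
  rw [map_div₀, map_mul, Complex.conj_I, Complex.conj_ofReal, map_natCast]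
  ring

lemma brf_sq (N n : ℕ) : (-1) ^ n * brf (v0 N) n ^ 2 = ((‖brf (v0 N) n‖ ^ 2 : ℝ) : ℂ) := by
  rw [← Complex.normSq_eq_norm_sq, ← Complex.mul_conj, ← brf_conj, v0_conj, brf_inv]
  ring

lemma gamH_neg (a : ℤ) (v : ℂ) (n : ℕ) :
    gamH (-a) v n = (-1) ^ n * conj (gamH a (conj v⁻¹) n) := by
  rw [gamH_conj, Complex.conj_conj, gamH_inv']
  have hs : ((-1 : ℂ) ^ n) ^ 2 = 1 := by rw [← pow_mul, mul_comm, pow_mul]; norm_num
  linear_combination (-gamH (-a) v n) * hs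

lemma tendsto_conj_inv {N : ℕ} (hN : 2 ≤ N) :
    Tendsto (fun v : ℂ => conj v⁻¹) (𝓝[≠] (v0 N)) (𝓝[≠] (v0 N)) := by
  have hv0 : v0 N ≠ 0 := TE.v0_ne hN
  have hval : conj (v0 N)⁻¹ = v0 N := by
    rw [← v0_conj, Complex.conj_conj]
  apply tendsto_nhdsWithin_of_tendsto_nhds_of_eventually_within
  · have h1 : Tendsto (fun v : ℂ => v⁻¹) (𝓝 (v0 N)) (𝓝 ((v0 N)⁻¹)) := tendsto_inv₀ hv0
    have h2 := (Complex.continuous_conj.tendsto ((v0 N)⁻¹)).comp h1
    rw [hval] at h2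
    exact h2.mono_left nhdsWithin_le_nhds
  · filter_upwards [self_mem_nhdsWithin] with v hv
    intro h
    apply hv
    have h' : conj v⁻¹ = conj (v0 N)⁻¹ := by rw [hval]; exact h
    have h2 : v⁻¹ = (v0 N)⁻¹ := by
      have := congrArg conj h'
      simpa using this
    exact inv_injective h2

/-- the value of the twist coefficient at the root of unity -/
noncomputable def Gm (A N n : ℕ) : ℂ := limUnder (𝓝[≠] (v0 N)) (fun v => gamH (A : ℤ) v n)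

lemma Gm_tendsto (hG : S_GAM) {A N n : ℕ} (hN : 2 ≤ N) (hn : n < N) :
    Tendsto (fun v => gamH (A : ℤ) v n) (𝓝[≠] (v0 N)) (𝓝 (Gm A N n)) := by
  obtain ⟨Γ, h1, _⟩ := hG A N n hN hn
  exact tendsto_nhds_limUnder ⟨Γ, h1⟩

lemma Gm_norm (hG : S_GAM) {A N n : ℕ} (hN : 2 ≤ N) (hn : n < N) {h : ℝ} (hh : 0 < h) :
    ‖Gm A N n‖ = ‖brf (v0 N) n‖ / (4 * π) *
      ‖rect (Fint A N (N - 1 - n)) (-π) π (-h) h‖ := by
  obtain ⟨Γ, h1, h2⟩ := hG A N n hN hn
  have := tendsto_nhds_unique (Gm_tendsto hG hN hn) h1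
  rw [this]
  exact h2 h hh

/-- for small `n` there is no singularity -/
lemma Gm_eq (hG : S_GAM) {A N n : ℕ} (hN : 2 ≤ N) (hn : 2 * n + 1 < N) :
    Gm A N n = gamH (A : ℤ) (v0 N) n := by
  have hv0 : v0 N ≠ 0 := TE.v0_ne hN
  have h1 : ContinuousAt (fun v => gamH (A : ℤ) v n) (v0 N) := by
    unfold gamH
    apply tendsto_finsetSum
    intro k hk
    rw [Finset.mem_range] at hk
    have hbr : ∀ n : ℤ, Tendsto (fun v : ℂ => br v n) (𝓝 (v0 N)) (𝓝 (br (v0 N) n)) :=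
      fun n => (TE.br_diff n hv0).continuousAt
    have hbf : ∀ i : ℕ, Tendsto (fun v : ℂ => brf v i) (𝓝 (v0 N)) (𝓝 (brf (v0 N) i)) :=
      fun i => (TE.brf_diff i hv0).continuousAt
    have hd : brf (v0 N) (n - k) * brf (v0 N) (n + k + 1) ≠ 0 :=
      mul_ne_zero (TE.brf_ne hN _ (by omega)) (TE.brf_ne hN _ (by omega))
    refine (tendsto_const_nhds.mul ((hbf n).div ((hbf _).mul (hbf _)) hd)).mul
      (Tendsto.mul ?_ (hbr _))
    have h3 : Tendsto (fun v : ℂ => (-1 : ℂ) ^ k * v ^ (k * (k + 1))) (𝓝 (v0 N))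
        (𝓝 ((-1) ^ k * (v0 N) ^ (k * (k + 1)))) :=
      tendsto_const_nhds.mul (continuousAt_id.pow _)
    exact h3.zpow₀ _ (Or.inl (mul_ne_zero (pow_ne_zero _ (by norm_num)) (pow_ne_zero _ hv0)))
  have h2 : Tendsto (fun v => gamH (A : ℤ) v n) (𝓝[≠] (v0 N)) (𝓝 (gamH (A : ℤ) (v0 N) n)) :=
    h1.tendsto.mono_left nhdsWithin_le_nhds
  exact tendsto_nhds_unique (Gm_tendsto hG hN (by omega)) h2

/-- the coefficient -/
noncomputable def Cn (A N n : ℕ) : ℝ := ‖brf (v0 N) n‖ * ‖Gm A N n‖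

/-- the value at the root of unity -/
noncomputable def kap (A N : ℕ) : ℝ := ∑ n ∈ range N, Cn A N n ^ 2

theorem jd_limit (hG : S_GAM) (A : ℕ) {N : ℕ} (hN : 2 ≤ N) :
    Tendsto (JD (A : ℤ) (-(A : ℤ)) N) (𝓝[≠] (v0 N)) (𝓝 ((kap A N : ℝ) : ℂ)) := by
  have hv0 : v0 N ≠ 0 := TE.v0_ne hN
  have hval : ((kap A N : ℝ) : ℂ) = ∑ i ∈ range N, (-1) ^ i *
      (∏ j ∈ range i, (br (v0 N) ((N : ℤ) + ((j : ℤ) + 1)) *
        br (v0 N) ((N : ℤ) - ((j : ℤ) + 1)))) *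
      (Gm A N i * ((-1) ^ i * conj (Gm A N i))) := by
    unfold kap
    rw [Complex.ofReal_sum]
    apply Finset.sum_congr rfl
    intro i _
    rw [prod_v0 hN]
    unfold Cn
    rw [mul_pow, Complex.ofReal_mul, ← brf_sq]
    have : ((‖Gm A N i‖ ^ 2 : ℝ) : ℂ) = Gm A N i * conj (Gm A N i) := by
      rw [Complex.mul_conj, Complex.normSq_eq_norm_sq]
    rw [this]
    ring
  rw [hval]
  have hfun : JD (A : ℤ) (-(A : ℤ)) N = fun v => ∑ i ∈ range N, (-1) ^ i *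
      (∏ j ∈ range i, (br v ((N : ℤ) + ((j : ℤ) + 1)) * br v ((N : ℤ) - ((j : ℤ) + 1)))) *
      (gamH (A : ℤ) v i * ((-1) ^ i * conj (gamH (A : ℤ) (conj v⁻¹) i))) := by
    funext v
    unfold JD
    apply Finset.sum_congr rfl
    intro i _
    rw [gamH_neg]
  rw [hfun]
  apply tendsto_finsetSum
  intro i hi
  rw [Finset.mem_range] at hi
  have hbr : ∀ n : ℤ, Tendsto (fun v : ℂ => br v n) (𝓝[≠] (v0 N)) (𝓝 (br (v0 N) n)) :=
    fun n => ((TE.br_diff n hv0).continuousAt.tendsto).mono_left nhdsWithin_le_nhds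
  have h1 := Gm_tendsto hG (A := A) hN hi
  have h2 : Tendsto (fun v => conj (gamH (A : ℤ) (conj v⁻¹) i)) (𝓝[≠] (v0 N))
      (𝓝 (conj (Gm A N i))) :=
    (Complex.continuous_conj.tendsto _).comp (h1.comp (tendsto_conj_inv hN))
  exact (tendsto_const_nhds.mul (tendsto_finsetProd _ (fun j _ => (hbr _).mul (hbr _)))).mul
    (h1.mul (tendsto_const_nhds.mul h2))

end Pool.Agent.W709.VC
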