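import Pool.Agent.W709.VC.GeoDefs

/-! Angles of the tetrahedra in a twist region. -/

set_option autoImplicit false

namespace Pool.Agent.W709.VC

open Filter Finset EvenVol
open scoped Real Topology ComplexConjugate

noncomputable def rho (η b : ℝ) : ℂ := (η + b * Complex.I) / 2

noncomputable def Sk (η b : ℝ) (k : ℕ) : ℂ := Complex.sinh (k * rho η b)

noncomputable def ak (η b : ℝ) (k : ℕ) : ℝ := Complex.arg (Sk η b k)

noncomputable def lk (η b : ℝ) (k : ℕ) : ℝ := Real.log ‖Sk η b k‖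

noncomputable def ck (η b : ℝ) (k : ℕ) : ℂ := Sk η b (k + 1) ^ 2 / Sk η b 1 ^ 2

lemma sinh_parts (x y : ℝ) : Complex.sinh (x + y * Complex.I) =
    ((Real.sinh x * Real.cos y : ℝ) : ℂ) + ((Real.cosh x * Real.sin y : ℝ) : ℂ) * Complex.I := by
  rw [Complex.sinh_add, Complex.sinh_mul_I, Complex.cosh_mul_I]
  push_cast
  ring

lemma Sk_parts (η b : ℝ) (k : ℕ) :
    Sk η b k = ((Real.sinh (k * (η / 2)) * Real.cos (k * (b / 2)) : ℝ) : ℂ) +
      ((Real.cosh (k * (η / 2)) * Real.sin (k * (b / 2)) : ℝ) : ℂ) * Complex.I := by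
  rw [← sinh_parts]
  unfold Sk rho
  congr 1
  push_cast
  ring

lemma Sk_re (η b : ℝ) (k : ℕ) : (Sk η b k).re = Real.sinh (k * (η / 2)) * Real.cos (k * (b / 2)) := by
  rw [Sk_parts, Complex.add_re, Complex.ofReal_re, Complex.re_ofReal_mul, Complex.I_re]
  ring

lemma Sk_im (η b : ℝ) (k : ℕ) : (Sk η b k).im = Real.cosh (k * (η / 2)) * Real.sin (k * (b / 2)) := by
  rw [Sk_parts, Complex.add_im, Complex.ofReal_im, Complex.im_ofReal_mul, Complex.I_im]
  ring

lemma Sk_im_pos {η b : ℝ} {k : ℕ} (hb : 0 < b) (hk : 1 ≤ k) (hkb : k * (b / 2) < π) :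
    0 < (Sk η b k).im := by
  rw [Sk_im]
  apply mul_pos (Real.cosh_pos _)
  apply Real.sin_pos_of_pos_of_lt_pi _ hkb
  have : (1 : ℝ) ≤ k := by exact_mod_cast hk
  positivity

lemma abs_sin_nat (n : ℕ) (θ : ℝ) : |Real.sin (n * θ)| ≤ n * |Real.sin θ| := by
  induction n with
  | zero => simp
  | succ n ih =>
    have h1 : ((n + 1 : ℕ) : ℝ) * θ = n * θ + θ := by push_cast; ring
    rw [h1, Real.sin_add]
    have h2 := abs_add_le (Real.sin (n * θ) * Real.cos θ) (Real.cos (n * θ) * Real.sin θ)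
    rw [abs_mul, abs_mul] at h2
    have h3 := Real.abs_cos_le_one θ
    have h4 := Real.abs_cos_le_one (n * θ)
    have h5 : |Real.sin (n * θ)| * |Real.cos θ| ≤ |Real.sin (n * θ)| := by
      nlinarith [abs_nonneg (Real.sin (n * θ))]
    have h6 : |Real.cos (n * θ)| * |Real.sin θ| ≤ |Real.sin θ| := by
      nlinarith [abs_nonneg (Real.sin θ)]
    push_cast
    linarith

lemma sinh_nat (n : ℕ) {r : ℝ} (hr : 0 < r) (hn : 2 ≤ n) :
    n * Real.sinh r < Real.sinh (n * r) := by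
  have hs : 0 < Real.sinh r := Real.sinh_pos_iff.2 hr
  have hc : 1 < Real.cosh r := Real.one_lt_cosh.2 hr.ne'
  induction n, hn using Nat.le_induction with
  | base =>
    push_cast
    rw [Real.sinh_two_mul]
    nlinarith
  | succ n hn ih =>
    have h1 : ((n + 1 : ℕ) : ℝ) * r = n * r + r := by push_cast; ring
    rw [h1, Real.sinh_add]
    have h2 : 1 ≤ Real.cosh (n * r) := Real.one_le_cosh _
    have hn' : (2 : ℝ) ≤ n := by exact_mod_cast hn
    have h3 : 0 < Real.sinh (n * r) := Real.sinh_pos_iff.2 (by positivity)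
    push_cast
    nlinarith

lemma cross_pos {η b : ℝ} {k : ℕ} (hη : 0 < η) (hb : 0 < b) (hb' : b / 2 < π) (hk : 1 ≤ k) :
    0 < (Sk η b (k + 1)).im * (Sk η b k).re - (Sk η b (k + 1)).re * (Sk η b k).im := by
  rw [Sk_re, Sk_im, Sk_re, Sk_im]
  set r := η / 2 with hr
  set θ := b / 2 with hθ
  have hr0 : 0 < r := by positivity
  have hθ0 : 0 < θ := by positivity
  have e1 : ((k + 1 : ℕ) : ℝ) * r = k * r + r := by push_cast; ring
  have e2 : ((k + 1 : ℕ) : ℝ) * θ = k * θ + θ := by push_cast; ring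
  have h1 := sinh_nat (2 * k + 1) hr0 (by omega)
  have h2 := abs_sin_nat (2 * k + 1) θ
  have e3 : ((2 * k + 1 : ℕ) : ℝ) * r = (k * r + r) + k * r := by push_cast; ring
  have e4 : ((2 * k + 1 : ℕ) : ℝ) * θ = (k * θ + θ) + k * θ := by push_cast; ring
  have hsn : 0 < Real.sin θ := Real.sin_pos_of_pos_of_lt_pi hθ0 hb'
  have hsh : 0 < Real.sinh r := Real.sinh_pos_iff.2 hr0
  rw [e3] at h1
  rw [e4, abs_of_pos hsn] at h2
  rw [e1, e2]
  have f1 : Real.sinh r = Real.sinh ((k * r + r) - k * r) := by congr 1; ring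
  have f2 : Real.sin θ = Real.sin ((k * θ + θ) - k * θ) := by congr 1; ring
  have key : Real.cosh (k * r + r) * Real.sin (k * θ + θ) * (Real.sinh (k * r) * Real.cos (k * θ)) -
      Real.sinh (k * r + r) * Real.cos (k * θ + θ) * (Real.cosh (k * r) * Real.sin (k * θ)) =
      (1 / 2) * (Real.sinh ((k * r + r) + k * r) * Real.sin θ -
        Real.sinh r * Real.sin ((k * θ + θ) + k * θ)) := by
    rw [f1, f2, Real.sinh_add (k * r + r) (k * r), Real.sinh_sub, Real.sin_add (k * θ + θ) (k * θ),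
      Real.sin_sub]
    ring
  rw [key]
  have h3 := (abs_le.1 h2).2
  have h4 : Real.sinh r * Real.sin ((k * θ + θ) + k * θ) ≤
      Real.sinh r * (((2 * k + 1 : ℕ) : ℝ) * Real.sin θ) := mul_le_mul_of_nonneg_left h3 hsh.le
  have h5 : ((2 * k + 1 : ℕ) : ℝ) * Real.sinh r * Real.sin θ <
      Real.sinh ((k * r + r) + k * r) * Real.sin θ := mul_lt_mul_of_pos_right h1 hsn
  linarith

lemma arg_mem {z : ℂ} (h : 0 < z.im) : 0 < Complex.arg z ∧ Complex.arg z < π := by
  constructor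
  · have h0 : 0 ≤ Complex.arg z := Complex.arg_nonneg_iff.2 h.le
    rcases h0.lt_or_eq with h1 | h1
    · exact h1
    · exfalso
      have := Complex.arg_eq_zero_iff.1 h1.symm
      linarith [this.2]
  · refine lt_of_le_of_ne (Complex.arg_le_pi z) ?_
    intro h1
    have := Complex.arg_eq_pi_iff.1 h1
    linarith [this.2]

lemma ak_lt {η b : ℝ} {k : ℕ} (hη : 0 < η) (hb : 0 < b) (hk : 1 ≤ k)
    (hkb : ((k + 1 : ℕ) : ℝ) * (b / 2) < π) : ak η b k < ak η b (k + 1) := by
  have hk1 : (1 : ℝ) ≤ k := by exact_mod_cast hk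
  have hkb' : (k : ℝ) * (b / 2) < π := by
    push_cast at hkb
    nlinarith
  have hb' : b / 2 < π := by
    push_cast at hkb
    nlinarith
  have h1 := Sk_im_pos (η := η) hb hk hkb'
  have h2 := Sk_im_pos (η := η) hb (show 1 ≤ k + 1 by omega) hkb
  have h3 := cross_pos hη hb hb' hk
  have a1 := arg_mem h1
  have a2 := arg_mem h2
  have n1 : Sk η b k ≠ 0 := by intro h; rw [h] at h1; simp at h1
  have n2 : Sk η b (k + 1) ≠ 0 := by intro h; rw [h] at h2; simp at h2
  have hsin : 0 < Real.sin (ak η b (k + 1) - ak η b k) := by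
    unfold ak
    rw [Real.sin_sub, Complex.sin_arg, Complex.cos_arg n1, Complex.cos_arg n2, Complex.sin_arg]
    have p1 : 0 < ‖Sk η b k‖ := norm_pos_iff.2 n1
    have p2 : 0 < ‖Sk η b (k + 1)‖ := norm_pos_iff.2 n2
    have : (Sk η b (k + 1)).im / ‖Sk η b (k + 1)‖ * ((Sk η b k).re / ‖Sk η b k‖) -
        (Sk η b (k + 1)).re / ‖Sk η b (k + 1)‖ * ((Sk η b k).im / ‖Sk η b k‖) =
        ((Sk η b (k + 1)).im * (Sk η b k).re - (Sk η b (k + 1)).re * (Sk η b k).im) /
          (‖Sk η b (k + 1)‖ * ‖Sk η b k‖) := by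
      field_simp
    rw [this]
    positivity
  by_contra hc
  push Not at hc
  have : Real.sin (ak η b (k + 1) - ak η b k) ≤ 0 := by
    apply Real.sin_nonpos_of_nonpos_of_neg_pi_le
    · linarith
    · unfold ak
      linarith [a1.2, a2.1]
  linarith

/-- argument from the polar form -/
lemma arg_eq_of {x : ℂ} {r θ : ℝ} (hr : 0 < r) (hθ : -π < θ) (hθ' : θ ≤ π)
    (h : x = r * Complex.exp (θ * Complex.I)) : Complex.arg x = θ := by
  rw [h, Complex.exp_mul_I]
  exact Complex.arg_mul_cos_add_sin_mul_I hr ⟨hθ, hθ'⟩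

/-- a tetrahedron with shape `c` and dihedral angles `x, y, z` -/
lemma layer {c : ℂ} {x y z : ℝ} (hx : 0 < x) (hx' : x < π) (hy : 0 < y) (hy' : y < π)
    (hz : 0 < z) (hz' : z < π)
    (h1 : c = ‖c‖ * Complex.exp (z * Complex.I))
    (h2 : 1 / (1 - c) = ‖1 / (1 - c)‖ * Complex.exp (x * Complex.I))
    (h3 : 1 - 1 / c = ‖1 - 1 / c‖ * Complex.exp (y * Complex.I)) :
    c ≠ 0 ∧ c ≠ 1 ∧ Dv c = GapVol.lob x + GapVol.lob y + GapVol.lob z ∧
      Real.log (2 * Real.sin x) - Real.log (2 * Real.sin y) = Real.log ‖c‖ ∧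
      Real.log (2 * Real.sin z) - Real.log (2 * Real.sin y) = Real.log ‖1 - c‖ := by
  have sx := Real.sin_pos_of_pos_of_lt_pi hx hx'
  have sy := Real.sin_pos_of_pos_of_lt_pi hy hy'
  have sz := Real.sin_pos_of_pos_of_lt_pi hz hz'
  have him : ∀ (u : ℂ) (t : ℝ), u = ‖u‖ * Complex.exp (t * Complex.I) → u.im = ‖u‖ * Real.sin t := by
    intro u t hu
    have := congrArg Complex.im hu
    rw [Complex.im_ofReal_mul, Complex.exp_ofReal_mul_I_im] at this
    exact this
  -- c is not 0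
  have hc1 : c ≠ 1 := by
    intro hc
    have := him c z h1
    rw [hc] at this
    simp at this
    linarith
  have hc0 : c ≠ 0 := by
    intro hc
    have := him _ y h3
    rw [hc] at this
    simp at this
    linarith
  have hc1' : 1 - c ≠ 0 := sub_ne_zero.2 (Ne.symm hc1)
  have p0 : 0 < ‖c‖ := norm_pos_iff.2 hc0
  have p1 : 0 < ‖1 - c‖ := norm_pos_iff.2 hc1'
  have p2 : 0 < ‖1 / (1 - c)‖ := by
    rw [norm_div, norm_one]
    positivity
  have e3 : 1 - 1 / c = -(1 - c) / c := by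
    field_simp
    ring
  have p3 : 0 < ‖1 - 1 / c‖ := by
    rw [e3, norm_div, norm_neg]
    positivity
  have g1 := him _ z h1
  have g2 := him _ x h2
  have g3 := him _ y h3
  have hic : 0 < c.im := by rw [g1]; positivity
  have k2 : (1 / (1 - c)).im = c.im / ‖1 - c‖ ^ 2 := by
    rw [one_div, Complex.inv_im, Complex.normSq_eq_norm_sq]
    simp
  have k3 : (1 - 1 / c).im = c.im / ‖c‖ ^ 2 := by
    rw [Complex.sub_im, one_div, Complex.inv_im, Complex.normSq_eq_norm_sq]
    simp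
    ring
  have q1 : Real.sin z = c.im / ‖c‖ := by
    rw [g1]; field_simp
  have q2 : Real.sin x = c.im / ‖1 - c‖ := by
    rw [k2, norm_div, norm_one] at g2
    have : Real.sin x = c.im / ‖1 - c‖ ^ 2 * ‖1 - c‖ := by
      rw [g2]; field_simp
    rw [this]
    field_simp
  have q3 : Real.sin y = c.im / (‖c‖ * ‖1 - c‖) := by
    rw [k3, e3, norm_div, norm_neg] at g3
    have : Real.sin y = c.im / ‖c‖ ^ 2 * (‖c‖ / ‖1 - c‖) := by
      rw [g3]; field_simp
    rw [this]
    field_simp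
  refine ⟨hc0, hc1, ?_, ?_, ?_⟩
  · unfold Dv
    rw [arg_eq_of p0 (by linarith) hz'.le h1, arg_eq_of p2 (by linarith) hx'.le h2,
      arg_eq_of p3 (by linarith) hy'.le h3]
    ring
  · rw [← Real.log_div (by positivity) (by positivity)]
    congr 1
    rw [q2, q3]
    field_simp
  · rw [← Real.log_div (by positivity) (by positivity)]
    congr 1
    rw [q1, q3]
    field_simp

end Pool.Agent.W709.VC
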