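import Pool.Agent.W709.VC.Rect

/-! The twist coefficient as a divided difference. -/

set_option autoImplicit false

namespace Pool.Agent.W709.VC

open Filter Finset EvenVol Pool.Agent.H112R4.VL
open scoped Real Topology

/-- the nodes -/
noncomputable def uu (v : ℂ) (j : ℤ) : ℂ := v ^ (2 * j + 1) + v ^ (-(2 * j + 1))

lemma uu_sub {v : ℂ} (hv : v ≠ 0) (k j : ℤ) :
    uu v k - uu v j = br v (k - j) * br v (k + j + 1) := by
  unfold uu br
  have e1 : v ^ (2 * k + 1) = v ^ (k - j) * v ^ (k + j + 1) := by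
    rw [← zpow_add₀ hv]; congr 1; ring
  have e2 : v ^ (-(2 * k + 1)) = v ^ (-(k - j)) * v ^ (-(k + j + 1)) := by
    rw [← zpow_add₀ hv]; congr 1; ring
  have e3 : v ^ (2 * j + 1) = v ^ (-(k - j)) * v ^ (k + j + 1) := by
    rw [← zpow_add₀ hv]; congr 1; ring
  have e4 : v ^ (-(2 * j + 1)) = v ^ (k - j) * v ^ (-(k + j + 1)) := by
    rw [← zpow_add₀ hv]; congr 1; ring
  rw [e1, e2, e3, e4]
  ring

lemma prod_nodes {v : ℂ} (hv : v ≠ 0) (k m : ℕ) :
    (∏ i ∈ (range (k + m + 1)).erase k, (uu v k - uu v i)) * br v ((2 * k + 1 : ℕ) : ℤ) =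
      (-1) ^ m * (brf v m * brf v (k + m + k + 1)) := by
  induction m with
  | zero =>
    have h1 : (range (k + 0 + 1)).erase k = range k := by
      ext x
      simp only [Finset.mem_erase, Finset.mem_range]
      omega
    rw [h1]
    have h2 : brf v (k + 0 + k + 1) = brf v k * ∏ j ∈ range (k + 1), br v ((k : ℤ) + j + 1) := by
      unfold brf
      rw [show k + 0 + k + 1 = k + (k + 1) by ring, Finset.prod_range_add]
      push_cast
      rfl
    have h3 : brf v k = ∏ i ∈ range k, br v ((k : ℤ) - i) := by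
      unfold brf
      rw [← Finset.prod_range_reflect]
      apply Finset.prod_congr rfl
      intro j hj
      rw [Finset.mem_range] at hj
      congr 1
      have : ((k - 1 - j : ℕ) : ℤ) = (k : ℤ) - 1 - j := by omega
      rw [this]
      ring
    rw [h2, Finset.prod_range_succ, h3]
    have h4 : brf v 0 = 1 := by simp [brf]
    rw [h4]
    have h5 : ∏ i ∈ range k, (uu v k - uu v i) =
        (∏ i ∈ range k, br v ((k : ℤ) - i)) * ∏ i ∈ range k, br v ((k : ℤ) + i + 1) := by
      rw [← Finset.prod_mul_distrib]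
      apply Finset.prod_congr rfl
      intro i _
      exact uu_sub hv k i
    rw [h5]
    have h6 : br v ((2 * k + 1 : ℕ) : ℤ) = br v ((k : ℤ) + k + 1) := by
      congr 1
      push_cast
      ring
    rw [h6]
    ring
  | succ m ih =>
    have h1 : (range (k + (m + 1) + 1)).erase k =
        insert (k + m + 1) ((range (k + m + 1)).erase k) := by
      ext x
      simp only [Finset.mem_erase, Finset.mem_range, Finset.mem_insert]
      omega
    have h2 : k + m + 1 ∉ (range (k + m + 1)).erase k := by simp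
    rw [h1, Finset.prod_insert h2]
    have h3 : uu v (k : ℤ) - uu v ((k + m + 1 : ℕ) : ℤ) =
        -(br v ((m : ℤ) + 1) * br v (((k + m + k + 1 : ℕ) : ℤ) + 1)) := by
      rw [uu_sub hv]
      have e1 : (k : ℤ) - ((k + m + 1 : ℕ) : ℤ) = -((m : ℤ) + 1) := by push_cast; ring
      have e2 : (k : ℤ) + ((k + m + 1 : ℕ) : ℤ) + 1 = ((k + m + k + 1 : ℕ) : ℤ) + 1 := by
        push_cast; ring
      rw [e1, e2]
      have e3 : br v (-((m : ℤ) + 1)) = - br v ((m : ℤ) + 1) := by
        unfold br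
        rw [neg_neg]
        ring
      rw [e3]
      ring
    rw [h3, brf_succ v m, show k + (m + 1) + k + 1 = (k + m + k + 1) + 1 by ring,
      brf_succ v (k + m + k + 1)]
    calc _ = -(br v ((m : ℤ) + 1) * br v (((k + m + k + 1 : ℕ) : ℤ) + 1)) *
        ((∏ i ∈ (range (k + m + 1)).erase k, (uu v k - uu v i)) * br v ((2 * k + 1 : ℕ) : ℤ)) := by
          ring
      _ = _ := by
        rw [ih]
        ring

lemma br_ne_of_brf {v : ℂ} {n j : ℕ} (h : brf v n ≠ 0) (hj : j < n) : br v ((j : ℤ) + 1) ≠ 0 := by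
  unfold brf at h
  rw [Finset.prod_ne_zero_iff] at h
  exact h j (Finset.mem_range.2 hj)

/-- distinct nodes -/
lemma uu_inj {v : ℂ} (hv : v ≠ 0) {n : ℕ} (h : brf v (2 * n + 1) ≠ 0) :
    Set.InjOn (fun j : ℕ => uu v (j : ℤ)) (range (n + 1)) := by
  have key : ∀ i j : ℕ, i < j → j ≤ n → uu v (j : ℤ) - uu v (i : ℤ) ≠ 0 := by
    intro i j hij hj
    rw [uu_sub hv]
    apply mul_ne_zero
    · have := br_ne_of_brf (v := v) h (j := j - i - 1) (by omega)
      have e : (((j - i - 1 : ℕ) : ℤ) + 1) = (j : ℤ) - i := by omega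
      rwa [e] at this
    · have := br_ne_of_brf (v := v) h (j := j + i) (by omega)
      have e : (((j + i : ℕ) : ℤ) + 1) = (j : ℤ) + i + 1 := by push_cast; ring
      rwa [e] at this
  intro i hi j hj hij
  simp only [Finset.coe_range, Set.mem_Iio] at hi hj
  simp only at hij
  by_contra hne
  rcases Nat.lt_or_gt_of_ne hne with h1 | h1
  · exact key i j h1 (by omega) (sub_eq_zero.2 hij.symm)
  · exact key j i h1 (by omega) (sub_eq_zero.2 hij)

lemma gamH_nodes {v : ℂ} (hv : v ≠ 0) (a : ℤ) {n : ℕ} (h : brf v (2 * n + 1) ≠ 0) :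
    gamH a v n = brf v n * ∑ k ∈ range (n + 1),
      Lagrange.nodalWeight (range (n + 1)) (fun j : ℕ => uu v (j : ℤ)) k *
        ((-1) ^ k * v ^ (k * (k + 1))) ^ a := by
  unfold gamH
  rw [Finset.mul_sum]
  apply Finset.sum_congr rfl
  intro k hk
  rw [Finset.mem_range] at hk
  obtain ⟨m, rfl⟩ : ∃ m, n = k + m := ⟨n - k, by omega⟩
  have h1 := prod_nodes hv k m
  rw [show k + m - k = m by omega]
  have hb1 : brf v m ≠ 0 := brf_ne_of_le h (by omega)
  have hb2 : brf v (k + m + k + 1) ≠ 0 := brf_ne_of_le h (by omega)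
  have hb3 : br v ((2 * k + 1 : ℕ) : ℤ) ≠ 0 := by
    have := br_ne_of_brf (v := v) h (j := 2 * k) (by omega)
    have e : (((2 * k : ℕ) : ℤ) + 1) = ((2 * k + 1 : ℕ) : ℤ) := by push_cast; ring
    rwa [e] at this
  have hw : Lagrange.nodalWeight (range (k + m + 1)) (fun j : ℕ => uu v (j : ℤ)) k =
      (∏ i ∈ (range (k + m + 1)).erase k, (uu v k - uu v i))⁻¹ := by
    unfold Lagrange.nodalWeight
    rw [Finset.prod_inv_distrib]
  have hs : ((-1 : ℂ) ^ m) ^ 2 = 1 := by rw [← pow_mul, mul_comm, pow_mul]; norm_num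
  have hm0 : ((-1 : ℂ) ^ m) ≠ 0 := pow_ne_zero _ (by norm_num)
  have hprod : (∏ i ∈ (range (k + m + 1)).erase k, (uu v k - uu v i)) =
      (-1) ^ m * (brf v m * brf v (k + m + k + 1)) / br v ((2 * k + 1 : ℕ) : ℤ) := by
    rw [eq_div_iff hb3, h1]
  rw [hw, hprod]
  generalize ((-1 : ℂ) ^ k * v ^ (k * (k + 1))) ^ a = T
  generalize (-1 : ℂ) ^ m = Y at *
  rw [inv_div]
  have e : (1 : ℂ) / (Y * (brf v m * brf v (k + m + k + 1))) =
      Y / (brf v m * brf v (k + m + k + 1)) := by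
    rw [div_eq_div_iff (mul_ne_zero hm0 (mul_ne_zero hb1 hb2)) (mul_ne_zero hb1 hb2)]
    linear_combination (-(brf v m * brf v (k + m + k + 1))) * hs
  rw [← mul_one (br v ((2 * k + 1 : ℕ) : ℤ)), mul_div_assoc, e]
  ring

end Pool.Agent.W709.VC
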