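import Pool.Agent.W709.VC.Up
import Pool.Agent.W305.VC.Pot

/-! Lower bound for one coefficient. -/

set_option autoImplicit false

namespace Pool.Agent.W709.VC

open Filter Finset EvenVol Pool.Agent.H112R4.VL
open scoped Real Topology

lemma ell_abs {h H y τ : ℝ} (hh : 0 < h) (h1 : h ≤ y) (h2 : y ≤ H) :
    |ell y τ| ≤ |Real.log (2 * Real.cosh h - 2)| + |Real.log (2 * Real.cosh H + 2)| := by
  have hy : 0 < y := lt_of_lt_of_le hh h1
  have c1 : 1 < Real.cosh h := Real.one_lt_cosh.2 hh.ne'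
  have c2 : Real.cosh h ≤ Real.cosh y := by
    apply Real.cosh_le_cosh.2
    rw [abs_of_pos hh, abs_of_pos hy]
    exact h1
  have c3 : Real.cosh y ≤ Real.cosh H := by
    apply Real.cosh_le_cosh.2
    rw [abs_of_pos hy, abs_of_pos (lt_of_lt_of_le hy h2)]
    exact h2
  have c4 := Real.neg_one_le_cos τ
  have c5 := Real.cos_le_one τ
  have l1 : Real.log (2 * Real.cosh h - 2) ≤ ell y τ := by
    unfold ell
    apply Real.log_le_log <;> linarith
  have l2 : ell y τ ≤ Real.log (2 * Real.cosh H + 2) := by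
    unfold ell
    apply Real.log_le_log <;> linarith
  rw [abs_le]
  constructor
  · have := neg_abs_le (Real.log (2 * Real.cosh h - 2))
    have := abs_nonneg (Real.log (2 * Real.cosh H + 2))
    linarith
  · have := le_abs_self (Real.log (2 * Real.cosh H + 2))
    have := abs_nonneg (Real.log (2 * Real.cosh h - 2))
    linarith

lemma Lf_lip {h H : ℝ} (hh : 0 < h) : ∃ M : ℝ, 0 ≤ M ∧ ∀ y, h ≤ y → y ≤ H → ∀ x x' : ℝ,
    |Lf y x - Lf y x'| ≤ M * |x - x'| := by
  refine ⟨|Real.log (2 * Real.cosh h - 2)| + |Real.log (2 * Real.cosh H + 2)|, by positivity, ?_⟩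
  intro y h1 h2 x x'
  have hy : 0 < y := lt_of_lt_of_le hh h1
  rw [Pool.Agent.W305.VC.Lf_sub hy x' x, ← Real.norm_eq_abs]
  exact intervalIntegral.norm_integral_le_of_norm_le_const
    (fun τ _ => by rw [Real.norm_eq_abs]; exact ell_abs hh h1 h2)

/-- continuity of the potential in `α`, uniformly -/
lemma pot_unif {h H : ℝ} (hh : 0 < h) (m α₀ : ℝ) {ρ : ℝ} (hρ : 0 < ρ) :
    ∃ δ : ℝ, 0 < δ ∧ ∀ α, |α - α₀| ≤ δ → ∀ b y : ℝ, h ≤ y → y ≤ H →
      |pot m α b y - pot m α₀ b y| ≤ ρ := by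
  obtain ⟨M, hM0, hM⟩ := Lf_lip (H := H) hh
  have hc : ContinuousAt (fun α : ℝ => GapVol.lob (α / 2)) α₀ :=
    (GapVol.lob_cont.comp (continuous_id.div_const 2)).continuousAt
  rw [Metric.continuousAt_iff] at hc
  obtain ⟨δ1, hδ1, hc1⟩ := hc (ρ / 16) (by positivity)
  refine ⟨min (δ1 / 2) (ρ / (4 * (M + 1))), by positivity, ?_⟩
  intro α hα b y h1 h2
  have a1 : |α - α₀| ≤ δ1 / 2 := le_trans hα (min_le_left _ _)
  have a2 : |α - α₀| ≤ ρ / (4 * (M + 1)) := le_trans hα (min_le_right _ _)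
  have k1 := hc1 (x := α) (by rw [Real.dist_eq]; linarith)
  rw [Real.dist_eq] at k1
  have k2 := hM y h1 h2 (b + α) (b + α₀)
  have k3 := hM y h1 h2 (b - α) (b - α₀)
  have e2 : b + α - (b + α₀) = α - α₀ := by ring
  have e3 : b - α - (b - α₀) = -(α - α₀) := by ring
  rw [e2] at k2
  rw [e3, abs_neg] at k3
  have k4 : M * |α - α₀| ≤ ρ / 4 := by
    have hM1 : 0 < M + 1 := by linarith
    rw [le_div_iff₀ (by positivity)] at a2
    nlinarith [abs_nonneg (α - α₀)]
  have hid : pot m α b y - pot m α₀ b y = 8 * (GapVol.lob (α / 2) - GapVol.lob (α₀ / 2)) +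
      (Lf y (b + α) - Lf y (b + α₀)) - (Lf y (b - α) - Lf y (b - α₀)) := by
    unfold pot
    ring
  rw [hid, abs_le]
  rw [abs_le] at k2 k3
  rw [abs_lt] at k1
  constructor <;> linarith [k1.1, k1.2, k2.1, k2.2, k3.1, k3.2]

/-- difference of the potential at two points of the horizontal line -/
lemma pot_diff_lip {h H : ℝ} (hh : 0 < h) (m α₀ : ℝ) : ∃ M : ℝ, 0 ≤ M ∧
    ∀ α b b' y : ℝ, h ≤ y → y ≤ H →
      pot m α b y - pot m α b' y ≤ pot m α₀ b y - pot m α₀ b' y + 4 * M * |α - α₀| := by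
  obtain ⟨M, hM0, hM⟩ := Lf_lip (H := H) hh
  refine ⟨M, hM0, ?_⟩
  intro α b b' y h1 h2
  have k2 := hM y h1 h2 (b + α) (b + α₀)
  have k3 := hM y h1 h2 (b - α) (b - α₀)
  have k4 := hM y h1 h2 (b' + α) (b' + α₀)
  have k5 := hM y h1 h2 (b' - α) (b' - α₀)
  have e2 : b + α - (b + α₀) = α - α₀ := by ring
  have e3 : b - α - (b - α₀) = -(α - α₀) := by ring
  have e4 : b' + α - (b' + α₀) = α - α₀ := by ring
  have e5 : b' - α - (b' - α₀) = -(α - α₀) := by ring
  rw [e2] at k2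
  rw [e3, abs_neg] at k3
  rw [e4] at k4
  rw [e5, abs_neg] at k5
  unfold pot
  rw [abs_le] at k2 k3 k4 k5
  linarith [k2.1, k2.2, k3.1, k3.2, k4.1, k4.2, k5.1, k5.2]

lemma exp_small {c ε : ℝ} (hc : 0 < c) (hε : 0 < ε) :
    ∀ᶠ N : ℕ in atTop, Real.exp (-(ε * N)) ≤ c / Real.sqrt N := by
  have h1 : Tendsto (fun N : ℕ => (ε * (N : ℝ)) ^ 1 * Real.exp (-(ε * N))) atTop (𝓝 0) :=
    (Real.tendsto_pow_mul_exp_neg_atTop_nhds_zero 1).comp
      (Tendsto.const_mul_atTop hε tendsto_natCast_atTop_atTop)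
  have h2 := h1.eventually_lt_const (show (0 : ℝ) < c * ε by positivity)
  filter_upwards [h2, eventually_ge_atTop 1] with N h3 hN
  have hN1 : (1 : ℝ) ≤ N := by exact_mod_cast hN
  have hs : Real.sqrt N ≤ N := by
    rw [Real.sqrt_le_left (by linarith)]
    nlinarith
  have hs0 : 0 < Real.sqrt N := Real.sqrt_pos.2 (by linarith)
  rw [le_div_iff₀ hs0]
  rw [pow_one] at h3
  have h4 : N * Real.exp (-(ε * N)) < c := by
    have : ε * N * Real.exp (-(ε * N)) = ε * (N * Real.exp (-(ε * N))) := by ring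
    rw [this, mul_comm c ε] at h3
    exact lt_of_mul_lt_mul_left h3 hε.le
  have h5 : Real.exp (-(ε * N)) * Real.sqrt N ≤ Real.exp (-(ε * N)) * N :=
    mul_le_mul_of_nonneg_left hs (Real.exp_pos _).le
  linarith

lemma path_sub_le {f : ℂ → ℂ} {h η b B1 B2 B3 B5 : ℝ} (hh : 0 ≤ h) (hη : h ≤ η)
    (hb' : b ≤ π)
    (h1 : ∀ y : ℝ, 0 ≤ y → y ≤ h → ‖f (-π + y * Complex.I)‖ ≤ B1)
    (h2 : ∀ x : ℝ, b ≤ x → x ≤ π → ‖f (-x + h * Complex.I)‖ ≤ B2)
    (h3 : ∀ y : ℝ, h ≤ y → y ≤ η → ‖f (-b + y * Complex.I)‖ ≤ B3)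
    (h5 : ∀ y : ℝ, 0 ≤ y → y ≤ η → ‖f (π + y * Complex.I)‖ ≤ B5) :
    ‖∫ x in (-b)..π, f (x + η * Complex.I)‖ ≤
      ‖path f h η b‖ + (B1 * h + B2 * (π - b) + B3 * (η - h) + B5 * η) := by
  have k1 := int_le (f := fun y : ℝ => f (-π + y * Complex.I)) hh h1
  have k2 := int_le (f := fun x : ℝ => f (x + h * Complex.I)) (a := -π) (b := -b) (by linarith)
    (fun x hx hx' => by
      have := h2 (-x) (by linarith) (by linarith)
      simpa using this)
  have k3 := int_le (f := fun y : ℝ => f (-b + y * Complex.I)) hη h3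
  have k5 := int_le (f := fun y : ℝ => f (π + y * Complex.I)) (le_trans hh hη) h5
  have hid : (∫ x in (-b)..π, f (x + η * Complex.I)) = path f h η b -
      Complex.I * (∫ y in (0:ℝ)..h, f (-π + y * Complex.I)) -
      (∫ x in (-π)..(-b), f (x + h * Complex.I)) -
      Complex.I * (∫ y in h..η, f (-b + y * Complex.I)) +
      Complex.I * (∫ y in (0:ℝ)..η, f (π + y * Complex.I)) := by
    unfold path
    ring
  rw [hid]
  have n1 := norm_add_le (path f h η b -
      Complex.I * (∫ y in (0:ℝ)..h, f (-π + y * Complex.I)) -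
      (∫ x in (-π)..(-b), f (x + h * Complex.I)) -
      Complex.I * (∫ y in h..η, f (-b + y * Complex.I)))
      (Complex.I * (∫ y in (0:ℝ)..η, f (π + y * Complex.I)))
  have n2 := norm_sub_le (path f h η b -
      Complex.I * (∫ y in (0:ℝ)..h, f (-π + y * Complex.I)) -
      (∫ x in (-π)..(-b), f (x + h * Complex.I)))
      (Complex.I * (∫ y in h..η, f (-b + y * Complex.I)))
  have n3 := norm_sub_le (path f h η b -
      Complex.I * (∫ y in (0:ℝ)..h, f (-π + y * Complex.I)))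
      (∫ x in (-π)..(-b), f (x + h * Complex.I))
  have n4 := norm_sub_le (path f h η b)
      (Complex.I * (∫ y in (0:ℝ)..h, f (-π + y * Complex.I)))
  simp only [norm_mul, Complex.norm_I, one_mul] at n1 n2 n3 n4
  linarith

lemma Fint_contAt (A : ℕ) {N d : ℕ} (hN : 0 < N) {η : ℝ} (hη : 0 < η) :
    Continuous (fun x : ℝ => Fint A N d (x + η * Complex.I)) := by
  rw [continuous_iff_continuousAt]
  intro x
  unfold Fint RR
  apply ContinuousAt.div
  · fun_prop
  · fun_prop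
  · have := cosNe hN (b := -x) hη
    simpa using this

end Pool.Agent.W709.VC
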