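import Pool.Agent.W709.VC.Ang1

/-! The maximal angle structure. -/

set_option autoImplicit false

namespace Pool.Agent.W709.VC

open Filter Finset EvenVol
open scoped Real Topology ComplexConjugate

lemma Sk_ne {η b : ℝ} {k : ℕ} (hb : 0 < b) (hk : 1 ≤ k) (hkb : k * (b / 2) < π) :
    Sk η b k ≠ 0 := by
  have h1 := Sk_im_pos (η := η) hb hk hkb
  intro h
  rw [h] at h1
  simp at h1

lemma Sk_polar (η b : ℝ) (k : ℕ) :
    Sk η b k = ‖Sk η b k‖ * Complex.exp (ak η b k * Complex.I) :=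
  (Complex.norm_mul_exp_arg_mul_I _).symm

lemma Sk_id (η b : ℝ) (i : ℕ) :
    Sk η b (i + 1) ^ 2 - Sk η b i * Sk η b (i + 2) = Sk η b 1 ^ 2 := by
  unfold Sk
  have e0 : ((i : ℕ) : ℂ) * rho η b = ((i + 1 : ℕ) : ℂ) * rho η b - rho η b := by push_cast; ring
  have e2 : ((i + 2 : ℕ) : ℂ) * rho η b = ((i + 1 : ℕ) : ℂ) * rho η b + rho η b := by
    push_cast; ring
  have e1 : ((1 : ℕ) : ℂ) * rho η b = rho η b := by push_cast; ring
  rw [e0, e2, e1, Complex.sinh_sub, Complex.sinh_add]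
  have h1 := Complex.cosh_sq (((i + 1 : ℕ) : ℂ) * rho η b)
  have h2 := Complex.cosh_sq (rho η b)
  linear_combination (-(Complex.sinh (((i + 1 : ℕ) : ℂ) * rho η b)) ^ 2) * h2 +
    (Complex.sinh (rho η b)) ^ 2 * h1

section
variable {η b : ℝ} {i : ℕ}

lemma one_sub_ck (h1 : Sk η b 1 ≠ 0) :
    1 - ck η b i = -(Sk η b i * Sk η b (i + 2)) / Sk η b 1 ^ 2 := by
  have := Sk_id η b i
  unfold ck
  field_simp
  linear_combination (-1 : ℂ) * this

lemma one_sub_inv_ck (_h1 : Sk η b 1 ≠ 0) (h2 : Sk η b (i + 1) ≠ 0) :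
    1 - 1 / ck η b i = (Sk η b i * Sk η b (i + 2)) / Sk η b (i + 1) ^ 2 := by
  have := Sk_id η b i
  unfold ck
  field_simp
  linear_combination this

lemma ck_polar : ck η b i = ‖ck η b i‖ *
    Complex.exp (((2 * (ak η b (i + 1) - ak η b 1) : ℝ) : ℂ) * Complex.I) := by
  have p1 := Sk_polar η b (i + 1)
  have p2 := Sk_polar η b 1
  unfold ck
  nth_rw 1 [p1, p2]
  rw [norm_div, norm_pow, norm_pow]
  have : ((2 * (ak η b (i + 1) - ak η b 1) : ℝ) : ℂ) * Complex.I =
      2 * (ak η b (i + 1) * Complex.I) - 2 * (ak η b 1 * Complex.I) := by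
    push_cast; ring
  rw [this, Complex.exp_sub, two_mul, two_mul, Complex.exp_add, Complex.exp_add]
  push_cast
  have e1 := Complex.exp_ne_zero (ak η b 1 * Complex.I)
  ring_nf

lemma ck_polar2 (h1 : Sk η b 1 ≠ 0) : 1 / (1 - ck η b i) = ‖1 / (1 - ck η b i)‖ *
    Complex.exp (((π - (ak η b i + ak η b (i + 2) - 2 * ak η b 1) : ℝ) : ℂ) * Complex.I) := by
  have p0 := Sk_polar η b i
  have p1 := Sk_polar η b (i + 2)
  have p2 := Sk_polar η b 1
  rw [one_sub_ck h1]
  have hn : ‖1 / (-(Sk η b i * Sk η b (i + 2)) / Sk η b 1 ^ 2)‖ =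
      ‖Sk η b 1‖ ^ 2 / (‖Sk η b i‖ * ‖Sk η b (i + 2)‖) := by
    rw [norm_div, norm_div, norm_neg, norm_mul, norm_pow, norm_one, one_div, inv_div]
  rw [hn]
  nth_rw 1 [p0, p1, p2]
  have : ((π - (ak η b i + ak η b (i + 2) - 2 * ak η b 1) : ℝ) : ℂ) * Complex.I =
      π * Complex.I + (ak η b 1 * Complex.I + ak η b 1 * Complex.I) -
        (ak η b i * Complex.I + ak η b (i + 2) * Complex.I) := by
    push_cast; ring
  rw [this, Complex.exp_sub, Complex.exp_add, Complex.exp_add, Complex.exp_add,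
    Complex.exp_pi_mul_I]
  push_cast
  have e1 := Complex.exp_ne_zero (ak η b 1 * Complex.I)
  have e2 := Complex.exp_ne_zero (ak η b i * Complex.I)
  have e3 := Complex.exp_ne_zero (ak η b (i + 2) * Complex.I)
  generalize Complex.exp (ak η b 1 * Complex.I) = E1 at *
  generalize Complex.exp (ak η b i * Complex.I) = E2 at *
  generalize Complex.exp (ak η b (i + 2) * Complex.I) = E3 at *
  generalize ((‖Sk η b 1‖ : ℝ) : ℂ) = N1
  generalize ((‖Sk η b i‖ : ℝ) : ℂ) = N2
  generalize ((‖Sk η b (i + 2)‖ : ℝ) : ℂ) = N3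
  rw [one_div, inv_div]
  rw [show -(N2 * E2 * (N3 * E3)) = -((N2 * N3) * (E2 * E3)) by ring, div_neg, mul_pow,
    mul_div_mul_comm]
  ring

lemma ck_polar3 (h1 : Sk η b 1 ≠ 0) (h2 : Sk η b (i + 1) ≠ 0) :
    1 - 1 / ck η b i = ‖1 - 1 / ck η b i‖ *
    Complex.exp (((ak η b i + ak η b (i + 2) - 2 * ak η b (i + 1) : ℝ) : ℂ) * Complex.I) := by
  have p0 := Sk_polar η b i
  have p1 := Sk_polar η b (i + 2)
  have p2 := Sk_polar η b (i + 1)
  rw [one_sub_inv_ck h1 h2]
  have hn : ‖Sk η b i * Sk η b (i + 2) / Sk η b (i + 1) ^ 2‖ =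
      ‖Sk η b i‖ * ‖Sk η b (i + 2)‖ / ‖Sk η b (i + 1)‖ ^ 2 := by
    rw [norm_div, norm_mul, norm_pow]
  rw [hn]
  nth_rw 1 [p0, p1, p2]
  have : ((ak η b i + ak η b (i + 2) - 2 * ak η b (i + 1) : ℝ) : ℂ) * Complex.I =
      (ak η b i * Complex.I + ak η b (i + 2) * Complex.I) -
        (ak η b (i + 1) * Complex.I + ak η b (i + 1) * Complex.I) := by
    push_cast; ring
  rw [this, Complex.exp_sub, Complex.exp_add, Complex.exp_add]
  push_cast
  generalize Complex.exp (ak η b (i + 1) * Complex.I) = E1 at *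
  generalize Complex.exp (ak η b i * Complex.I) = E2 at *
  generalize Complex.exp (ak η b (i + 2) * Complex.I) = E3 at *
  generalize ((‖Sk η b (i + 1)‖ : ℝ) : ℂ) = N1
  generalize ((‖Sk η b i‖ : ℝ) : ℂ) = N2
  generalize ((‖Sk η b (i + 2)‖ : ℝ) : ℂ) = N3
  rw [show N2 * E2 * (N3 * E3) = (N2 * N3) * (E2 * E3) by ring, mul_pow, mul_div_mul_comm]
  ring

end

/-- hypotheses on the hinge -/
structure Hinge (h : ℕ) (η b : ℝ) : Prop where
  hh : 2 ≤ h
  hη : 0 < η
  hb : 0 < b
  hbb : ((h + 1 : ℕ) : ℝ) * (b / 2) < π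
  im : 0 < (ck η b h).im
  nrm : ‖ck η b h‖ = 1
  eq : ‖1 - ck η b h‖ = ‖ck η b (h - 1)‖

section
variable {h : ℕ} {η b : ℝ} (H : Hinge h η b)
include H

lemma Hinge.le {k : ℕ} (hk : k ≤ h + 1) : (k : ℝ) * (b / 2) < π := by
  have h1 : (k : ℝ) ≤ ((h + 1 : ℕ) : ℝ) := by exact_mod_cast hk
  have h2 := H.hb
  have h3 := H.hbb
  nlinarith

lemma Hinge.ne {k : ℕ} (hk : 1 ≤ k) (hk' : k ≤ h + 1) : Sk η b k ≠ 0 :=
  Sk_ne H.hb hk (H.le hk')

lemma Hinge.lt {k : ℕ} (hk : 1 ≤ k) (hk' : k ≤ h) : ak η b k < ak η b (k + 1) :=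
  ak_lt H.hη H.hb hk (H.le (by omega))

lemma Hinge.mono {k l : ℕ} (hk : 1 ≤ k) (hkl : k ≤ l) (hl : l ≤ h + 1) :
    ak η b k ≤ ak η b l := by
  induction l, hkl using Nat.le_induction with
  | base => exact le_rfl
  | succ l hkl ih => exact le_trans (ih (by omega)) (H.lt (by omega) (by omega)).le

lemma Hinge.mem {k : ℕ} (hk : 1 ≤ k) (hk' : k ≤ h + 1) : 0 < ak η b k ∧ ak η b k < π :=
  arg_mem (Sk_im_pos H.hb hk (H.le hk'))

lemma Hinge.top : 2 * (ak η b (h + 1) - ak η b 1) < π := by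
  have hh := H.hh
  have h1 := H.mem (k := h + 1) (by omega) le_rfl
  have h2 := H.mem (k := 1) le_rfl (by omega)
  have h3 := ck_polar (η := η) (b := b) (i := h)
  rw [H.nrm] at h3
  have h4 := congrArg Complex.im h3
  rw [Complex.im_ofReal_mul, Complex.exp_ofReal_mul_I_im, one_mul] at h4
  have h5 := H.im
  rw [h4] at h5
  by_contra hc
  push Not at hc
  have h6 : Real.sin (2 * (ak η b (h + 1) - ak η b 1)) ≤ 0 := by
    have h7 : Real.sin (2 * (ak η b (h + 1) - ak η b 1) - 2 * π) ≤ 0 :=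
      Real.sin_nonpos_of_nonpos_of_neg_pi_le (by linarith [h1.2, h2.1]) (by linarith)
    rwa [Real.sin_sub_two_pi] at h7
  linarith

/-- angles of a layer in the twist region -/
lemma Hinge.layer {i : ℕ} (hi : 1 ≤ i) (hi' : i + 1 ≤ h) :
    0 < π - (ak η b i + ak η b (i + 2) - 2 * ak η b 1) ∧
    0 < ak η b i + ak η b (i + 2) - 2 * ak η b (i + 1) ∧
    0 < 2 * (ak η b (i + 1) - ak η b 1) ∧
    Dv (ck η b i) = GapVol.lob (π - (ak η b i + ak η b (i + 2) - 2 * ak η b 1)) +
      GapVol.lob (ak η b i + ak η b (i + 2) - 2 * ak η b (i + 1)) +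
      GapVol.lob (2 * (ak η b (i + 1) - ak η b 1)) ∧
    Real.log (2 * Real.sin (π - (ak η b i + ak η b (i + 2) - 2 * ak η b 1))) -
      Real.log (2 * Real.sin (ak η b i + ak η b (i + 2) - 2 * ak η b (i + 1))) =
        2 * (lk η b (i + 1) - lk η b 1) ∧
    Real.log (2 * Real.sin (2 * (ak η b (i + 1) - ak η b 1))) -
      Real.log (2 * Real.sin (ak η b i + ak η b (i + 2) - 2 * ak η b (i + 1))) =
        lk η b i + lk η b (i + 2) - 2 * lk η b 1 := by
  have hh := H.hh
  have n1 := H.ne (k := 1) le_rfl (by omega)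
  have ni := H.ne (k := i) hi (by omega)
  have ni1 := H.ne (k := i + 1) (by omega) (by omega)
  have ni2 := H.ne (k := i + 2) (by omega) (by omega)
  have m1 := H.mono (k := 1) (l := i) le_rfl hi (by omega)
  have m2 := H.lt (k := i) hi (by omega)
  have m3 := H.lt (k := i + 1) (by omega) (by omega)
  have m4 := H.mono (k := i + 2) (l := h + 1) (by omega) (by omega) le_rfl
  have top := H.top
  have e2 : i + 1 + 1 = i + 2 := rfl
  rw [e2] at m3
  have hx : 0 < π - (ak η b i + ak η b (i + 2) - 2 * ak η b 1) := by linarith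
  have hx' : π - (ak η b i + ak η b (i + 2) - 2 * ak η b 1) < π := by linarith
  have hz : 0 < 2 * (ak η b (i + 1) - ak η b 1) := by linarith
  have hz' : 2 * (ak η b (i + 1) - ak η b 1) < π := by linarith
  -- the angle y
  have hp3 := ck_polar3 (η := η) (b := b) (i := i) n1 ni1
  have hp1 := ck_polar (η := η) (b := b) (i := i)
  have hcim : 0 < (ck η b i).im := by
    have h4 := congrArg Complex.im hp1
    rw [Complex.im_ofReal_mul, Complex.exp_ofReal_mul_I_im] at h4
    rw [h4]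
    apply mul_pos
    · rw [norm_pos_iff]
      unfold ck
      exact div_ne_zero (pow_ne_zero _ ni1) (pow_ne_zero _ n1)
    · exact Real.sin_pos_of_pos_of_lt_pi hz hz'
  have hcne : ck η b i ≠ 0 := by
    intro h0
    rw [h0] at hcim
    simp at hcim
  have hy0 : 0 < Real.sin (ak η b i + ak η b (i + 2) - 2 * ak η b (i + 1)) := by
    have h4 := congrArg Complex.im hp3
    rw [Complex.im_ofReal_mul, Complex.exp_ofReal_mul_I_im] at h4
    have h5 : 0 < (1 - 1 / ck η b i).im := by
      rw [Complex.sub_im, one_div, Complex.inv_im, Complex.normSq_eq_norm_sq]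
      have : 0 < ‖ck η b i‖ := norm_pos_iff.2 hcne
      have h6 : (1 : ℂ).im - -(ck η b i).im / ‖ck η b i‖ ^ 2 = (ck η b i).im / ‖ck η b i‖ ^ 2 := by
        simp
        ring
      rw [h6]
      positivity
    rw [h4] at h5
    by_contra hc
    push Not at hc
    have : ‖1 - 1 / ck η b i‖ * Real.sin (ak η b i + ak η b (i + 2) - 2 * ak η b (i + 1)) ≤ 0 :=
      mul_nonpos_of_nonneg_of_nonpos (norm_nonneg _) hc
    linarith
  have hy : 0 < ak η b i + ak η b (i + 2) - 2 * ak η b (i + 1) := by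
    by_contra hc
    push Not at hc
    have : Real.sin (ak η b i + ak η b (i + 2) - 2 * ak η b (i + 1)) ≤ 0 :=
      Real.sin_nonpos_of_nonpos_of_neg_pi_le hc (by linarith)
    linarith
  have hy' : ak η b i + ak η b (i + 2) - 2 * ak η b (i + 1) < π := by linarith
  obtain ⟨_, _, r1, r2, r3⟩ := Pool.Agent.W709.VC.layer hx hx' hy hy' hz hz' hp1 (ck_polar2 n1) hp3
  refine ⟨hx, hy, hz, r1, ?_, ?_⟩
  · rw [r2]
    unfold ck lk
    rw [norm_div, norm_pow, norm_pow, Real.log_div (by positivity) (by positivity), Real.log_pow,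
      Real.log_pow]
    push_cast
    ring
  · rw [r3, one_sub_ck n1]
    unfold lk
    rw [norm_div, norm_neg, norm_mul, norm_pow, Real.log_div (by positivity) (by positivity),
      Real.log_mul (by positivity) (by positivity), Real.log_pow]
    push_cast
    ring

/-- angles of the hinge layer -/
lemma Hinge.hinge {y z : ℝ} (hz : z = 2 * (ak η b (h + 1) - ak η b 1)) (hy : y = (π - z) / 2) :
    0 < y ∧ 0 < z ∧ Dv (ck η b h) = GapVol.lob y + GapVol.lob y + GapVol.lob z ∧
    Real.log (2 * Real.sin z) - Real.log (2 * Real.sin y) = 2 * (lk η b h - lk η b 1) ∧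
    2 * (lk η b (h + 1) - lk η b 1) = 0 := by
  have hh := H.hh
  have n1 := H.ne (k := 1) le_rfl (by omega)
  have nh := H.ne (k := h) (by omega) (by omega)
  have nh1 := H.ne (k := h + 1) (by omega) le_rfl
  have top := H.top
  have m1 := H.lt (k := 1) le_rfl (by omega)
  have m2 := H.mono (k := 2) (l := h + 1) (by omega) (by omega) le_rfl
  have hz0 : 0 < z := by rw [hz]; linarith
  have hz1 : z < π := by rw [hz]; exact top
  have hy0 : 0 < y := by rw [hy]; linarith
  have hy1 : y < π := by rw [hy]; linarith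
  have hp1 := ck_polar (η := η) (b := b) (i := h)
  rw [← hz] at hp1
  have hc : ck η b h = Complex.exp (z * Complex.I) := by
    rw [hp1, H.nrm]
    simp
  -- `1 - c = 2 sin (z/2) * exp(-(π - z)/2 i)`
  have hsin : 0 < Real.sin (z / 2) := Real.sin_pos_of_pos_of_lt_pi (by linarith) (by linarith)
  have h1c : 1 - ck η b h = ((2 * Real.sin (z / 2) : ℝ) : ℂ) * Complex.exp (-(y * Complex.I)) := by
    rw [hc, hy]
    have e1 : Complex.exp (z * Complex.I) =
        Complex.exp ((z / 2) * Complex.I) * Complex.exp ((z / 2) * Complex.I) := by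
      rw [← Complex.exp_add]; congr 1; ring
    have e2 : Complex.exp (-((((π - z) / 2 : ℝ) : ℂ) * Complex.I)) =
        Complex.exp (-(π / 2 * Complex.I)) * Complex.exp ((z / 2) * Complex.I) := by
      rw [← Complex.exp_add]; congr 1; push_cast; ring
    have e3 : Complex.exp (-(π / 2 * Complex.I)) = -Complex.I := by
      rw [Complex.exp_neg, Complex.exp_pi_div_two_mul_I, Complex.inv_I]
    have e4 : ((Real.sin (z / 2) : ℝ) : ℂ) = (Complex.exp (-(z / 2) * Complex.I) -
        Complex.exp ((z / 2) * Complex.I)) * Complex.I / 2 := by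
      rw [Complex.ofReal_sin, Complex.sin]
      push_cast
      ring
    have e5 : Complex.exp (-(z / 2) * Complex.I) * Complex.exp ((z / 2) * Complex.I) = 1 := by
      rw [← Complex.exp_add]
      have : -((z : ℂ) / 2) * Complex.I + z / 2 * Complex.I = 0 := by ring
      rw [this, Complex.exp_zero]
    rw [e1, e2, e3]
    push_cast
    rw [← Complex.ofReal_ofNat, ← Complex.ofReal_div, ← Complex.ofReal_sin, e4]
    push_cast
    linear_combination (-1 : ℂ) * e5 + (Complex.exp (-(z / 2) * Complex.I) *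
      Complex.exp (z / 2 * Complex.I) - Complex.exp (z / 2 * Complex.I) ^ 2) *
      (Complex.I_sq)
  have hexp1 : ‖Complex.exp (-(y * Complex.I))‖ = 1 := by
    rw [← neg_mul, ← Complex.ofReal_neg, Complex.norm_exp_ofReal_mul_I]
  have hn1 : ‖1 - ck η b h‖ = 2 * Real.sin (z / 2) := by
    rw [h1c, norm_mul, hexp1, mul_one, Complex.norm_real, Real.norm_eq_abs,
      abs_of_pos (by positivity)]
  have hp2 : 1 / (1 - ck η b h) = ‖1 / (1 - ck η b h)‖ * Complex.exp (y * Complex.I) := by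
    rw [norm_div, norm_one, hn1]
    rw [h1c, Complex.exp_neg]
    push_cast
    have := Complex.exp_ne_zero (y * Complex.I)
    field_simp
  have hcn : ck η b h ≠ 0 := by rw [hc]; exact Complex.exp_ne_zero _
  have h3c : 1 - 1 / ck η b h = -(1 - ck η b h) / ck η b h := by
    field_simp
    ring
  have hp3 : 1 - 1 / ck η b h = ‖1 - 1 / ck η b h‖ * Complex.exp (y * Complex.I) := by
    rw [h3c, norm_div, norm_neg, hn1, H.nrm, div_one]
    rw [h1c, hc]
    have e6 : Complex.exp (y * Complex.I) * Complex.exp (y * Complex.I) *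
        Complex.exp (z * Complex.I) = -1 := by
      rw [← Complex.exp_add, ← Complex.exp_add]
      have : (y : ℂ) * Complex.I + y * Complex.I + z * Complex.I = π * Complex.I := by
        rw [hy]; push_cast; ring
      rw [this, Complex.exp_pi_mul_I]
    rw [Complex.exp_neg]
    have n1 := Complex.exp_ne_zero (y * Complex.I)
    have n2 := Complex.exp_ne_zero (z * Complex.I)
    generalize Complex.exp (y * Complex.I) = E1 at *
    generalize Complex.exp (z * Complex.I) = E2 at *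
    generalize ((2 * Real.sin (z / 2) : ℝ) : ℂ) = S2 at *
    field_simp
    linear_combination (-S2) * e6
  obtain ⟨_, _, r1, _, r3⟩ := Pool.Agent.W709.VC.layer hy0 hy1 hy0 hy1 hz0 hz1 hp1 hp2 hp3
  refine ⟨hy0, hz0, r1, ?_, ?_⟩
  · rw [r3, H.eq]
    unfold ck lk
    have : h - 1 + 1 = h := by omega
    rw [this, norm_div, norm_pow, norm_pow, Real.log_div (by positivity) (by positivity),
      Real.log_pow, Real.log_pow]
    push_cast
    ring
  · have h5 := H.nrm
    have h6 := congrArg Real.log h5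
    rw [Real.log_one] at h6
    rw [← h6]
    unfold ck lk
    rw [norm_div, norm_pow, norm_pow, Real.log_div (by positivity) (by positivity),
      Real.log_pow, Real.log_pow]
    push_cast
    ring

end

end Pool.Agent.W709.VC
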