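import Pool.Agent.W709.VC.Ang2

/-! The maximum of the volume functional. -/

set_option autoImplicit false

namespace Pool.Agent.W709.VC

open Filter Finset EvenVol
open scoped Real Topology ComplexConjugate

lemma sum_split (h : ℕ) (hh : 2 ≤ h) (f : ℕ → ℝ) :
    ∑ i ∈ Icc 1 (h + 1 + (h + 1) - 3), f i = ∑ i ∈ Ico 1 h, (f i + f (2 * h - i)) + f h := by
  have e1 : Icc 1 (h + 1 + (h + 1) - 3) = Ico 1 (2 * h) := by
    ext x
    simp only [Finset.mem_Icc, Finset.mem_Ico]
    omega
  rw [e1, ← Finset.sum_Ico_consecutive f (show 1 ≤ h by omega) (show h ≤ 2 * h by omega),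
    ← Finset.sum_Ico_consecutive f (show h ≤ h + 1 by omega) (show h + 1 ≤ 2 * h by omega),
    Finset.sum_add_distrib]
  have h1 : ∑ i ∈ Ico h (h + 1), f i = f h := by
    rw [Nat.Ico_succ_singleton, Finset.sum_singleton]
  have h2 : ∑ i ∈ Ico 1 h, f (2 * h - i) = ∑ i ∈ Ico (h + 1) (2 * h), f i := by
    rw [Finset.sum_Ico_reflect f 1 (show h ≤ 2 * h + 1 by omega)]
    congr 1
    ext x
    simp only [Finset.mem_Ico]
    omega
  rw [h1, h2]
  ring

/-- telescoping -/
lemma tele (u δ : ℕ → ℝ) (h : ℕ) (hh : 1 ≤ h) :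
    ∑ i ∈ Ico 1 h, ((δ (i - 1) + δ (i + 1)) / 2 * u i - δ i * ((u (i - 1) + u (i + 1)) / 2)) =
      (δ 0 * u 1 - δ 1 * u 0 - (δ (h - 1) * u h - δ h * u (h - 1))) / 2 := by
  induction h, hh using Nat.le_induction with
  | base => simp
  | succ h hh ih =>
    rw [Finset.sum_Ico_succ_top hh, ih]
    have : h + 1 - 1 = h := by omega
    rw [this]
    ring

/-- the maximal angle structure -/
noncomputable def ws (h : ℕ) (η b : ℝ) (i : ℕ) : ℝ :=
  π - 2 * (ak η b (min i (2 * h - i) + 1) - ak η b 1)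

lemma ws_left {h i : ℕ} (η b : ℝ) (hi : i ≤ h) : ws h η b i = π - 2 * (ak η b (i + 1) - ak η b 1) := by
  unfold ws
  rw [min_eq_left (by omega)]

lemma ws_symm {h i : ℕ} (η b : ℝ) (hi : i ≤ 2 * h) : ws h η b (2 * h - i) = ws h η b i := by
  unfold ws
  have : 2 * h - (2 * h - i) = i := by omega
  rw [this, min_comm]

lemma lay_x {h i : ℕ} (η b : ℝ) (hi : 1 ≤ i) (hi' : i + 1 ≤ h) :
    xa (h + 1) (ws h η b) i = π - (ak η b i + ak η b (i + 2) - 2 * ak η b 1) := by
  unfold xa
  rw [if_neg (by omega), ws_left η b (show i - 1 ≤ h by omega), ws_left η b (show i + 1 ≤ h by omega),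
    show i - 1 + 1 = i by omega]
  ring

lemma lay_y {h i : ℕ} (η b : ℝ) (hi : 1 ≤ i) (hi' : i + 1 ≤ h) :
    ya (h + 1) (ws h η b) i = ak η b i + ak η b (i + 2) - 2 * ak η b (i + 1) := by
  unfold ya
  rw [if_neg (by omega), ws_left η b (show i - 1 ≤ h by omega), ws_left η b (show i + 1 ≤ h by omega),
    ws_left η b (show i ≤ h by omega), show i - 1 + 1 = i by omega]
  ring

lemma lay_z {h i : ℕ} (η b : ℝ) (hi' : i ≤ h) :
    za (ws h η b) i = 2 * (ak η b (i + 1) - ak η b 1) := by
  unfold za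
  rw [ws_left η b hi']
  ring

/-- mirror images of the layers, for an arbitrary `w` -/
lemma mir_x {h i : ℕ} (w : ℕ → ℝ) (hi : 1 ≤ i) (hi' : i + 1 ≤ h) :
    xa (h + 1) w (2 * h - i) = (w (2 * h - (i - 1)) + w (2 * h - (i + 1))) / 2 := by
  unfold xa
  rw [if_neg (by omega), show 2 * h - i - 1 = 2 * h - (i + 1) by omega,
    show 2 * h - i + 1 = 2 * h - (i - 1) by omega]
  ring

lemma mir_y {h i : ℕ} (w : ℕ → ℝ) (hi : 1 ≤ i) (hi' : i + 1 ≤ h) :
    ya (h + 1) w (2 * h - i) =
      (2 * w (2 * h - i) - w (2 * h - (i - 1)) - w (2 * h - (i + 1))) / 2 := by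
  unfold ya
  rw [if_neg (by omega), show 2 * h - i - 1 = 2 * h - (i + 1) by omega,
    show 2 * h - i + 1 = 2 * h - (i - 1) by omega]
  ring

lemma reg_x {h i : ℕ} (w : ℕ → ℝ) (hi' : i + 1 ≤ h) :
    xa (h + 1) w i = (w (i - 1) + w (i + 1)) / 2 := by
  unfold xa
  rw [if_neg (by omega)]

lemma reg_y {h i : ℕ} (w : ℕ → ℝ) (hi' : i + 1 ≤ h) :
    ya (h + 1) w i = (2 * w i - w (i - 1) - w (i + 1)) / 2 := by
  unfold ya
  rw [if_neg (by omega)]

theorem greatest (hT : S_TET) {h : ℕ} {η b : ℝ} (H : Hinge h η b) :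
    IsGreatest {V : ℝ | ∃ w, IsAngle (h + 1) (h + 1) w ∧ volw (h + 1) (h + 1) w = V}
      (4 * ∑ i ∈ Ico 1 h, Dv (ck η b i) + 2 * Dv (ck η b h)) := by
  have hh := H.hh
  have hm1 : h + 1 + (h + 1) - 2 = 2 * h := by omega
  -- symmetric values at the mirror layers
  have sx : ∀ i, 1 ≤ i → i + 1 ≤ h → xa (h + 1) (ws h η b) (2 * h - i) =
      π - (ak η b i + ak η b (i + 2) - 2 * ak η b 1) := by
    intro i hi hi'
    rw [mir_x _ hi hi', ws_symm η b (by omega), ws_symm η b (by omega), ← lay_x η b hi hi',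
      reg_x _ hi']
  have sy : ∀ i, 1 ≤ i → i + 1 ≤ h → ya (h + 1) (ws h η b) (2 * h - i) =
      ak η b i + ak η b (i + 2) - 2 * ak η b (i + 1) := by
    intro i hi hi'
    rw [mir_y _ hi hi', ws_symm η b (by omega), ws_symm η b (by omega), ws_symm η b (by omega),
      ← lay_y η b hi hi', reg_y _ hi']
  have sz : ∀ i, 1 ≤ i → i + 1 ≤ h → za (ws h η b) (2 * h - i) =
      2 * (ak η b (i + 1) - ak η b 1) := by
    intro i hi hi'
    have : za (ws h η b) (2 * h - i) = za (ws h η b) i := by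
      unfold za
      rw [ws_symm η b (by omega)]
    rw [this, lay_z η b (by omega)]
  -- the hinge
  have hwh : ws h η b h = π - 2 * (ak η b (h + 1) - ak η b 1) := ws_left η b le_rfl
  have hsym1 : ws h η b (h + 1) = ws h η b (h - 1) := by
    have := ws_symm (h := h) (i := h - 1) η b (by omega)
    rw [show 2 * h - (h - 1) = h + 1 by omega] at this
    exact this
  obtain ⟨gy, gz, gD, gR, gU⟩ := H.hinge (z := 2 * (ak η b (h + 1) - ak η b 1))
    (y := (π - 2 * (ak η b (h + 1) - ak η b 1)) / 2) rfl rfl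
  have hx : xa (h + 1) (ws h η b) h = (π - 2 * (ak η b (h + 1) - ak η b 1)) / 2 := by
    unfold xa
    rw [if_pos rfl, hsym1, hwh]
    ring
  have hy : ya (h + 1) (ws h η b) h = (π - 2 * (ak η b (h + 1) - ak η b 1)) / 2 := by
    unfold ya
    rw [if_pos rfl, hsym1, hwh]
    ring
  have hz : za (ws h η b) h = 2 * (ak η b (h + 1) - ak η b 1) := lay_z η b le_rfl
  constructor
  · refine ⟨ws h η b, ⟨?_, ?_, ?_⟩, ?_⟩
    · rw [ws_left η b (by omega)]
      simp
    · rw [hm1]
      have := ws_symm (h := h) (i := 0) η b (by omega)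
      rw [Nat.sub_zero] at this
      rw [this, ws_left η b (by omega)]
      simp
    · intro i hi1 hi2
      rcases Nat.lt_trichotomy i h with hi | hi | hi
      · obtain ⟨r1, r2, r3, _⟩ := H.layer hi1 (show i + 1 ≤ h by omega)
        rw [lay_x η b hi1 (by omega), lay_y η b hi1 (by omega), lay_z η b (by omega)]
        exact ⟨r1, r2, r3⟩
      · rw [hi, hx, hy, hz]
        exact ⟨gy, gy, gz⟩
      · obtain ⟨r1, r2, r3, _⟩ := H.layer (i := 2 * h - i) (by omega) (by omega)
        have e : i = 2 * h - (2 * h - i) := by omega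
        rw [e, sx _ (by omega) (by omega), sy _ (by omega) (by omega), sz _ (by omega) (by omega)]
        exact ⟨r1, r2, r3⟩
    · unfold volw
      rw [sum_split h hh]
      have e1 : ∀ i ∈ Ico 1 h, (2 * (GapVol.lob (xa (h + 1) (ws h η b) i) +
          GapVol.lob (ya (h + 1) (ws h η b) i) + GapVol.lob (za (ws h η b) i)) +
          2 * (GapVol.lob (xa (h + 1) (ws h η b) (2 * h - i)) +
          GapVol.lob (ya (h + 1) (ws h η b) (2 * h - i)) +
          GapVol.lob (za (ws h η b) (2 * h - i)))) = 4 * Dv (ck η b i) := by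
        intro i hi
        rw [Finset.mem_Ico] at hi
        obtain ⟨_, _, _, r4, _⟩ := H.layer hi.1 (show i + 1 ≤ h by omega)
        rw [lay_x η b hi.1 (by omega), lay_y η b hi.1 (by omega), lay_z η b (by omega),
          sx i hi.1 (by omega), sy i hi.1 (by omega), sz i hi.1 (by omega), r4]
        ring
      rw [Finset.sum_congr rfl e1, ← Finset.mul_sum, hx, hy, hz, gD]
  · rintro V ⟨w, ⟨hw0, hw1, hw2⟩, rfl⟩
    rw [hm1] at hw1
    set u : ℕ → ℝ := fun k => 2 * (lk η b (k + 1) - lk η b 1) with hu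
    set δ : ℕ → ℝ := fun k => w k - ws h η b k with hδ
    set δ' : ℕ → ℝ := fun k => w (2 * h - k) - ws h η b (2 * h - k) with hδ'
    have hu0 : u 0 = 0 := by simp [hu]
    have huh : u h = 0 := gU
    have hδ0 : δ 0 = 0 := by
      simp only [hδ]
      rw [hw0, ws_left η b (by omega)]
      simp
    have hδ0' : δ' 0 = 0 := by
      simp only [hδ', Nat.sub_zero]
      have := ws_symm (h := h) (i := 0) η b (by omega)
      rw [Nat.sub_zero] at this
      rw [hw1, this, ws_left η b (by omega)]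
      simp
    have hδh : δ' h = δ h := by
      simp only [hδ, hδ']
      rw [show 2 * h - h = h by omega]
    unfold volw
    rw [sum_split h hh]
    -- left layers
    have L1 : ∀ i ∈ Ico 1 h, 2 * (GapVol.lob (xa (h + 1) w i) + GapVol.lob (ya (h + 1) w i) +
        GapVol.lob (za w i)) ≤ 2 * Dv (ck η b i) -
          2 * ((δ (i - 1) + δ (i + 1)) / 2 * u i - δ i * ((u (i - 1) + u (i + 1)) / 2)) := by
      intro i hi
      rw [Finset.mem_Ico] at hi
      have hi1 := hi.1
      have hi2 : i + 1 ≤ h := by omega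
      obtain ⟨r1, r2, r3, r4, r5, r6⟩ := H.layer hi1 hi2
      obtain ⟨q1, q2, q3⟩ := hw2 i hi1 (by omega)
      have hs : xa (h + 1) w i + ya (h + 1) w i + za w i = π := by
        rw [reg_x w hi2, reg_y w hi2]
        unfold za
        ring
      have t := hT _ _ _ _ _ _ r1 r2 r3 (by ring) q1.le q2.le q3.le hs
      rw [← r4] at t
      have dx : xa (h + 1) w i - (π - (ak η b i + ak η b (i + 2) - 2 * ak η b 1)) =
          (δ (i - 1) + δ (i + 1)) / 2 := by
        rw [← lay_x η b hi1 hi2, reg_x w hi2, reg_x _ hi2]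
        simp only [hδ]
        ring
      have dy : ya (h + 1) w i - (ak η b i + ak η b (i + 2) - 2 * ak η b (i + 1)) =
          (2 * δ i - δ (i - 1) - δ (i + 1)) / 2 := by
        rw [← lay_y η b hi1 hi2, reg_y w hi2, reg_y _ hi2]
        simp only [hδ]
        ring
      have dz : za w i - 2 * (ak η b (i + 1) - ak η b 1) = -δ i := by
        rw [← lay_z (h := h) η b (by omega)]
        unfold za
        simp only [hδ]
        ring
      rw [dx, dy, dz] at t
      have hu1 : u i = 2 * (lk η b (i + 1) - lk η b 1) := rfl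
      have hu2 : (u (i - 1) + u (i + 1)) / 2 = lk η b i + lk η b (i + 2) - 2 * lk η b 1 := by
        simp only [hu]
        rw [show i - 1 + 1 = i by omega]
        ring
      rw [hu2, hu1, ← r5, ← r6]
      linarith
    have L2 : ∀ i ∈ Ico 1 h, 2 * (GapVol.lob (xa (h + 1) w (2 * h - i)) +
        GapVol.lob (ya (h + 1) w (2 * h - i)) +
        GapVol.lob (za w (2 * h - i))) ≤ 2 * Dv (ck η b i) -
          2 * ((δ' (i - 1) + δ' (i + 1)) / 2 * u i - δ' i * ((u (i - 1) + u (i + 1)) / 2)) := by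
      intro i hi
      rw [Finset.mem_Ico] at hi
      have hi1 := hi.1
      have hi2 : i + 1 ≤ h := by omega
      obtain ⟨r1, r2, r3, r4, r5, r6⟩ := H.layer hi1 hi2
      obtain ⟨q1, q2, q3⟩ := hw2 (2 * h - i) (by omega) (by omega)
      have hs : xa (h + 1) w (2 * h - i) + ya (h + 1) w (2 * h - i) + za w (2 * h - i) = π := by
        rw [mir_x w hi1 hi2, mir_y w hi1 hi2]
        unfold za
        ring
      have t := hT _ _ _ _ _ _ r1 r2 r3 (by ring) q1.le q2.le q3.le hs
      rw [← r4] at t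
      have dx : xa (h + 1) w (2 * h - i) - (π - (ak η b i + ak η b (i + 2) - 2 * ak η b 1)) =
          (δ' (i - 1) + δ' (i + 1)) / 2 := by
        rw [← sx i hi1 hi2, mir_x w hi1 hi2, mir_x _ hi1 hi2]
        simp only [hδ']
        ring
      have dy : ya (h + 1) w (2 * h - i) - (ak η b i + ak η b (i + 2) - 2 * ak η b (i + 1)) =
          (2 * δ' i - δ' (i - 1) - δ' (i + 1)) / 2 := by
        rw [← sy i hi1 hi2, mir_y w hi1 hi2, mir_y _ hi1 hi2]
        simp only [hδ']
        ring
      have dz : za w (2 * h - i) - 2 * (ak η b (i + 1) - ak η b 1) = -δ' i := by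
        rw [← sz i hi1 hi2]
        unfold za
        simp only [hδ']
        ring
      rw [dx, dy, dz] at t
      have hu1 : u i = 2 * (lk η b (i + 1) - lk η b 1) := rfl
      have hu2 : (u (i - 1) + u (i + 1)) / 2 = lk η b i + lk η b (i + 2) - 2 * lk η b 1 := by
        simp only [hu]
        rw [show i - 1 + 1 = i by omega]
        ring
      rw [hu2, hu1, ← r5, ← r6]
      linarith
    -- the hinge layer
    have L3 : 2 * (GapVol.lob (xa (h + 1) w h) + GapVol.lob (ya (h + 1) w h) +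
        GapVol.lob (za w h)) ≤ 2 * Dv (ck η b h) + 2 * (δ h * u (h - 1)) := by
      obtain ⟨q1, q2, q3⟩ := hw2 h (by omega) (by omega)
      have hs : xa (h + 1) w h + ya (h + 1) w h + za w h = π := by
        unfold xa ya za
        rw [if_pos rfl, if_pos rfl]
        ring
      have t := hT _ _ _ _ _ _ gy gy gz (by ring) q1.le q2.le q3.le hs
      rw [← gD] at t
      have dxy : (xa (h + 1) w h - (π - 2 * (ak η b (h + 1) - ak η b 1)) / 2) +
          (ya (h + 1) w h - (π - 2 * (ak η b (h + 1) - ak η b 1)) / 2) = δ h := by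
        unfold xa ya
        rw [if_pos rfl, if_pos rfl]
        simp only [hδ]
        rw [hwh]
        ring
      have dz : za w h - 2 * (ak η b (h + 1) - ak η b 1) = -δ h := by
        rw [← hz]
        unfold za
        simp only [hδ]
        ring
      rw [dz] at t
      have hu3 : u (h - 1) = 2 * (lk η b h - lk η b 1) := by
        simp only [hu]
        rw [show h - 1 + 1 = h by omega]
      rw [hu3, ← gR]
      set Q := Real.log (2 * Real.sin ((π - 2 * (ak η b (h + 1) - ak η b 1)) / 2))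
      have t2 : (xa (h + 1) w h - (π - 2 * (ak η b (h + 1) - ak η b 1)) / 2) * Q +
          (ya (h + 1) w h - (π - 2 * (ak η b (h + 1) - ak η b 1)) / 2) * Q = δ h * Q := by
        rw [← dxy]; ring
      linarith
    have S1 := tele u δ h (by omega)
    have S2 := tele u δ' h (by omega)
    rw [hδ0, hu0, huh] at S1
    rw [hδ0', hu0, huh, hδh] at S2
    have T1 := Finset.sum_le_sum (s := Ico 1 h) (fun i hi => add_le_add (L1 i hi) (L2 i hi))
    have T2 : ∑ i ∈ Ico 1 h, ((2 * Dv (ck η b i) -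
          2 * ((δ (i - 1) + δ (i + 1)) / 2 * u i - δ i * ((u (i - 1) + u (i + 1)) / 2))) +
          (2 * Dv (ck η b i) -
          2 * ((δ' (i - 1) + δ' (i + 1)) / 2 * u i - δ' i * ((u (i - 1) + u (i + 1)) / 2)))) =
        4 * ∑ i ∈ Ico 1 h, Dv (ck η b i) - 2 * (δ h * u (h - 1)) := by
      have e : ∀ i ∈ Ico 1 h, ((2 * Dv (ck η b i) -
          2 * ((δ (i - 1) + δ (i + 1)) / 2 * u i - δ i * ((u (i - 1) + u (i + 1)) / 2))) +
          (2 * Dv (ck η b i) -
          2 * ((δ' (i - 1) + δ' (i + 1)) / 2 * u i - δ' i * ((u (i - 1) + u (i + 1)) / 2)))) =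
          4 * Dv (ck η b i) -
          2 * ((δ (i - 1) + δ (i + 1)) / 2 * u i - δ i * ((u (i - 1) + u (i + 1)) / 2)) -
          2 * ((δ' (i - 1) + δ' (i + 1)) / 2 * u i - δ' i * ((u (i - 1) + u (i + 1)) / 2)) := by
        intro i _
        ring
      rw [Finset.sum_congr rfl e, Finset.sum_sub_distrib, Finset.sum_sub_distrib, ← Finset.mul_sum,
        ← Finset.mul_sum, ← Finset.mul_sum, S1, S2]
      ring
    rw [T2] at T1
    linarith

end Pool.Agent.W709.VC
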