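import Pool.Agent.H112R4.VL.A2
import Pool.Agent.H811R3.EvenVolR
import Pool.Agent.H776R3.EvenVol.TaskL

/-!
# Volume conjecture for the double twist knots and links `C(A,A)`: definitions, task statements

`A` half twists in both twist regions (opposite handedness, so amphichiral).  `v = q^{1/2}`,
`v0 N = e^{π i/N}`.  `gamH a v n` and `JD a b N v` are those of `Pool.Agent.H112R4.VL.Stmts`.
-/

set_option autoImplicit false

namespace Pool.Agent.W709.VC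

open Filter Finset EvenVol Pool.Agent.H112R4.VL
open scoped Real Topology

/-- the angles `φ_j = π (2 j + 1) / N` -/
noncomputable def phi (N j : ℕ) : ℝ := π * (2 * j + 1) / N

/-- `∏_{j<d} (-2 cos ψ - 2 cos φ_j)` -/
noncomputable def RR (N d : ℕ) (ψ : ℂ) : ℂ :=
  ∏ j ∈ range d, (-2 * Complex.cos ψ - 2 * (Real.cos (phi N j) : ℂ))

/-- the integrand -/
noncomputable def Fint (A N d : ℕ) (ψ : ℂ) : ℂ :=
  Complex.exp (Complex.I * A * N * ψ ^ 2 / (4 * π)) * RR N d ψ * (2 * Complex.sin ψ) /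
    (4 * Complex.cos (N * (ψ + π) / 2) ^ 2)

/-- integral over the boundary of the rectangle `[a,b] × [c,d]`, counterclockwise -/
noncomputable def rect (f : ℂ → ℂ) (a b c d : ℝ) : ℂ :=
  (∫ x in a..b, f (x + c * Complex.I)) - (∫ x in a..b, f (x + d * Complex.I)) +
    Complex.I * (∫ y in c..d, f (b + y * Complex.I)) -
    Complex.I * (∫ y in c..d, f (a + y * Complex.I))

/-- the path integral from `-π` to `π` in the upper half plane, through the corners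
`-π + i h, -b + i h, -b + i η, π + i η` -/
noncomputable def path (f : ℂ → ℂ) (h η b : ℝ) : ℂ :=
  Complex.I * (∫ y in (0:ℝ)..h, f (-π + y * Complex.I)) +
    (∫ x in (-π)..(-b), f (x + h * Complex.I)) +
    Complex.I * (∫ y in h..η, f (-b + y * Complex.I)) +
    (∫ x in (-b)..π, f (x + η * Complex.I)) -
    Complex.I * (∫ y in (0:ℝ)..η, f (π + y * Complex.I))

/-- `log (2 cosh η + 2 cos τ)` -/
noncomputable def ell (η τ : ℝ) : ℝ := Real.log (2 * Real.cosh η + 2 * Real.cos τ)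

/-- its integral from `0` to `x` -/
noncomputable def Lf (η x : ℝ) : ℝ := ∫ τ in (0:ℝ)..x, ell η τ

/-- the potential -/
noncomputable def pot (m α b η : ℝ) : ℝ :=
  8 * GapVol.lob (α / 2) + 4 * (m * b - π) * η + (Lf η (b + α) - Lf η (b - α))

/-- the critical point -/
structure Crit (m α b η : ℝ) : Prop where
  hα : 0 < α
  hb : 0 < b
  hη : 0 < η
  hbm : m * b < π
  hαb : α + b < π
  c1 : 4 * m * η + ell η (b + α) - ell η (b - α) = 0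
  c2 : ell η (b + α) + ell η (b - α) = 4 * Real.log (2 * Real.sin (α / 2))
  c3 : 4 * (m * b - π) + ∫ τ in (b - α)..(b + α), Real.sinh η / (Real.cosh η + Real.cos τ) = 0

/-! ## Task statements -/

/-- residue theorem in the form needed -/
def S_RECT : Prop := ∀ (f : ℂ → ℂ) (w : ℂ) (h : ℝ), Differentiable ℂ f → 0 < w.re → w.re < 2 * π →
  |w.im| < h →
  rect (fun z => f z * (Complex.cos ((z - w) / 2) / (2 * Complex.sin ((z - w) / 2)))) 0 (2 * π)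
    (-h) h = 2 * π * Complex.I * f w

/-- the limit of the twist coefficient -/
def S_GAM : Prop := ∀ A N n : ℕ, 2 ≤ N → n < N → ∃ Γ : ℂ,
  Tendsto (fun v => gamH (A : ℤ) v n) (𝓝[≠] (v0 N)) (𝓝 Γ) ∧ ∀ h : ℝ, 0 < h →
    ‖Γ‖ = ‖brf (v0 N) n‖ / (4 * π) * ‖rect (Fint A N (N - 1 - n)) (-π) π (-h) h‖

/-- deformation of the contour -/
def S_PATH : Prop := ∀ A N d : ℕ, 2 ≤ N → ∀ h η b : ℝ, 0 < h → h ≤ η → |b| ≤ π →
  rect (Fint A N d) (-π) π (-h) h = -2 * path (Fint A N d) h η b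

/-- Riemann sums away from the real axis -/
def S_RS : Prop := ∀ h : ℝ, 0 < h → ∃ C : ℝ, ∀ N d : ℕ, 0 < N → d ≤ N → ∀ b η : ℝ, h ≤ η →
  |Real.log ‖RR N d (-b + η * Complex.I)‖ -
    N / (4 * π) * (Lf η (b + 2 * π * d / N) - Lf η (b - 2 * π * d / N))| ≤ C

/-- the factorials at the root of unity -/
def S_BRF : Prop := ∀ ε : ℝ, 0 < ε → ∀ᶠ N : ℕ in atTop, ∀ n d : ℕ, n + d + 1 = N →
  |Real.log ‖brf (v0 N) n‖ - N / π * GapVol.lob (π * d / N)| ≤ ε * N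

/-- the vertical sides `Re ψ = ± π` -/
def S_VERT : Prop := ∀ A : ℕ, ∀ ε : ℝ, 0 < ε → ∀ᶠ N : ℕ in atTop, ∀ n d : ℕ, n + d + 1 = N →
  ∀ y : ℝ, 0 ≤ y →
    ‖brf (v0 N) n‖ ^ 2 * ‖Fint A N d (π + y * Complex.I)‖ ≤ Real.sinh y * Real.exp (ε * N) ∧
    ‖brf (v0 N) n‖ ^ 2 * ‖Fint A N d (-π + y * Complex.I)‖ ≤
      Real.sinh y * Real.exp (ε * N + A * N * y / 2)

/-- small `n`: no growth -/
def S_SMALL : Prop := ∀ A : ℕ, ∀ ε : ℝ, 0 < ε → ∀ᶠ N : ℕ in atTop, ∀ n : ℕ, 2 * n + 1 < N →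
  ‖brf (v0 N) n‖ * ‖gamH (A : ℤ) (v0 N) n‖ ≤ Real.exp (ε * N)

/-- existence of the critical point -/
def S_CRIT : Prop := ∀ m : ℝ, 2 ≤ m → ∃ α b η : ℝ, Crit m α b η

/-- concavity: the critical point is the maximum -/
def S_MAX : Prop := ∀ m α₀ b₀ η : ℝ, 2 ≤ m → Crit m α₀ b₀ η → ∀ α b : ℝ, 0 ≤ α → 0 ≤ b →
  b ≤ π / 2 → α + b ≤ π → pot m α b η ≤ pot m α₀ b₀ η

/-- quadratic decay on the horizontal line -/
def S_QUAD : Prop := ∀ m α₀ b₀ η b₁ : ℝ, 2 ≤ m → Crit m α₀ b₀ η → b₀ < b₁ → b₁ ≤ π / 2 →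
  α₀ + b₁ ≤ π → ∃ c : ℝ, 0 < c ∧ ∀ b : ℝ, -π ≤ b → b ≤ b₁ →
    pot m α₀ b η ≤ pot m α₀ b₀ η - c * (b - b₀) ^ 2

/-- elementary monotonicity properties of the potential -/
def S_NEG : Prop := ∀ m α b η : ℝ, 0 ≤ m → 0 < η → 0 ≤ α → α ≤ π → -π ≤ b → b ≤ 0 →
  pot m α b η ≤ pot m α 0 η

def S_REAL : Prop := ∀ m α b b₁ h : ℝ, 0 ≤ m → 0 < h → 0 ≤ α → α ≤ π → 0 ≤ b₁ → b₁ ≤ b → b ≤ π →
  pot m α b h ≤ pot m α b₁ h + 4 * π * m * h

def S_VUP : Prop := ∀ m α η η' : ℝ, 0 < m → 0 < η → η ≤ η' → 0 ≤ α →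
  pot m α (π / m) η ≤ pot m α (π / m) η'

def S_VCONV : Prop := ∀ m α h η η' : ℝ, 0 < h → h ≤ η → η ≤ η' → π / 2 ≤ α → α ≤ π →
  pot m α (π - α) η ≤ max (pot m α (π - α) h) (pot m α (π - α) η')

def S_VEND : Prop := ∀ m α h : ℝ, 0 ≤ m → m * (π - α) ≤ π → 0 < h → π / 2 ≤ α → α ≤ π →
  pot m α (π - α) h ≤ 8 * GapVol.lob (π / 6) + 2 * π * h

def S_TEN : Prop := ∀ m η : ℝ, 2 ≤ m → 0 < η →
  10 * GapVol.lob (π / 6) ≤ pot m (π / 3) (π / m) η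

/-- pointwise limit for the Laplace method -/
def S_LAP : Prop := ∀ (A : ℕ) (α b η : ℝ) (d : ℕ → ℕ), 4 ≤ A → Crit ((A : ℝ) / 2) α b η →
  (∀ N : ℕ, |2 * π * (d N) - α * N| ≤ 2 * π) →
  ∃ c : ℂ, 0 < c.re ∧ ∀ s : ℝ, Tendsto (fun N : ℕ =>
    Fint A N (d N) (-b + s / (Real.sqrt N : ℝ) + η * Complex.I) /
      Fint A N (d N) (-b + η * Complex.I)) atTop (𝓝 (Complex.exp (-c * s ^ 2)))

/-- Laplace method -/
def S_DC : Prop := ∀ (K : ℕ → ℝ → ℂ) (c : ℂ) (x₀ u w C c' : ℝ), 0 < c.re → u < x₀ → x₀ < w →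
  0 < c' → (∀ᶠ N in atTop, Continuous (K N)) →
  (∀ᶠ N : ℕ in atTop, ∀ x : ℝ, u ≤ x → x ≤ w → ‖K N x‖ ≤ C * Real.exp (-c' * N * (x - x₀) ^ 2)) →
  (∀ s : ℝ, Tendsto (fun N : ℕ => K N (x₀ + s / Real.sqrt N)) atTop
    (𝓝 (Complex.exp (-c * s ^ 2)))) →
  ∃ δ : ℝ, 0 < δ ∧ ∀ᶠ N : ℕ in atTop, δ / Real.sqrt N ≤ ‖∫ x in u..w, K N x‖

end Pool.Agent.W709.VC
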