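import Pool.Agent.W709.VC.Low2
import Pool.Agent.W973.VcRect
import Pool.Agent.W634.VC.Path
import Pool.Agent.W440.VC.Rs
import Pool.Agent.W540.VC.BrfC
import Pool.Agent.W12.VCSmall
import Pool.Agent.W704.VC.Crit
import Pool.Agent.W402.VC.Max
import Pool.Agent.W305.VC.Pot
import Pool.Agent.W708.VC.Lap
import Pool.Agent.W973.VcDc
import Pool.Agent.W973.VcVc

/-! The volume conjecture for `C(A,A)`, analytic form. -/

set_option autoImplicit false
set_option maxHeartbeats 4000000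

namespace Pool.Agent.W709.VC

open Filter Finset EvenVol Pool.Agent.H112R4.VL
open scoped Real Topology

theorem s_gam : S_GAM := gam Pool.Agent.W973.VcRect.rect

theorem s_up {A : ℕ} (hA : 4 ≤ A) {α₀ b₀ η : ℝ} (hC : Crit ((A : ℝ) / 2) α₀ b₀ η)
    {ε : ℝ} (hε : 0 < ε) :
    ∀ᶠ N : ℕ in atTop, ∀ n, n < N →
      Cn A N n ≤ Real.exp (N / (4 * π) * pot ((A : ℝ) / 2) α₀ b₀ η + ε * N) :=
  up s_gam Pool.Agent.W634.VC.path Pool.Agent.W440.VC.rs Pool.Agent.W540.VC.brf_asymp
    Pool.Agent.W540.VC.vert Pool.Agent.W12.VCSmall.small Pool.Agent.W402.VC.max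
    Pool.Agent.W305.VC.neg Pool.Agent.W305.VC.vup Pool.Agent.W973.VcVc.vconv
    Pool.Agent.W973.VcVc.vend Pool.Agent.W305.VC.ten Pool.Agent.W305.VC.real hA hC hε

theorem s_low {A : ℕ} (hA : 4 ≤ A) {α₀ b₀ η : ℝ} (hC : Crit ((A : ℝ) / 2) α₀ b₀ η)
    {ε : ℝ} (hε : 0 < ε) :
    ∀ᶠ N : ℕ in atTop, ∃ n, n < N ∧
      Real.exp (N / (4 * π) * pot ((A : ℝ) / 2) α₀ b₀ η - ε * N) ≤ Cn A N n :=
  low s_gam Pool.Agent.W634.VC.path Pool.Agent.W440.VC.rs Pool.Agent.W540.VC.brf_asymp
    Pool.Agent.W540.VC.vert Pool.Agent.W402.VC.max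
    Pool.Agent.W305.VC.vup Pool.Agent.W973.VcVc.vconv
    Pool.Agent.W973.VcVc.vend Pool.Agent.W305.VC.ten Pool.Agent.W305.VC.real
    Pool.Agent.W402.VC.quad Pool.Agent.W708.VC.lap Pool.Agent.W973.VcDc.dc hA hC hε

lemma kap_bounds {A : ℕ} (hA : 4 ≤ A) {α₀ b₀ η : ℝ} (hC : Crit ((A : ℝ) / 2) α₀ b₀ η)
    {ε : ℝ} (hε : 0 < ε) :
    ∀ᶠ N : ℕ in atTop,
      Real.exp (N / (2 * π) * pot ((A : ℝ) / 2) α₀ b₀ η - ε * N) ≤ kap A N ∧
      kap A N ≤ N * Real.exp (N / (2 * π) * pot ((A : ℝ) / 2) α₀ b₀ η + ε * N) := by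
  have hp := Real.pi_pos
  filter_upwards [s_up hA hC (show 0 < ε / 2 by positivity),
    s_low hA hC (show 0 < ε / 2 by positivity)] with N h1 h2
  set V := pot ((A : ℝ) / 2) α₀ b₀ η
  constructor
  · obtain ⟨n, hn, h3⟩ := h2
    have h4 : Cn A N n ^ 2 ≤ kap A N := by
      unfold kap
      exact Finset.single_le_sum (f := fun n => Cn A N n ^ 2) (fun i _ => by positivity)
        (Finset.mem_range.2 hn)
    refine le_trans ?_ h4
    have h5 : Real.exp (N / (2 * π) * V - ε * N) =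
        Real.exp (N / (4 * π) * V - ε / 2 * N) ^ 2 := by
      rw [← Real.exp_nat_mul]
      congr 1
      push_cast
      field_simp
      ring
    rw [h5]
    exact pow_le_pow_left₀ (Real.exp_pos _).le h3 2
  · unfold kap
    have h5 : Real.exp (N / (2 * π) * V + ε * N) =
        Real.exp (N / (4 * π) * V + ε / 2 * N) ^ 2 := by
      rw [← Real.exp_nat_mul]
      congr 1
      push_cast
      field_simp
      ring
    rw [h5]
    calc ∑ n ∈ range N, Cn A N n ^ 2 ≤
        ∑ n ∈ range N, Real.exp (N / (4 * π) * V + ε / 2 * N) ^ 2 := by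
          apply Finset.sum_le_sum
          intro n hn
          rw [Finset.mem_range] at hn
          have h0 : 0 ≤ Cn A N n := by unfold Cn; positivity
          exact pow_le_pow_left₀ h0 (h1 n hn) 2
      _ = _ := by rw [Finset.sum_const, Finset.card_range, nsmul_eq_mul]

/-- exponential growth rate of the coloured Jones polynomial -/
theorem growth {A : ℕ} (hA : 4 ≤ A) {α₀ b₀ η : ℝ} (hC : Crit ((A : ℝ) / 2) α₀ b₀ η) :
    Tendsto (fun N : ℕ => 2 * π * Real.log (kap A N) / N) atTop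
      (𝓝 (pot ((A : ℝ) / 2) α₀ b₀ η)) := by
  have hp := Real.pi_pos
  set V := pot ((A : ℝ) / 2) α₀ b₀ η with hV
  rw [Metric.tendsto_nhds]
  intro δ hδ
  have h1 := kap_bounds hA hC (show 0 < δ / (8 * π) by positivity)
  have h2 : ∀ᶠ N : ℕ in atTop, 2 * π * (Real.log N / N) < δ / 2 := by
    have h3 : Tendsto (fun x : ℝ => Real.log x / x) atTop (𝓝 0) :=
      Real.isLittleO_log_id_atTop.tendsto_div_nhds_zero
    have h4 := (h3.comp tendsto_natCast_atTop_atTop).const_mul (2 * π)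
    rw [mul_zero] at h4
    exact h4.eventually_lt_const (by positivity)
  filter_upwards [h1, h2, eventually_gt_atTop 0] with N h3 h4 hN0
  have hN : (0 : ℝ) < N := by exact_mod_cast hN0
  obtain ⟨h5, h6⟩ := h3
  have hk : 0 < kap A N := lt_of_lt_of_le (Real.exp_pos _) h5
  have l1 : N / (2 * π) * V - δ / (8 * π) * N ≤ Real.log (kap A N) := by
    rw [Real.le_log_iff_exp_le hk]
    exact h5
  have l2 : Real.log (kap A N) ≤ Real.log N + (N / (2 * π) * V + δ / (8 * π) * N) := by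
    have : Real.log N + (N / (2 * π) * V + δ / (8 * π) * N) =
        Real.log (N * Real.exp (N / (2 * π) * V + δ / (8 * π) * N)) := by
      rw [Real.log_mul hN.ne' (Real.exp_ne_zero _), Real.log_exp]
    rw [this]
    exact Real.log_le_log hk h6
  rw [Real.dist_eq, abs_lt]
  have m1 : V - δ / 4 ≤ 2 * π * Real.log (kap A N) / N := by
    rw [le_div_iff₀ hN]
    have := mul_le_mul_of_nonneg_left l1 (show 0 ≤ 2 * π by positivity)
    have e : 2 * π * (N / (2 * π) * V - δ / (8 * π) * N) = (V - δ / 4) * N := by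
      field_simp
      ring
    rw [e] at this
    exact this
  have m2 : 2 * π * Real.log (kap A N) / N ≤ 2 * π * (Real.log N / N) + (V + δ / 4) := by
    rw [div_le_iff₀ hN]
    have := mul_le_mul_of_nonneg_left l2 (show 0 ≤ 2 * π by positivity)
    have e : 2 * π * (Real.log N + (N / (2 * π) * V + δ / (8 * π) * N)) =
        (2 * π * (Real.log N / N) + (V + δ / 4)) * N := by
      field_simp
      ring
    rw [e] at this
    exact this
  constructor <;> linarith

end Pool.Agent.W709.VC
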