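import Pool.Agent.W709.VC.Gam1

/-! The twist coefficient as a contour integral. -/

set_option autoImplicit false

namespace Pool.Agent.W709.VC

open Filter Finset EvenVol Pool.Agent.H112R4.VL
open scoped Real Topology

noncomputable def EE (N : ℕ) (σ φ : ℂ) : ℂ := Complex.exp (Complex.I * N * (φ - π) ^ 2 * σ / (4 * π))

noncomputable def zz (N : ℕ) (s : ℂ) (j : ℕ) : ℂ := π * s * (2 * j + 1) / N

noncomputable def PP (A N : ℕ) (p : ℂ × ℂ) (φ : ℂ) : ℂ := EE N p.2 φ ^ A * (-2 * Complex.sin φ)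

noncomputable def QQ (N n : ℕ) (p : ℂ × ℂ) (φ : ℂ) : ℂ :=
  ∏ j ∈ range (n + 1), (2 * Complex.cos φ - 2 * Complex.cos (zz N p.1 j))

noncomputable def KK (w z : ℂ) : ℂ := Complex.cos ((z - w) / 2) / (2 * Complex.sin ((z - w) / 2))

lemma bd_ne {z φ : ℂ} {h : ℝ} (h0 : 0 < z.re) (h1 : z.re < 2 * π) (h2 : |z.im| < h)
    (hφ : φ ∈ Bd 0 (2 * π) (-h) h) : Complex.cos φ ≠ Complex.cos z := by
  intro he
  have hh : 0 < h := lt_of_le_of_lt (abs_nonneg _) h2
  rw [Complex.cos_eq_cos_iff] at he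
  obtain ⟨k, hk⟩ := he
  have him : φ.im = h ∨ φ.im = -h → False := by
    intro hi
    have hz : |z.im| = h := by
      rcases hk with hk | hk
      · have : z.im = φ.im := by
          rw [hk]
          simp [Complex.add_im, Complex.mul_im]
        rw [this]
        rcases hi with hi | hi
        · rw [hi, abs_of_pos hh]
        · rw [hi, abs_neg, abs_of_pos hh]
      · have : z.im = -φ.im := by
          rw [hk]
          simp [Complex.sub_im, Complex.mul_im]
        rw [this]
        rcases hi with hi | hi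
        · rw [hi, abs_neg, abs_of_pos hh]
        · rw [hi, neg_neg, abs_of_pos hh]
    linarith
  have hre : (∃ l : ℤ, φ.re = 2 * π * l) → False := by
    rintro ⟨l, hl⟩
    have hz : ∃ l' : ℤ, z.re = 2 * π * l' := by
      rcases hk with hk | hk
      · refine ⟨k + l, ?_⟩
        rw [hk]
        simp [Complex.add_re, Complex.mul_re, hl]
        ring
      · refine ⟨k - l, ?_⟩
        rw [hk]
        simp [Complex.sub_re, Complex.mul_re, hl]
        ring
    obtain ⟨l', hl'⟩ := hz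
    rw [hl'] at h0 h1
    have hp : 0 < 2 * π := by positivity
    have h3 : (0 : ℝ) < l' := by
      by_contra hc
      push Not at hc
      nlinarith
    have h4 : (l' : ℝ) < 1 := by
      by_contra hc
      push Not at hc
      nlinarith
    have h3' : 0 < l' := by exact_mod_cast h3
    have h4' : l' < 1 := by exact_mod_cast h4
    omega
  rcases hφ with ⟨x, _, hx⟩ | ⟨x, _, hx⟩ | ⟨y, _, hy⟩ | ⟨y, _, hy⟩
  · apply him
    right
    rw [hx]
    simp
  · apply him
    left
    rw [hx]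
    simp
  · apply hre
    refine ⟨1, ?_⟩
    rw [hy]
    simp
  · apply hre
    refine ⟨0, ?_⟩
    rw [hy]
    simp

lemma cos_sub_eq (φ z : ℂ) : 2 * Complex.cos φ - 2 * Complex.cos z =
    -4 * (Complex.sin ((φ - z) / 2) * Complex.sin ((φ + z) / 2)) := by
  have h1 : φ = (φ + z) / 2 + (φ - z) / 2 := by ring
  have h2 : z = (φ + z) / 2 - (φ - z) / 2 := by ring
  have h3 : Complex.cos φ = Complex.cos ((φ + z) / 2 + (φ - z) / 2) := by rw [← h1]
  have h4 : Complex.cos z = Complex.cos ((φ + z) / 2 - (φ - z) / 2) := by rw [← h2]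
  rw [h3, h4, Complex.cos_add, Complex.cos_sub]
  ring

lemma sin_ne {φ z : ℂ} (h : Complex.cos φ ≠ Complex.cos z) :
    Complex.sin ((φ - z) / 2) ≠ 0 ∧ Complex.sin ((φ + z) / 2) ≠ 0 := by
  have h1 := cos_sub_eq φ z
  have h2 : 2 * Complex.cos φ - 2 * Complex.cos z ≠ 0 := by
    intro h3
    apply h
    have : Complex.cos φ - Complex.cos z = 0 := by linear_combination (1 / 2) * h3
    exact sub_eq_zero.1 this
  rw [h1] at h2
  constructor
  · intro h3
    apply h2
    rw [h3]
    ring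
  · intro h3
    apply h2
    rw [h3]
    ring

lemma kernel_eq {φ z : ℂ} (h : Complex.cos φ ≠ Complex.cos z) :
    -2 * Complex.sin φ * (2 * Complex.cos φ - 2 * Complex.cos z)⁻¹ = KK z φ + KK (2 * π - z) φ := by
  obtain ⟨h1, h2⟩ := sin_ne h
  unfold KK
  have e1 : (φ - (2 * π - z)) / 2 = (φ + z) / 2 - π := by ring
  rw [e1, Complex.cos_sub_pi, Complex.sin_sub_pi, cos_sub_eq φ z]
  have e2 : Complex.sin φ = Complex.sin ((φ + z) / 2 + (φ - z) / 2) := by
    congr 1
    ring
  rw [e2, Complex.sin_add]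
  field_simp
  ring

lemma KK_cont {w z : ℂ} (h : Complex.sin ((z - w) / 2) ≠ 0) : ContinuousAt (KK w) z := by
  unfold KK
  apply ContinuousAt.div
  · fun_prop
  · fun_prop
  · exact mul_ne_zero two_ne_zero h

lemma EE_diff (N : ℕ) (σ : ℂ) : Differentiable ℂ (EE N σ) := by
  unfold EE
  fun_prop

lemma EE_symm (N : ℕ) (σ z : ℂ) : EE N σ (2 * π - z) = EE N σ z := by
  unfold EE
  congr 1
  ring

/-- The residue sum. -/
lemma rect_PQ (hR : S_RECT) (A N n : ℕ) (s σ : ℂ) (h : ℝ)
    (hnode : ∀ j ∈ range (n + 1), 0 < (zz N s j).re ∧ (zz N s j).re < 2 * π ∧ |(zz N s j).im| < h)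
    (hinj : Set.InjOn (fun j : ℕ => 2 * Complex.cos (zz N s j)) (range (n + 1))) :
    rect (fun φ => PP A N (s, σ) φ / QQ N n (s, σ) φ) 0 (2 * π) (-h) h =
      4 * π * Complex.I * ∑ k ∈ range (n + 1),
        Lagrange.nodalWeight (range (n + 1)) (fun j : ℕ => 2 * Complex.cos (zz N s j)) k *
          EE N σ (zz N s k) ^ A := by
  have hf : Differentiable ℂ (fun z => EE N σ z ^ A) := (EE_diff N σ).pow A
  have step1 : rect (fun φ => PP A N (s, σ) φ / QQ N n (s, σ) φ) 0 (2 * π) (-h) h =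
      rect (fun φ => ∑ k ∈ range (n + 1),
        Lagrange.nodalWeight (range (n + 1)) (fun j : ℕ => 2 * Complex.cos (zz N s j)) k *
          (EE N σ φ ^ A * KK (zz N s k) φ + EE N σ φ ^ A * KK (2 * π - zz N s k) φ))
        0 (2 * π) (-h) h := by
    apply rect_congr
    intro φ hφ
    have hne : ∀ j ∈ range (n + 1), Complex.cos φ ≠ Complex.cos (zz N s j) := fun j hj =>
      bd_ne (hnode j hj).1 (hnode j hj).2.1 (hnode j hj).2.2 hφ
    have hne2 : ∀ j ∈ range (n + 1), 2 * Complex.cos φ ≠ 2 * Complex.cos (zz N s j) := by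
      intro j hj h3
      exact hne j hj (mul_left_cancel₀ two_ne_zero h3)
    have h1 := Lagrange.eval_interpolate_not_at_node (s := range (n + 1))
      (v := fun j : ℕ => 2 * Complex.cos (zz N s j)) (1 : ℕ → ℂ) (x := 2 * Complex.cos φ) hne2
    rw [Lagrange.interpolate_one hinj ⟨0, by simp⟩, Polynomial.eval_one, Lagrange.eval_nodal] at h1
    have hQ : QQ N n (s, σ) φ = ∏ j ∈ range (n + 1), (2 * Complex.cos φ - 2 * Complex.cos (zz N s j)) :=
      rfl
    rw [← hQ] at h1
    have hQ0 : QQ N n (s, σ) φ ≠ 0 := by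
      intro h0
      rw [h0] at h1
      simp at h1
    show PP A N (s, σ) φ / QQ N n (s, σ) φ = _
    have h2 : (QQ N n (s, σ) φ)⁻¹ = ∑ i ∈ range (n + 1), Lagrange.nodalWeight (range (n + 1))
        (fun j : ℕ => 2 * Complex.cos (zz N s j)) i * (2 * Complex.cos φ - 2 * Complex.cos (zz N s i))⁻¹ := by
      rw [inv_eq_one_div, div_eq_iff hQ0, mul_comm]
      simpa using h1
    rw [div_eq_mul_inv, h2, Finset.mul_sum]
    apply Finset.sum_congr rfl
    intro k hk
    rw [← mul_add, ← kernel_eq (hne k hk)]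
    unfold PP
    ring
  rw [step1]
  have hRI1 : ∀ k ∈ range (n + 1), RI (fun φ => EE N σ φ ^ A * KK (zz N s k) φ) 0 (2 * π) (-h) h := by
    intro k hk
    apply RI_of_cont
    intro z hz
    have h1 := bd_ne (hnode k hk).1 (hnode k hk).2.1 (hnode k hk).2.2 hz
    exact (hf.continuous.continuousAt).mul (KK_cont (sin_ne h1).1)
  have hRI2 : ∀ k ∈ range (n + 1),
      RI (fun φ => EE N σ φ ^ A * KK (2 * π - zz N s k) φ) 0 (2 * π) (-h) h := by
    intro k hk
    apply RI_of_cont
    intro z hz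
    have h1 := bd_ne (hnode k hk).1 (hnode k hk).2.1 (hnode k hk).2.2 hz
    refine (hf.continuous.continuousAt).mul (KK_cont ?_)
    have e1 : (z - (2 * π - zz N s k)) / 2 = (z + zz N s k) / 2 - π := by ring
    rw [e1, Complex.sin_sub_pi]
    exact neg_ne_zero.2 (sin_ne h1).2
  have hRI3 : ∀ k ∈ range (n + 1), RI (fun φ =>
      Lagrange.nodalWeight (range (n + 1)) (fun j : ℕ => 2 * Complex.cos (zz N s j)) k *
      (EE N σ φ ^ A * KK (zz N s k) φ + EE N σ φ ^ A * KK (2 * π - zz N s k) φ))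
      0 (2 * π) (-h) h := by
    intro k hk
    have := RI_add (hRI1 k hk) (hRI2 k hk)
    exact ⟨this.1.const_mul _, this.2.1.const_mul _, this.2.2.1.const_mul _,
      this.2.2.2.const_mul _⟩
  rw [rect_sum _ hRI3, Finset.mul_sum]
  apply Finset.sum_congr rfl
  intro k hk
  rw [rect_mul, rect_add (hRI1 k hk) (hRI2 k hk)]
  obtain ⟨g1, g2, g3⟩ := hnode k hk
  have r1 := hR (fun z => EE N σ z ^ A) (zz N s k) h hf g1 g2 g3
  have r2 := hR (fun z => EE N σ z ^ A) (2 * π - zz N s k) h hf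
    (by simp; linarith) (by simp; linarith) (by simpa using g3)
  have r1' : rect (fun φ => EE N σ φ ^ A * KK (zz N s k) φ) 0 (2 * π) (-h) h =
      2 * π * Complex.I * EE N σ (zz N s k) ^ A := r1
  have r2' : rect (fun φ => EE N σ φ ^ A * KK (2 * π - zz N s k) φ) 0 (2 * π) (-h) h =
      2 * π * Complex.I * EE N σ (2 * π - zz N s k) ^ A := r2
  rw [r1', r2', EE_symm]
  ring

end Pool.Agent.W709.VC
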