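import Pool.Agent.W709.VC.Defs

/-!
# Identification of the growth rate with the hyperbolic volume

The complement of the two-bridge knot or link `C(a,b)` has a canonical ideal triangulation (Sakuma
and Weeks; Gueritaud and Futer) with `a + b - 3` layers of two ideal tetrahedra with the same
dihedral angles `x_i, y_i, z_i`.  Angle structures are parametrised by `w_0, ..., w_{a+b-2}` with
`w_0 = w_{a+b-2} = π`, `z_i = π - w_i` and, for the layers inside one of the two twist regions,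
`x_i = (w_{i-1}+w_{i+1})/2`, `y_i = (2 w_i-w_{i-1}-w_{i+1})/2`; for the hinge layer `i = a-1`,
`x_i = (w_{i-1}+w_i-w_{i+1})/2`, `y_i = (-w_{i-1}+w_i+w_{i+1})/2`.
-/

set_option autoImplicit false

namespace Pool.Agent.W709.VC

open Filter Finset EvenVol Pool.Agent.H112R4.VL
open scoped Real Topology

/-- first dihedral angle of layer `i` -/
noncomputable def xa (a : ℕ) (w : ℕ → ℝ) (i : ℕ) : ℝ :=
  if i + 1 = a then (w (i - 1) + w i - w (i + 1)) / 2 else (w (i - 1) + w (i + 1)) / 2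

/-- second dihedral angle of layer `i` -/
noncomputable def ya (a : ℕ) (w : ℕ → ℝ) (i : ℕ) : ℝ :=
  if i + 1 = a then (-w (i - 1) + w i + w (i + 1)) / 2
  else (2 * w i - w (i - 1) - w (i + 1)) / 2

/-- third dihedral angle of layer `i` -/
noncomputable def za (w : ℕ → ℝ) (i : ℕ) : ℝ := π - w i

/-- angle structures on the canonical triangulation of the complement of `C(a,b)` -/
def IsAngle (a b : ℕ) (w : ℕ → ℝ) : Prop :=
  w 0 = π ∧ w (a + b - 2) = π ∧
    ∀ i, 1 ≤ i → i ≤ a + b - 3 → 0 < xa a w i ∧ 0 < ya a w i ∧ 0 < za w i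

/-- volume of an angle structure: two ideal tetrahedra in every layer -/
noncomputable def volw (a b : ℕ) (w : ℕ → ℝ) : ℝ :=
  ∑ i ∈ Icc 1 (a + b - 3), 2 * (GapVol.lob (xa a w i) + GapVol.lob (ya a w i) + GapVol.lob (za w i))

/-- volume of the ideal tetrahedron with shape parameter `z` (Bloch-Wigner dilogarithm) -/
noncomputable def Dv (z : ℂ) : ℝ :=
  GapVol.lob (Complex.arg z) + GapVol.lob (Complex.arg (1 / (1 - z))) +
    GapVol.lob (Complex.arg (1 - 1 / z))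

/-! ## Task statements -/

/-- the supporting hyperplane inequality for the volume of an ideal tetrahedron -/
def S_TET : Prop := ∀ x y z x' y' z' : ℝ, 0 < x → 0 < y → 0 < z → x + y + z = π →
  0 ≤ x' → 0 ≤ y' → 0 ≤ z' → x' + y' + z' = π →
  GapVol.lob x' + GapVol.lob y' + GapVol.lob z' ≤ GapVol.lob x + GapVol.lob y + GapVol.lob z -
    (x' - x) * Real.log (2 * Real.sin x) - (y' - y) * Real.log (2 * Real.sin y) -
    (z' - z) * Real.log (2 * Real.sin z)

/-- symmetries of `Dv` -/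
def S_DSYM : Prop := (∀ z : ℂ, Dv ((starRingEnd ℂ) z) = -Dv z) ∧ (∀ z : ℂ, Dv (1 - z) = -Dv z) ∧
  (∀ z : ℂ, Dv z⁻¹ = -Dv z)

/-- five term relation -/
def S_FIVE : Prop := ∀ x y : ℂ, x ≠ 0 → x ≠ 1 → y ≠ 0 → y ≠ 1 → x ≠ y →
  Dv x - Dv y + Dv (y / x) - Dv ((1 - x⁻¹) / (1 - y⁻¹)) + Dv ((1 - x) / (1 - y)) = 0

/-- the volumes of the tetrahedra of one twist region telescope -/
def S_FAN : Prop := ∀ (Y : ℂ) (n : ℕ), 0 < ‖Y‖ → ‖Y‖ < 1 →
  ∑ k ∈ Icc 1 n, Dv ((1 - Y ^ (k + 1)) ^ 2 / (Y ^ k * (1 - Y) ^ 2)) =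
    Dv ((1 - Y ^ (n + 2)) / (1 - Y ^ (n + 1))) - Dv ((1 - Y ^ (n + 2)) / (1 - Y))

/-- two-variable identity -/
def S_ITWO : Prop := ∀ X Y : ℂ, ‖X‖ = 1 → X ≠ 1 → 0 < ‖Y‖ → ‖Y‖ < 1 →
  4 * Dv ((1 - X) * Y / (1 + Y)) - 4 * Dv ((X - 1) / (X + Y)) +
    2 * Dv ((X - 1) ^ 2 / ((X + Y) * (X + 1 / Y))) =
  4 * Dv (1 / X) + 2 * Dv (-X * Y) + 2 * Dv (-X / Y)

/-- the potential in terms of `Dv` -/
def S_ITHREE : Prop := ∀ m α b η : ℝ, 0 < η → 0 < α → 0 < b → α + b < π →
  4 * (m * b - π) + (∫ τ in (b - α)..(b + α), Real.sinh η / (Real.cosh η + Real.cos τ)) = 0 →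
  4 * Dv (Complex.exp (α * Complex.I)) +
    2 * Dv (-Complex.exp (-(α * Complex.I)) * Complex.exp (-(η + b * Complex.I))) +
    2 * Dv (-Complex.exp (-(α * Complex.I)) / Complex.exp (-(η + b * Complex.I))) = pot m α b η

/-- the critical point equations in complex form -/
def S_ALG : Prop := ∀ (A : ℕ) (α b η : ℝ), Crit ((A : ℝ) / 2) α b η →
  Complex.exp (-(η + b * Complex.I)) ^ A *
    (Complex.exp (-(α * Complex.I)) + Complex.exp (-(η + b * Complex.I))) =
    1 + Complex.exp (-(α * Complex.I)) * Complex.exp (-(η + b * Complex.I)) ∧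
  ‖Complex.exp (-(α * Complex.I)) + Complex.exp (-(η + b * Complex.I))‖ *
    ‖Complex.exp (-(α * Complex.I)) + 1 / Complex.exp (-(η + b * Complex.I))‖ =
    ‖1 - Complex.exp (-(α * Complex.I))‖ ^ 2

end Pool.Agent.W709.VC
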