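import Pool.Agent.W709.VC.Low

/-! Lower bound for one coefficient: the Laplace method at the saddle point. -/

set_option autoImplicit false
set_option maxHeartbeats 4000000

namespace Pool.Agent.W709.VC

open Filter Finset EvenVol Pool.Agent.H112R4.VL
open scoped Real Topology

/-- the index of the maximal term -/
noncomputable def dN (α : ℝ) (N : ℕ) : ℕ := ⌊α * N / (2 * π)⌋₊

lemma dN_close {α : ℝ} (hα : 0 ≤ α) (N : ℕ) : |2 * π * (dN α N) - α * N| ≤ 2 * π := by
  have hp := Real.pi_pos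
  have h0 : 0 ≤ α * N / (2 * π) := by positivity
  have h1 := Nat.floor_le h0
  have h2 := Nat.lt_floor_add_one (α * N / (2 * π))
  unfold dN
  rw [le_div_iff₀ (by positivity)] at h1
  rw [div_lt_iff₀ (by positivity)] at h2
  rw [abs_le]
  constructor <;> nlinarith

lemma dN_lt {α : ℝ} (hα : 0 ≤ α) (hα' : α < π) {N : ℕ} (hN : 0 < N) : dN α N < N := by
  have hp := Real.pi_pos
  have hN' : (0 : ℝ) < N := by exact_mod_cast hN
  have h0 : 0 ≤ α * N / (2 * π) := by positivity
  unfold dN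
  rw [Nat.floor_lt h0, div_lt_iff₀ (by positivity)]
  nlinarith

/-- the integral along the horizontal line -/
lemma horiz (hRS : S_RS) (hQ : S_QUAD) (hL : S_LAP) (hD : S_DC) {A : ℕ} (hA : 4 ≤ A)
    {α₀ b₀ η : ℝ} (hC : Crit ((A : ℝ) / 2) α₀ b₀ η) {b₁ : ℝ} (hb1 : b₀ < b₁) (hb2 : b₁ ≤ π / 2)
    (hb3 : α₀ + b₁ ≤ π) :
    ∃ δ : ℝ, 0 < δ ∧ ∀ᶠ N : ℕ in atTop,
      ‖Fint A N (dN α₀ N) (-b₀ + η * Complex.I)‖ * (δ / Real.sqrt N) ≤
        ‖∫ x in (-b₁)..π, Fint A N (dN α₀ N) (x + η * Complex.I)‖ := by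
  have hp := Real.pi_pos
  have hA' : (4 : ℝ) ≤ A := by exact_mod_cast hA
  have hη := hC.hη
  have hm2 : 2 ≤ (A : ℝ) / 2 := by linarith
  obtain ⟨c, hc, hquad⟩ := hQ _ _ _ _ b₁ hm2 hC hb1 hb2 hb3
  obtain ⟨cL, hcL, hlim⟩ := hL A α₀ b₀ η (dN α₀) hA hC (dN_close hC.hα.le)
  obtain ⟨C, hC0, hpbf⟩ := pbf hRS A (h := η) (H := η) hη
  obtain ⟨M, hM0, hM⟩ := pot_diff_lip (H := η) hη ((A : ℝ) / 2) α₀
  have hαπ : α₀ < π := by linarith [hC.hαb, hC.hb]
  set KN : ℕ → ℝ → ℂ := fun N x => Fint A N (dN α₀ N) (x + η * Complex.I) /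
    Fint A N (dN α₀ N) (-b₀ + η * Complex.I) with hKN
  have hcont : ∀ᶠ N in atTop, Continuous (KN N) := by
    filter_upwards [eventually_gt_atTop 0] with N hN0
    exact (Fint_contAt A hN0 hη).div_const _
  have hbound : ∀ᶠ N : ℕ in atTop, ∀ x : ℝ, -b₁ ≤ x → x ≤ π →
      ‖KN N x‖ ≤ Real.exp (2 * C + 2 * M) * Real.exp (-(c / (4 * π)) * N * (x - -b₀) ^ 2) := by
    filter_upwards [eventually_gt_atTop 0] with N hN0 x hx hx'
    have hNp : (0 : ℝ) < N := by exact_mod_cast hN0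
    have hd := dN_lt hC.hα.le hαπ hN0
    have hne := Fint_ne A (N := N) (d := dN α₀ N) hN0 (b := b₀) hη
    have hne2 := Fint_ne A (N := N) (d := dN α₀ N) hN0 (b := -x) hη
    have hxx : (-((-x : ℝ) : ℂ) + η * Complex.I) = (x : ℂ) + η * Complex.I := by push_cast; ring
    have q1 := hpbf N (dN α₀ N) hN0 hd.le b₀ η le_rfl le_rfl
    have q2 := hpbf N (dN α₀ N) hN0 hd.le (-x) η le_rfl le_rfl
    have q3 := hquad (-x) (by linarith) (by linarith)
    set α : ℝ := 2 * π * (dN α₀ N) / N with hα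
    have q4 := hM α (-x) b₀ η le_rfl le_rfl
    have hdist : |α - α₀| ≤ 2 * π / N := by
      have := dN_close hC.hα.le N
      have e : α - α₀ = (2 * π * (dN α₀ N) - α₀ * N) / N := by
        rw [hα]
        field_simp
      rw [e, abs_div, abs_of_pos hNp]
      exact div_le_div_of_nonneg_right this hNp.le
    rw [hKN]
    show ‖Fint A N (dN α₀ N) (x + η * Complex.I) /
      Fint A N (dN α₀ N) (-b₀ + η * Complex.I)‖ ≤ _
    rw [norm_div]
    rw [hxx] at hne2 q2
    have hpos : 0 < ‖Fint A N (dN α₀ N) (-b₀ + η * Complex.I)‖ := norm_pos_iff.2 hne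
    have hpos2 : 0 < ‖Fint A N (dN α₀ N) (x + η * Complex.I)‖ := norm_pos_iff.2 hne2
    rw [div_le_iff₀ hpos, ← Real.exp_add, ← Real.log_le_log_iff hpos2 (by positivity),
      Real.log_mul (Real.exp_ne_zero _) hpos.ne', Real.log_exp]
    have hpd : pot ((A : ℝ) / 2) α (-x) η - pot ((A : ℝ) / 2) α b₀ η =
        (4 * ((A : ℝ) / 2 * (-x) - π) * η + (Lf η (-x + α) - Lf η (-x - α))) -
        (4 * ((A : ℝ) / 2 * b₀ - π) * η + (Lf η (b₀ + α) - Lf η (b₀ - α))) := by
      unfold pot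
      ring
    rw [abs_le] at q1 q2
    have q5 : N / (4 * π) * (pot ((A : ℝ) / 2) α (-x) η - pot ((A : ℝ) / 2) α b₀ η) ≤
        N / (4 * π) * (-c * (-x - b₀) ^ 2 + 4 * M * (2 * π / N)) := by
      apply mul_le_mul_of_nonneg_left _ (by positivity)
      have : 4 * M * |α - α₀| ≤ 4 * M * (2 * π / N) :=
        mul_le_mul_of_nonneg_left hdist (by positivity)
      linarith
    have q6 : N / (4 * π) * (-c * (-x - b₀) ^ 2 + 4 * M * (2 * π / N)) =
        -(c / (4 * π)) * N * (x - -b₀) ^ 2 + 2 * M := by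
      field_simp
      ring
    rw [hpd] at q5
    have q7 : N / (4 * π) * ((4 * ((A : ℝ) / 2 * (-x) - π) * η + (Lf η (-x + α) - Lf η (-x - α))) -
        (4 * ((A : ℝ) / 2 * b₀ - π) * η + (Lf η (b₀ + α) - Lf η (b₀ - α)))) =
        N / (4 * π) * (4 * ((A : ℝ) / 2 * (-x) - π) * η + (Lf η (-x + α) - Lf η (-x - α))) -
        N / (4 * π) * (4 * ((A : ℝ) / 2 * b₀ - π) * η + (Lf η (b₀ + α) - Lf η (b₀ - α))) := by
      ring
    linarith [q1.1, q1.2, q2.1, q2.2]
  have hpt : ∀ s : ℝ, Tendsto (fun N : ℕ => KN N (-b₀ + s / Real.sqrt N)) atTop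
      (𝓝 (Complex.exp (-cL * s ^ 2))) := by
    intro s
    have := hlim s
    refine this.congr (fun N => ?_)
    show _ = Fint A N (dN α₀ N) (((-b₀ + s / Real.sqrt N : ℝ) : ℂ) + η * Complex.I) /
      Fint A N (dN α₀ N) (-b₀ + η * Complex.I)
    push_cast
    rfl
  obtain ⟨δ, hδ, hev⟩ := hD KN cL (-b₀) (-b₁) π (Real.exp (2 * C + 2 * M)) (c / (4 * π)) hcL
    (by linarith) (by linarith [hC.hb]) (by positivity) hcont hbound hpt
  refine ⟨δ, hδ, ?_⟩
  filter_upwards [hev, eventually_gt_atTop 0] with N hN hN0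
  have hne := Fint_ne A (N := N) (d := dN α₀ N) hN0 (b := b₀) hη
  have hN' : δ / Real.sqrt N ≤ ‖∫ x in (-b₁)..π, Fint A N (dN α₀ N) (x + η * Complex.I) /
    Fint A N (dN α₀ N) (-b₀ + η * Complex.I)‖ := hN
  rw [intervalIntegral.integral_div, norm_div] at hN'
  have hpos : 0 < ‖Fint A N (dN α₀ N) (-b₀ + η * Complex.I)‖ := norm_pos_iff.2 hne
  rw [le_div_iff₀ hpos] at hN'
  linarith

/-- lower bound -/
theorem low (hG : S_GAM) (hP : S_PATH) (hRS : S_RS) (hB : S_BRF) (hV : S_VERT)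
    (hM : S_MAX) (hU : S_VUP) (hVC : S_VCONV) (hVE : S_VEND) (hT : S_TEN)
    (hRe : S_REAL) (hQ : S_QUAD) (hL : S_LAP) (hD : S_DC) {A : ℕ} (hA : 4 ≤ A) {α₀ b₀ η : ℝ}
    (hC : Crit ((A : ℝ) / 2) α₀ b₀ η) {ε : ℝ} (hε : 0 < ε) :
    ∀ᶠ N : ℕ in atTop, ∃ n, n < N ∧
      Real.exp (N / (4 * π) * pot ((A : ℝ) / 2) α₀ b₀ η - ε * N) ≤ Cn A N n := by
  have hp := Real.pi_pos
  have hA' : (4 : ℝ) ≤ A := by exact_mod_cast hA
  set m : ℝ := (A : ℝ) / 2 with hm
  have hm2 : 2 ≤ m := by rw [hm]; linarith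
  have hm0 : 0 < m := by linarith
  have hAm : (A : ℝ) = 2 * m := by rw [hm]; ring
  set V := pot m α₀ b₀ η with hVd
  set Λ := GapVol.lob (π / 6) with hΛ
  have hΛ0 : 0 < Λ := lob6_pos
  have hV10 : 10 * Λ ≤ V := vol_ge hM hT hm2 hC
  have hη := hC.hη
  have hα0 := hC.hα
  have hαπ : α₀ < π := by linarith [hC.hαb, hC.hb]
  have hpm : 0 < π / m := by positivity
  have hpm2 : π / m ≤ π / 2 := div_le_div_of_nonneg_left hp.le (by norm_num) hm2
  set b₁ := min (π / m) (π - α₀) with hb₁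
  have hb1a : b₀ < b₁ := by
    apply lt_min
    · rw [lt_div_iff₀ hm0]
      linarith [hC.hbm]
    · linarith [hC.hαb]
  have hb1b : b₁ ≤ π / 2 := le_trans (min_le_left _ _) hpm2
  have hb1c : α₀ + b₁ ≤ π := by linarith [min_le_right (π / m) (π - α₀)]
  have hb10 : 0 < b₁ := lt_trans hC.hb hb1a
  obtain ⟨c, hc, hquad⟩ := hQ m α₀ b₀ η b₁ hm2 hC hb1a hb1b hb1c
  set δ : ℝ := min (c * (b₁ - b₀) ^ 2) Λ with hδd
  have hδ0 : 0 < δ := by
    apply lt_min _ hΛ0
    have : 0 < b₁ - b₀ := by linarith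
    positivity
  have hδ1 : δ ≤ c * (b₁ - b₀) ^ 2 := min_le_left _ _
  have hδ2 : δ ≤ Λ := min_le_right _ _
  set h : ℝ := min η (min (Λ / (2 * π)) (δ / (8 * π * m))) with hhd
  have hh : 0 < h := lt_min hη (lt_min (by positivity) (by positivity))
  have hhη : h ≤ η := min_le_left _ _
  have hh1 : 2 * π * h ≤ Λ := by
    have h1 : h ≤ Λ / (2 * π) := le_trans (min_le_right _ _) (min_le_left _ _)
    rw [le_div_iff₀ (by positivity)] at h1
    linarith
  have hh2 : 8 * π * m * h ≤ δ := by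
    have h1 : h ≤ δ / (8 * π * m) := le_trans (min_le_right _ _) (min_le_right _ _)
    rw [le_div_iff₀ (by positivity)] at h1
    linarith
  -- off-critical estimates at `α₀`
  have w2 : ∀ y, h ≤ y → y ≤ η → pot m α₀ b₁ y ≤ V - δ := by
    intro y hy hy'
    have hq1 := hquad b₁ (by linarith) le_rfl
    rcases le_total (π / m) (π - α₀) with h0 | h0
    · have hbe : b₁ = π / m := by rw [hb₁, min_eq_left h0]
      have h5 := hU m α₀ y η hm0 (by linarith) hy' hα0.le
      rw [← hbe] at h5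
      linarith
    · have hbe : b₁ = π - α₀ := by rw [hb₁, min_eq_right h0]
      have h5 := hVC m α₀ h y η hh hy hy' (by linarith) hαπ.le
      rw [← hbe] at h5
      refine le_trans h5 (max_le ?_ (by linarith))
      have h6 := hVE m α₀ h hm0.le (by rw [le_div_iff₀ hm0] at h0; linarith) hh (by linarith) hαπ.le
      rw [← hbe] at h6
      linarith
  have w1 : ∀ b, b₁ ≤ b → b ≤ π → pot m α₀ b h ≤ V - δ / 2 := by
    intro b hb hb'
    have h1 := hRe m α₀ b b₁ h hm0.le hh hα0.le hαπ.le hb10.le hb hb'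
    have h2 := w2 h le_rfl hhη
    nlinarith
  -- constants
  set ε' : ℝ := min (ε / 4) (δ / (200 * π)) with hε'
  have hε0 : 0 < ε' := lt_min (by positivity) (by positivity)
  have hε1 : ε' ≤ ε / 4 := min_le_left _ _
  have hε2 : ε' * (200 * π) ≤ δ := by
    have h1 := min_le_right (ε / 4) (δ / (200 * π))
    rw [← hε', le_div_iff₀ (by positivity)] at h1
    exact h1
  obtain ⟨ρ, hρ0, hρ⟩ := pot_unif (H := η) hh m α₀ (ρ := min (δ / 4) (4 * π * ε'))
    (lt_min (by positivity) (by positivity))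
  obtain ⟨δ₂, hδ₂, hhor⟩ := horiz hRS hQ hL hD hA hC hb1a hb1b hb1c
  have e1 := pb_le hRS hB A (h := h) (H := η) hh hε0
  have e1' := pb_ge hRS hB A (h := h) (H := η) hh hε0
  have e2 := hV A ε' hε0
  set K : ℝ := Real.sinh h * h + 1 * (2 * π) + 1 * η + Real.sinh η * η with hK
  have hsh : 0 ≤ Real.sinh h := Real.sinh_nonneg_iff.2 hh.le
  have hsη : 0 ≤ Real.sinh η := Real.sinh_nonneg_iff.2 hη.le
  have hK0 : 0 < K := by
    have : 0 ≤ Real.sinh h * h := by positivity
    have : 0 ≤ Real.sinh η * η := by positivity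
    rw [hK]
    positivity
  have e3 := exp_small (c := δ₂ / (2 * K)) (ε := ε') (by positivity) hε0
  have e4 := exp_small (c := δ₂ / (4 * π)) (ε := ε') (by positivity) hε0
  have e5 : ∀ᶠ N : ℕ in atTop, 2 * π / N ≤ ρ := by
    have : Tendsto (fun N : ℕ => 2 * π / (N : ℝ)) atTop (𝓝 0) :=
      tendsto_const_div_atTop_nhds_zero_nat _
    exact (this.eventually_lt_const hρ0).mono (fun N hN => hN.le)
  filter_upwards [e1, e1', e2, e3, e4, e5, hhor, eventually_ge_atTop 2] with
    N h1 h1' h2 h3 h4 h5 h6 hN2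
  have hN0 : 0 < N := by omega
  have hNp : (0 : ℝ) < N := by exact_mod_cast hN0
  have hd := dN_lt hα0.le hαπ hN0
  set d := dN α₀ N with hdd
  set α : ℝ := 2 * π * d / N with hα
  have hdist : |α - α₀| ≤ ρ := by
    have := dN_close hα0.le N
    have e : α - α₀ = (2 * π * (dN α₀ N) - α₀ * N) / N := by
      rw [hα]
      field_simp
      rw [hdd]
    rw [e, abs_div, abs_of_pos hNp]
    exact le_trans (div_le_div_of_nonneg_right this hNp.le) h5
  have hclose := hρ α hdist
  set n := N - 1 - d with hn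
  have hnd : n + d + 1 = N := by omega
  refine ⟨n, by omega, ?_⟩
  have hb1π : |b₁| ≤ π := by rw [abs_of_pos hb10]; linarith
  rw [Cn_path hG hP A hN2 hnd hh hhη hb1π]
  set k : ℝ := ‖brf (v0 N) n‖ ^ 2 with hk
  have hk0 : 0 ≤ k := by positivity
  have hnorm : ∀ z : ℂ, ‖((k : ℝ) : ℂ) * Fint A N d z‖ = k * ‖Fint A N d z‖ := by
    intro z
    rw [norm_mul, Complex.norm_real, Real.norm_eq_abs, abs_of_nonneg hk0]
  set E := Real.exp (N / (4 * π) * (V - δ / 4) + ε' * N) with hE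
  have hE0 : 0 < E := Real.exp_pos _
  have hpN : 0 < N / (4 * π) := by positivity
  have hVδ : 0 ≤ V - δ / 4 := by linarith
  have hVN : 0 ≤ N / (4 * π) * (V - δ / 4) := by positivity
  have key := path_sub_le (f := fun z => ((k : ℝ) : ℂ) * Fint A N d z) hh.le hhη
    (b := b₁) (by linarith) (B1 := Real.sinh h * E) (B2 := E) (B3 := E)
    (B5 := Real.sinh η * E) ?_ ?_ ?_ ?_
  · -- conclusion
    have hint : ‖∫ x in (-b₁)..π, ((k : ℝ) : ℂ) * Fint A N d (x + η * Complex.I)‖ =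
        k * ‖∫ x in (-b₁)..π, Fint A N d (x + η * Complex.I)‖ := by
      rw [intervalIntegral.integral_const_mul, norm_mul, Complex.norm_real, Real.norm_eq_abs,
        abs_of_nonneg hk0]
    have key' : k * ‖∫ x in (-b₁)..π, Fint A N d (x + η * Complex.I)‖ ≤
        ‖path (fun z => ((k : ℝ) : ℂ) * Fint A N d z) h η b₁‖ +
          (Real.sinh h * E * h + E * (π - b₁) + E * (η - h) + Real.sinh η * E * η) := by
      rw [← hint]
      exact key
    have hrest : Real.sinh h * E * h + E * (π - b₁) + E * (η - h) + Real.sinh η * E * η ≤ E * K := by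
      have g1 : E * (π - b₁) ≤ E * (2 * π) := mul_le_mul_of_nonneg_left (by linarith) hE0.le
      have g2 : E * (η - h) ≤ E * η := mul_le_mul_of_nonneg_left (by linarith) hE0.le
      have g3 : E * K = Real.sinh h * E * h + E * (2 * π) + E * η + Real.sinh η * E * η := by
        rw [hK]
        ring
      rw [g3]
      linarith
    have hmain := h1' n d hnd b₀ η hhη le_rfl
    have hpot : V - 4 * π * ε' ≤ pot m α b₀ η := by
      have := (abs_le.1 (hclose b₀ η hhη le_rfl)).1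
      have := min_le_right (δ / 4) (4 * π * ε')
      linarith
    have hmain2 : Real.exp (N / (4 * π) * V - 2 * ε' * N) ≤
        k * ‖Fint A N d (-b₀ + η * Complex.I)‖ := by
      refine le_trans (Real.exp_le_exp.2 ?_) hmain
      have : N / (4 * π) * (V - 4 * π * ε') ≤ N / (4 * π) * pot m α b₀ η :=
        mul_le_mul_of_nonneg_left hpot hpN.le
      have e : N / (4 * π) * (V - 4 * π * ε') = N / (4 * π) * V - ε' * N := by
        field_simp
      show N / (4 * π) * V - 2 * ε' * N ≤ N / (4 * π) * pot m α b₀ η - ε' * N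
      linarith
    have hsq : 0 < δ₂ / Real.sqrt N := by
      have : 0 < Real.sqrt N := Real.sqrt_pos.2 hNp
      positivity
    set G := Real.exp (N / (4 * π) * V - 2 * ε' * N) with hG'
    have hG0 : 0 < G := Real.exp_pos _
    have hlow : G * (δ₂ / Real.sqrt N) ≤ k * ‖∫ x in (-b₁)..π, Fint A N d (x + η * Complex.I)‖ := by
      calc G * (δ₂ / Real.sqrt N) ≤ (k * ‖Fint A N d (-b₀ + η * Complex.I)‖) * (δ₂ / Real.sqrt N) :=
            mul_le_mul_of_nonneg_right hmain2 hsq.le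
        _ = k * (‖Fint A N d (-b₀ + η * Complex.I)‖ * (δ₂ / Real.sqrt N)) := by ring
        _ ≤ _ := mul_le_mul_of_nonneg_left h6 hk0
    -- E K ≤ G δ₂/(2 √N)
    have hEG : E * K ≤ G * (δ₂ / Real.sqrt N) / 2 := by
      have hexp : E ≤ G * Real.exp (-(ε' * N)) := by
        rw [hE, hG', ← Real.exp_add]
        apply Real.exp_le_exp.2
        have : N / (4 * π) * (V - δ / 4) = N / (4 * π) * V - δ / (16 * π) * N := by
          field_simp
          ring
        rw [this]
        have h7 : 4 * ε' ≤ δ / (16 * π) := by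
          rw [le_div_iff₀ (by positivity)]
          nlinarith
        have h8 : 4 * ε' * N ≤ δ / (16 * π) * N := mul_le_mul_of_nonneg_right h7 hNp.le
        linarith
      have h9 : Real.exp (-(ε' * N)) * K ≤ δ₂ / Real.sqrt N / 2 := by
        calc Real.exp (-(ε' * N)) * K ≤ (δ₂ / (2 * K) / Real.sqrt N) * K :=
              mul_le_mul_of_nonneg_right h3 hK0.le
          _ = δ₂ / Real.sqrt N / 2 := by
            field_simp
      calc E * K ≤ (G * Real.exp (-(ε' * N))) * K := mul_le_mul_of_nonneg_right hexp hK0.le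
        _ = G * (Real.exp (-(ε' * N)) * K) := by ring
        _ ≤ G * (δ₂ / Real.sqrt N / 2) := mul_le_mul_of_nonneg_left h9 hG0.le
        _ = _ := by ring
    rw [le_div_iff₀ (by positivity)]
    have hfin : G * (δ₂ / Real.sqrt N) / 2 ≤
        ‖path (fun z => ((k : ℝ) : ℂ) * Fint A N d z) h η b₁‖ := by
      linarith
    refine le_trans ?_ hfin
    have h10 : Real.exp (N / (4 * π) * V - ε * N) ≤ G * Real.exp (-(ε' * N)) := by
      rw [hG', ← Real.exp_add]
      apply Real.exp_le_exp.2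
      have : 4 * ε' * N ≤ ε * N := mul_le_mul_of_nonneg_right (by linarith) hNp.le
      have : 0 ≤ ε' * N := by positivity
      linarith
    calc Real.exp (N / (4 * π) * V - ε * N) * (2 * π) ≤ (G * Real.exp (-(ε' * N))) * (2 * π) :=
          mul_le_mul_of_nonneg_right h10 (by positivity)
      _ = G * (Real.exp (-(ε' * N)) * (2 * π)) := by ring
      _ ≤ G * ((δ₂ / (4 * π) / Real.sqrt N) * (2 * π)) := by
          apply mul_le_mul_of_nonneg_left _ hG0.le
          exact mul_le_mul_of_nonneg_right h4 (by positivity)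
      _ = G * (δ₂ / Real.sqrt N) / 2 := by
          field_simp
          ring
  · intro y hy hy'
    rw [hnorm]
    refine le_trans (h2 n d hnd y hy).2 ?_
    have hs1 : Real.sinh y ≤ Real.sinh h := Real.sinh_le_sinh.2 hy'
    apply mul_le_mul hs1 _ (Real.exp_pos _).le hsh
    apply Real.exp_le_exp.2
    have hmy : m * y ≤ m * h := mul_le_mul_of_nonneg_left hy' hm0.le
    have h7 : (A : ℝ) * N * y / 2 ≤ N / (4 * π) * (V - δ / 4) := by
      have e : (A : ℝ) * N * y / 2 = N / (4 * π) * (4 * π * (m * y)) := by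
        rw [hAm]
        field_simp
      rw [e]
      apply mul_le_mul_of_nonneg_left _ hpN.le
      nlinarith
    linarith
  · intro x hx hx'
    rw [hnorm]
    refine le_trans (h1 n d hnd x h le_rfl hhη) ?_
    apply Real.exp_le_exp.2
    have h7 : pot m α x h ≤ V - δ / 4 := by
      have := (abs_le.1 (hclose x h le_rfl hhη)).2
      have := w1 x hx hx'
      have := min_le_left (δ / 4) (4 * π * ε')
      linarith
    have := mul_le_mul_of_nonneg_left h7 hpN.le
    linarith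
  · intro y hy hy'
    rw [hnorm]
    refine le_trans (h1 n d hnd b₁ y hy hy') ?_
    apply Real.exp_le_exp.2
    have h7 : pot m α b₁ y ≤ V - δ / 4 := by
      have := (abs_le.1 (hclose b₁ y hy hy')).2
      have := w2 y hy hy'
      have := min_le_left (δ / 4) (4 * π * ε')
      linarith
    have := mul_le_mul_of_nonneg_left h7 hpN.le
    linarith
  · intro y hy hy'
    rw [hnorm]
    refine le_trans (h2 n d hnd y hy).1 ?_
    have hs1 : Real.sinh y ≤ Real.sinh η := Real.sinh_le_sinh.2 hy'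
    apply mul_le_mul hs1 _ (Real.exp_pos _).le hsη
    apply Real.exp_le_exp.2
    linarith

end Pool.Agent.W709.VC
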