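import Pool.Agent.W709.VC.Defs

/-! General lemmas on boundary integrals of rectangles. -/

set_option autoImplicit false

namespace Pool.Agent.W709.VC

open Filter Finset MeasureTheory Set
open scoped Real Topology Interval

lemma tendsto_int_div {X : Type*} [TopologicalSpace X] {P Q : X → ℝ → ℂ}
    (hP : Continuous (Function.uncurry P)) (hQ : Continuous (Function.uncurry Q)) {a b : ℝ} {p₀ : X}
    (h0 : ∀ x ∈ [[a, b]], Q p₀ x ≠ 0) :
    Tendsto (fun p => ∫ x in a..b, P p x / Q p x) (𝓝 p₀) (𝓝 (∫ x in a..b, P p₀ x / Q p₀ x)) := by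
  have hcomp : IsCompact [[a, b]] := isCompact_uIcc
  have hP' : ∀ p, Continuous (P p) := fun p => hP.comp (Continuous.prodMk_right p)
  have hQ' : ∀ p, Continuous (Q p) := fun p => hQ.comp (Continuous.prodMk_right p)
  have hne : ∀ᶠ p in 𝓝 p₀, ∀ x ∈ [[a, b]], Q p x ≠ 0 := by
    apply hcomp.eventually_forall_of_forall_eventually
    intro x hx
    exact (hQ.continuousAt (x := (p₀, x))).eventually_ne (h0 x hx)
  rw [Metric.tendsto_nhds]
  intro ε hε
  set δ : ℝ := ε / (2 * (|b - a| + 1)) with hδ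
  have hδ0 : 0 < δ := by positivity
  have hclose : ∀ᶠ p in 𝓝 p₀, ∀ x ∈ [[a, b]], ‖P p x / Q p x - P p₀ x / Q p₀ x‖ < δ := by
    apply hcomp.eventually_forall_of_forall_eventually
    intro x hx
    have h1 : ContinuousAt (fun z : X × ℝ => P z.1 z.2 / Q z.1 z.2 - P p₀ z.2 / Q p₀ z.2) (p₀, x) := by
      apply ContinuousAt.sub
      · exact ContinuousAt.div (hP.continuousAt) (hQ.continuousAt) (h0 x hx)
      · exact ContinuousAt.div (((hP' p₀).comp continuous_snd).continuousAt)
          (((hQ' p₀).comp continuous_snd).continuousAt) (h0 x hx)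
    have h2 := h1.norm
    have h3 : ‖P p₀ x / Q p₀ x - P p₀ x / Q p₀ x‖ < δ := by simpa using hδ0
    exact h2.eventually_lt_const h3
  filter_upwards [hne, hclose] with p hp1 hp2
  have i1 : IntervalIntegrable (fun x => P p x / Q p x) volume a b := by
    apply ContinuousOn.intervalIntegrable
    exact (hP' p).continuousOn.div (hQ' p).continuousOn hp1
  have i2 : IntervalIntegrable (fun x => P p₀ x / Q p₀ x) volume a b := by
    apply ContinuousOn.intervalIntegrable
    exact (hP' p₀).continuousOn.div (hQ' p₀).continuousOn h0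
  rw [dist_eq_norm, ← intervalIntegral.integral_sub i1 i2]
  have h4 : ‖∫ x in a..b, (P p x / Q p x - P p₀ x / Q p₀ x)‖ ≤ δ * |b - a| := by
    apply intervalIntegral.norm_integral_le_of_norm_le_const
    intro x hx
    exact (hp2 x (uIoc_subset_uIcc hx)).le
  refine lt_of_le_of_lt h4 ?_
  rw [hδ]
  have : 0 ≤ |b - a| := abs_nonneg _
  rw [div_mul_eq_mul_div, div_lt_iff₀ (by positivity)]
  nlinarith

/-- integrability on the four sides -/
def RI (f : ℂ → ℂ) (a b c d : ℝ) : Prop :=
  IntervalIntegrable (fun x : ℝ => f (x + c * Complex.I)) volume a b ∧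
  IntervalIntegrable (fun x : ℝ => f (x + d * Complex.I)) volume a b ∧
  IntervalIntegrable (fun y : ℝ => f (b + y * Complex.I)) volume c d ∧
  IntervalIntegrable (fun y : ℝ => f (a + y * Complex.I)) volume c d

/-- the boundary of a rectangle -/
def Bd (a b c d : ℝ) : Set ℂ :=
  {z | (∃ x ∈ [[a, b]], z = x + c * Complex.I) ∨ (∃ x ∈ [[a, b]], z = x + d * Complex.I) ∨
    (∃ y ∈ [[c, d]], z = b + y * Complex.I) ∨ (∃ y ∈ [[c, d]], z = a + y * Complex.I)}

lemma RI_of_cont {f : ℂ → ℂ} {a b c d : ℝ} (h : ∀ z ∈ Bd a b c d, ContinuousAt f z) :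
    RI f a b c d := by
  have key : ∀ (u w : ℝ) (g : ℝ → ℂ), Continuous g → (∀ x ∈ [[u, w]], g x ∈ Bd a b c d) →
      IntervalIntegrable (fun x : ℝ => f (g x)) volume u w := by
    intro u w g hg hb
    apply ContinuousOn.intervalIntegrable
    intro x hx
    exact (ContinuousAt.comp (h _ (hb x hx)) hg.continuousAt).continuousWithinAt
  refine ⟨?_, ?_, ?_, ?_⟩
  · exact key a b (fun x => (x : ℂ) + c * Complex.I) (by fun_prop) (fun x hx => Or.inl ⟨x, hx, rfl⟩)
  · exact key a b (fun x => (x : ℂ) + d * Complex.I) (by fun_prop)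
      (fun x hx => Or.inr (Or.inl ⟨x, hx, rfl⟩))
  · exact key c d (fun y => (b : ℂ) + y * Complex.I) (by fun_prop)
      (fun x hx => Or.inr (Or.inr (Or.inl ⟨x, hx, rfl⟩)))
  · exact key c d (fun y => (a : ℂ) + y * Complex.I) (by fun_prop)
      (fun x hx => Or.inr (Or.inr (Or.inr ⟨x, hx, rfl⟩)))

lemma rect_add {f g : ℂ → ℂ} {a b c d : ℝ} (hf : RI f a b c d) (hg : RI g a b c d) :
    rect (fun z => f z + g z) a b c d = rect f a b c d + rect g a b c d := by
  unfold rect
  rw [intervalIntegral.integral_add hf.1 hg.1, intervalIntegral.integral_add hf.2.1 hg.2.1,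
    intervalIntegral.integral_add hf.2.2.1 hg.2.2.1, intervalIntegral.integral_add hf.2.2.2 hg.2.2.2]
  ring

lemma rect_mul (k : ℂ) (f : ℂ → ℂ) (a b c d : ℝ) :
    rect (fun z => k * f z) a b c d = k * rect f a b c d := by
  unfold rect
  simp only [intervalIntegral.integral_const_mul]
  ring

lemma RI_add {f g : ℂ → ℂ} {a b c d : ℝ} (hf : RI f a b c d) (hg : RI g a b c d) :
    RI (fun z => f z + g z) a b c d :=
  ⟨hf.1.add hg.1, hf.2.1.add hg.2.1, hf.2.2.1.add hg.2.2.1, hf.2.2.2.add hg.2.2.2⟩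

lemma RI_sum {ι : Type*} (s : Finset ι) {f : ι → ℂ → ℂ} {a b c d : ℝ}
    (hf : ∀ i ∈ s, RI (f i) a b c d) : RI (fun z => ∑ i ∈ s, f i z) a b c d := by
  classical
  induction s using Finset.induction_on with
  | empty =>
    simp only [Finset.sum_empty]
    exact ⟨intervalIntegrable_const, intervalIntegrable_const, intervalIntegrable_const,
      intervalIntegrable_const⟩
  | insert i s hi ih =>
    simp only [Finset.sum_insert hi]
    exact RI_add (hf i (by simp)) (ih (fun j hj => hf j (by simp [hj])))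

lemma rect_sum {ι : Type*} (s : Finset ι) {f : ι → ℂ → ℂ} {a b c d : ℝ}
    (hf : ∀ i ∈ s, RI (f i) a b c d) :
    rect (fun z => ∑ i ∈ s, f i z) a b c d = ∑ i ∈ s, rect (f i) a b c d := by
  classical
  induction s using Finset.induction_on with
  | empty => simp [rect]
  | insert i s hi ih =>
    simp only [Finset.sum_insert hi]
    rw [rect_add (hf i (by simp)) (RI_sum s (fun j hj => hf j (by simp [hj]))),
      ih (fun j hj => hf j (by simp [hj]))]

lemma rect_congr {f g : ℂ → ℂ} {a b c d : ℝ} (h : ∀ z ∈ Bd a b c d, f z = g z) :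
    rect f a b c d = rect g a b c d := by
  unfold rect
  rw [intervalIntegral.integral_congr (g := fun x : ℝ => g (x + c * Complex.I))
      (fun x hx => h _ (Or.inl ⟨x, hx, rfl⟩)),
    intervalIntegral.integral_congr (g := fun x : ℝ => g (x + d * Complex.I))
      (fun x hx => h _ (Or.inr (Or.inl ⟨x, hx, rfl⟩))),
    intervalIntegral.integral_congr (g := fun x : ℝ => g (b + x * Complex.I))
      (fun x hx => h _ (Or.inr (Or.inr (Or.inl ⟨x, hx, rfl⟩)))),
    intervalIntegral.integral_congr (g := fun x : ℝ => g (a + x * Complex.I))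
      (fun x hx => h _ (Or.inr (Or.inr (Or.inr ⟨x, hx, rfl⟩))))]

/-- horizontal translation -/
lemma rect_shift (f : ℂ → ℂ) (a b c d t : ℝ) :
    rect (fun z => f (z + t)) a b c d = rect f (a + t) (b + t) c d := by
  unfold rect
  have h1 : ∀ e : ℝ, (∫ x in a..b, f (x + e * Complex.I + t)) =
      ∫ x in (a + t)..(b + t), f (x + e * Complex.I) := by
    intro e
    rw [← intervalIntegral.integral_comp_add_right (fun x : ℝ => f (x + e * Complex.I)) t]
    apply intervalIntegral.integral_congr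
    intro x _
    show f (x + e * Complex.I + t) = f (((x + t : ℝ) : ℂ) + e * Complex.I)
    congr 1
    push_cast
    ring
  have h2 : ∀ e : ℝ, (∫ y in c..d, f (e + y * Complex.I + t)) =
      ∫ y in c..d, f (((e + t : ℝ) : ℂ) + y * Complex.I) := by
    intro e
    apply intervalIntegral.integral_congr
    intro y _
    show f (e + y * Complex.I + t) = f (((e + t : ℝ) : ℂ) + y * Complex.I)
    congr 1
    push_cast
    ring
  rw [h1, h1, h2, h2]

lemma tendsto_rect_div {X : Type*} [TopologicalSpace X] {P Q : X → ℂ → ℂ}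
    (hP : Continuous (Function.uncurry P)) (hQ : Continuous (Function.uncurry Q)) {a b c d : ℝ}
    {p₀ : X} (h0 : ∀ z ∈ Bd a b c d, Q p₀ z ≠ 0) :
    Tendsto (fun p => rect (fun z => P p z / Q p z) a b c d) (𝓝 p₀)
      (𝓝 (rect (fun z => P p₀ z / Q p₀ z) a b c d)) := by
  have key : ∀ (u w : ℝ) (g : ℝ → ℂ), Continuous g → (∀ x ∈ [[u, w]], g x ∈ Bd a b c d) →
      Tendsto (fun p => ∫ x in u..w, P p (g x) / Q p (g x)) (𝓝 p₀)
        (𝓝 (∫ x in u..w, P p₀ (g x) / Q p₀ (g x))) := by
    intro u w g hg hb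
    exact tendsto_int_div (P := fun p x => P p (g x)) (Q := fun p x => Q p (g x))
      (hP.comp (continuous_fst.prodMk (hg.comp continuous_snd)))
      (hQ.comp (continuous_fst.prodMk (hg.comp continuous_snd)))
      (fun x hx => h0 _ (hb x hx))
  unfold rect
  refine (((key a b _ (by fun_prop) (fun x hx => Or.inl ⟨x, hx, rfl⟩)).sub
    (key a b _ (by fun_prop) (fun x hx => Or.inr (Or.inl ⟨x, hx, rfl⟩)))).add
    ((key c d _ (by fun_prop) (fun x hx => Or.inr (Or.inr (Or.inl ⟨x, hx, rfl⟩)))).const_mul _)).sub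
    ((key c d _ (by fun_prop) (fun x hx => Or.inr (Or.inr (Or.inr ⟨x, hx, rfl⟩)))).const_mul _)

end Pool.Agent.W709.VC
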